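import Mathlib

/-!
Core algebraic lemmas on permutations with a `Golomb structure`
`α^(f i + b) + β^(i + a) = 1`.
-/

namespace Pool.Agent.Helper60.Costas

/-- `α` is nonzero of multiplicative order exactly `N`. -/
def HasOrd {F : Type} [Field F] (α : F) (N : ℤ) : Prop := α ≠ 0 ∧ ∀ k : ℤ, α ^ k = 1 ↔ N ∣ k

theorem HasOrd.eq_iff {F : Type} [Field F] {α : F} {N : ℤ} (h : HasOrd α N) (i j : ℤ) :
    α ^ i = α ^ j ↔ N ∣ i - j := by
  rw [← h.2 (i - j), zpow_sub₀ h.1, div_eq_one_iff_eq (zpow_ne_zero _ h.1)]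

/-- Golomb structure: on the positions of `[1,n]` outside `E`. -/
structure GS {F : Type} [Field F] (n : ℤ) (f : ℤ → ℤ) (N a b : ℤ) (α β : F) (E : ℤ → Prop) :
    Prop where
  oα : HasOrd α N
  oβ : HasOrd β N
  eq : ∀ i, 1 ≤ i → i ≤ n → ¬ E i → α ^ (f i + b) + β ^ (i + a) = 1

/-- a usable position -/
def Ok (n : ℤ) (E : ℤ → Prop) (i : ℤ) : Prop := 1 ≤ i ∧ i ≤ n ∧ ¬ E i

/-- the four positions used by `Gam` are usable -/
def Good (n : ℤ) (E : ℤ → Prop) (s i : ℤ) : Prop :=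
  Ok n E i ∧ Ok n E (i + 1) ∧ Ok n E (s - i) ∧ Ok n E (s - i - 1)

def Gam (f : ℤ → ℤ) (s i : ℤ) : ℤ := f (s - i - 1) - f (i + 1) - f (s - i) + f i

section
variable {F : Type} [Field F] {n : ℤ} {f : ℤ → ℤ} {N a b : ℤ} {α β : F} {E : ℤ → Prop}

theorem GS.eq' (G : GS n f N a b α β E) {i : ℤ} (h : Ok n E i) :
    α ^ (f i + b) = 1 - β ^ (i + a) := by
  have := G.eq i h.1 h.2.1 h.2.2
  linear_combination this

theorem GS.gam (G : GS n f N a b α β E) {s i : ℤ} (h : Good n E s i) :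
    α ^ (Gam f s i) * ((1 - β * β ^ (i + a)) * (1 - β * β ^ (s - i - 1 + a))) =
      (1 - β ^ (i + a)) * (1 - β ^ (s - i - 1 + a)) := by
  obtain ⟨h1, h2, h3, h4⟩ := h
  have e1 := G.eq' h1
  have e2 := G.eq' h2
  have e3 := G.eq' h3
  have e4 := G.eq' h4
  have b2 : β ^ (i + 1 + a) = β * β ^ (i + a) := by
    rw [show i + 1 + a = 1 + (i + a) by ring, zpow_add₀ G.oβ.1, zpow_one]
  have b3 : β ^ (s - i + a) = β * β ^ (s - i - 1 + a) := by
    rw [show s - i + a = 1 + (s - i - 1 + a) by ring, zpow_add₀ G.oβ.1, zpow_one]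
  rw [← b2, ← b3, ← e1, ← e2, ← e3, ← e4, ← zpow_add₀ G.oα.1, ← zpow_add₀ G.oα.1,
    ← zpow_add₀ G.oα.1]
  congr 1
  unfold Gam
  ring

theorem GS.prod (G : GS n f N a b α β E) (s i : ℤ) :
    β ^ (i + a) * β ^ (s - i - 1 + a) = β ^ (s - 1 + 2 * a) := by
  rw [← zpow_add₀ G.oβ.1]; congr 1; ring

theorem GS.beta_kappa (G : GS n f N a b α β E) (s : ℤ) :
    β * β ^ (s - 1 + 2 * a) = β ^ (s + 2 * a) := by
  conv_rhs => rw [show s + 2 * a = 1 + (s - 1 + 2 * a) by ring, zpow_add₀ G.oβ.1 1, zpow_one]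

theorem GS.ne_one (G : GS n f N a b α β E) (hN : ¬ N ∣ 1) : β ≠ 1 := by
  intro h
  exact hN ((G.oβ.2 1).1 (by rw [h, one_zpow]))

/-- distinctness of the second differences -/
theorem GS.K1 (G : GS n f N a b α β E) {s i j : ℤ} (hi : Good n E s i) (hj : Good n E s j)
    (hN : ¬ N ∣ 1) (hs : ¬ N ∣ s + 2 * a) (h : α ^ Gam f s i = α ^ Gam f s j) :
    N ∣ i - j ∨ N ∣ i + j + 1 - s := by
  have gi := G.gam hi
  have gj := G.gam hj
  rw [← h] at gj
  have pi := G.prod s i
  have pj := G.prod s j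
  have bk := G.beta_kappa s
  have hb := G.ne_one hN
  have hk : β * β ^ (s - 1 + 2 * a) ≠ 1 := by
    rw [bk]; intro h'; exact hs ((G.oβ.2 _).1 h')
  set y := β ^ (i + a) with hy
  set z := β ^ (s - i - 1 + a) with hz
  set y' := β ^ (j + a) with hy'
  set z' := β ^ (s - j - 1 + a) with hz'
  set κ := β ^ (s - 1 + 2 * a) with hκ
  set x := α ^ Gam f s i with hx
  have key : (1 - y) * (1 - z) * ((1 - β * y') * (1 - β * z')) =
      (1 - y') * (1 - z') * ((1 - β * y) * (1 - β * z)) := by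
    rw [← gi, ← gj]; ring
  have key2 : ((y + z) - (y' + z')) * ((β - 1) * (1 - β * κ)) = 0 := by
    have e1 : (1 - y) * (1 - z) = 1 + κ - (y + z) := by rw [← pi]; ring
    have e2 : (1 - y') * (1 - z') = 1 + κ - (y' + z') := by rw [← pj]; ring
    have e3 : (1 - β * y) * (1 - β * z) = 1 + β ^ 2 * κ - β * (y + z) := by rw [← pi]; ring
    have e4 : (1 - β * y') * (1 - β * z') = 1 + β ^ 2 * κ - β * (y' + z') := by rw [← pj]; ring
    rw [e1, e2, e3, e4] at key
    linear_combination key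
  have hw : y + z = y' + z' := by
    rcases mul_eq_zero.1 key2 with h1 | h1
    · linear_combination h1
    · rcases mul_eq_zero.1 h1 with h2 | h2
      · exact absurd (by linear_combination h2) hb
      · exact absurd (by linear_combination -h2) hk
  have hfin : (y - y') * (y - z') = 0 := by
    linear_combination y * hw - pi + pj
  rcases mul_eq_zero.1 hfin with h1 | h1
  · left
    have := (G.oβ.eq_iff (i + a) (j + a)).1 (by linear_combination h1)
    convert this using 1; ring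
  · right
    have := (G.oβ.eq_iff (i + a) (s - j - 1 + a)).1 (by linear_combination h1)
    convert this using 1; ring

/-- reflection: the second differences are all congruent -/
theorem GS.K2 (G : GS n f N a b α β E) {s i : ℤ} (hi : Good n E s i)
    (hs : N ∣ s + 2 * a) : α ^ Gam f s i * β = 1 := by
  have gi := G.gam hi
  have pi := G.prod s i
  have bk := G.beta_kappa s
  rw [(G.oβ.2 _).2 hs] at bk
  obtain ⟨h1, h2, h3, h4⟩ := hi
  have e1 := G.eq' h1
  have e4 := G.eq' h4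
  have n1 : (1 - β ^ (i + a)) ≠ 0 := by rw [← e1]; exact zpow_ne_zero _ G.oα.1
  have n4 : (1 - β ^ (s - i - 1 + a)) ≠ 0 := by rw [← e4]; exact zpow_ne_zero _ G.oα.1
  set y := β ^ (i + a) with hy
  set z := β ^ (s - i - 1 + a) with hz
  set κ := β ^ (s - 1 + 2 * a) with hκ
  set x := α ^ Gam f s i with hx
  have hne : (1 - y) * (1 - z) ≠ 0 := mul_ne_zero n1 n4
  have e5 : (1 - β * y) * (1 - β * z) = β * ((1 - y) * (1 - z)) := by
    linear_combination (β ^ 2 - β) * pi + (β - 1) * bk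
  rw [e5] at gi
  have : (x * β - 1) * ((1 - y) * (1 - z)) = 0 := by linear_combination gi
  rcases mul_eq_zero.1 this with h | h
  · linear_combination h
  · exact absurd h hne

/-- first order reflection -/
theorem GS.K3 (G : GS n f N a b α β E) {s i : ℤ} (h1 : Ok n E i) (h2 : Ok n E (s - i))
    (hs : N ∣ s + 2 * a) : α ^ (f (s - i) - f i) * β ^ (i + a) = -1 := by
  have e1 := G.eq' h1
  have e2 := G.eq' h2
  have n1 : (1 - β ^ (i + a)) ≠ 0 := by rw [← e1]; exact zpow_ne_zero _ G.oα.1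
  have hyz : β ^ (i + a) * β ^ (s - i + a) = 1 := by
    rw [← zpow_add₀ G.oβ.1, G.oβ.2]
    convert hs using 1; ring
  have e3 : α ^ (f (s - i) - f i) * α ^ (f i + b) = α ^ (f (s - i) + b) := by
    rw [← zpow_add₀ G.oα.1]; congr 1; ring
  rw [e1, e2] at e3
  set y := β ^ (i + a) with hy
  set z := β ^ (s - i + a) with hz
  set x := α ^ (f (s - i) - f i) with hx
  have : (1 - y) * (x * y + 1) = 0 := by linear_combination y * e3 - hyz
  rcases mul_eq_zero.1 this with h | h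
  · exact absurd h n1
  · linear_combination h

theorem eq_zero_of_dvd_of_lt {N x : ℤ} (h : N ∣ x) (h1 : -N < x) (h2 : x < N) : x = 0 := by
  apply Int.eq_zero_of_abs_lt_dvd h
  rw [abs_lt]; exact ⟨h1, h2⟩

/-- at most four classes -/
theorem five {F' : Type} [Field F'] {N' a' b' : ℤ} {α' β' : F'} {E' : ℤ → Prop}
    (X : GS n f N a b α β E) (G : GS n f N' a' b' α' β' E')
    (hf : ∀ i, 1 ≤ i → i ≤ n → 1 ≤ f i ∧ f i ≤ n) {s : ℤ}
    (hs : N' ∣ s + 2 * a') (hs' : ¬ N ∣ s + 2 * a) (hN : 2 ≤ N) (hN' : n - 1 ≤ N') (hn : 3 ≤ n)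
    (S : Finset ℤ) (hS : ∀ i ∈ S, Good n E s i ∧ Good n E' s i)
    (hd : ∀ i ∈ S, ∀ j ∈ S, i ≠ j → i - j < N ∧ i + j + 1 - s < N ∧ -N < i + j + 1 - s ∧
      i + j + 1 ≠ s) : S.card ≤ 4 := by
  have hN1 : ¬ N ∣ 1 := by
    intro h; have := Int.le_of_dvd (by norm_num) h; omega
  have hN1' : ¬ N' ∣ 1 := by
    intro h; have := Int.le_of_dvd (by norm_num) h; omega
  -- bounds
  have hb : ∀ i ∈ S, -(2 * (n - 1)) ≤ Gam f s i ∧ Gam f s i ≤ 2 * (n - 1) := by
    intro i hi
    obtain ⟨⟨h1, h2, h3, h4⟩, -⟩ := hS i hi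
    have e1 := hf _ h1.1 h1.2.1
    have e2 := hf _ h2.1 h2.2.1
    have e3 := hf _ h3.1 h3.2.1
    have e4 := hf _ h4.1 h4.2.1
    unfold Gam
    constructor <;> linarith
  -- injectivity
  have hinj : ∀ i ∈ S, ∀ j ∈ S, Gam f s i = Gam f s j → i = j := by
    intro i hi j hj h
    by_contra hne
    obtain ⟨d1, d2, d3, d4⟩ := hd i hi j hj hne
    obtain ⟨d1', -, -, -⟩ := hd j hj i hi (Ne.symm hne)
    rcases X.K1 (hS i hi).1 (hS j hj).1 hN1 hs' (by rw [h]) with h1 | h1
    · have := eq_zero_of_dvd_of_lt h1 (by linarith) d1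
      omega
    · have := eq_zero_of_dvd_of_lt h1 d3 d2
      omega
  -- congruence
  have hcong : ∀ i ∈ S, ∀ j ∈ S, N' ∣ Gam f s i - Gam f s j := by
    intro i hi j hj
    have k1 := G.K2 (hS i hi).2 hs
    have k2 := G.K2 (hS j hj).2 hs
    rw [← G.oα.eq_iff]
    exact mul_right_cancel₀ G.oβ.1 (k1.trans k2.symm)
  have hnz : ∀ i ∈ S, ¬ N' ∣ Gam f s i := by
    intro i hi h
    have k1 := G.K2 (hS i hi).2 hs
    rw [(G.oα.2 _).2 h, one_mul] at k1
    exact G.ne_one hN1' k1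
  have hN'pos : 0 < N' := by omega
  -- the map
  have hmap : ∀ i ∈ S, (fun i => (Gam f s i + 2 * (n - 1)) / N') i ∈ Finset.Icc (0 : ℤ) 3 := by
    intro i hi
    have hb' := hb i hi
    simp only [Finset.mem_Icc]
    constructor
    · apply Int.ediv_nonneg _ hN'pos.le
      linarith [hb'.1]
    · have : (Gam f s i + 2 * (n - 1)) / N' < 4 := by
        rw [Int.ediv_lt_iff_lt_mul hN'pos]
        rcases lt_or_eq_of_le hb'.2 with h | h
        · linarith
        · rcases lt_or_eq_of_le hN' with h' | h'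
          · linarith
          · exact absurd ⟨2, by rw [h, ← h']; ring⟩ (hnz i hi)
      omega
  have hcard := Finset.card_le_card_of_injOn _ hmap (by
    intro i hi j hj hij
    simp only at hij
    apply hinj i hi j hj
    obtain ⟨k, hk⟩ := hcong i hi j hj
    have e : Gam f s i + 2 * (n - 1) = (Gam f s j + 2 * (n - 1)) + N' * k := by linarith
    rw [e, Int.add_mul_ediv_left _ _ hN'pos.ne'] at hij
    have hk0 : k = 0 := by linarith
    rw [hk0] at hk
    linarith)
  simpa using hcard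

/-- a quadratic takes each value at most twice -/
theorem sum_card (G : GS n f N a b α β E) {h σ : ℤ} (S : Finset ℤ)
    (hS : ∀ i ∈ S, Ok n E i ∧ Ok n E (i + h) ∧ N ∣ f i + f (i + h) - σ)
    (hd : ∀ i ∈ S, ∀ j ∈ S, i - j < N) : S.card ≤ 2 := by
  by_contra hcon
  push Not at hcon
  obtain ⟨i, hi, j, hj, k, hk, hij, hik, hjk⟩ := Finset.two_lt_card.1 hcon
  have key : ∀ i ∈ S, (1 - β ^ (i + a)) * (1 - β ^ h * β ^ (i + a)) = α ^ (σ + 2 * b) := by
    intro i hi
    obtain ⟨h1, h2, h3⟩ := hS i hi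
    have e1 := G.eq' h1
    have e2 := G.eq' h2
    have e3 : β ^ (i + h + a) = β ^ h * β ^ (i + a) := by
      rw [← zpow_add₀ G.oβ.1]; congr 1; ring
    rw [← e3, ← e1, ← e2, ← zpow_add₀ G.oα.1, G.oα.eq_iff]
    convert h3 using 1; ring
  have hne : ∀ i ∈ S, ∀ j ∈ S, i ≠ j → β ^ (i + a) ≠ β ^ (j + a) := by
    intro i hi j hj hij h
    rw [G.oβ.eq_iff] at h
    have := eq_zero_of_dvd_of_lt h (by linarith [hd j hj i hi]) (by linarith [hd i hi j hj])
    omega
  have ki := key i hi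
  have kj := key j hj
  have kk := key k hk
  have nij := hne i hi j hj hij
  have nik := hne i hi k hk hik
  have njk := hne j hj k hk hjk
  have hη : β ^ h ≠ 0 := zpow_ne_zero _ G.oβ.1
  set η := β ^ h
  set x := β ^ (i + a)
  set y := β ^ (j + a)
  set z := β ^ (k + a)
  have h1 : (x - y) * (η * (x + y) - (1 + η)) = 0 := by linear_combination ki - kj
  have h2 : (x - z) * (η * (x + z) - (1 + η)) = 0 := by linear_combination ki - kk
  have h1' := (mul_eq_zero.1 h1).resolve_left (sub_ne_zero.2 nij)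
  have h2' := (mul_eq_zero.1 h2).resolve_left (sub_ne_zero.2 nik)
  have h3 : η * (y - z) = 0 := by linear_combination h1' - h2'
  rcases mul_eq_zero.1 h3 with h4 | h4
  · exact hη h4
  · exact njk (by linear_combination h4)

end

end Pool.Agent.Helper60.Costas
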