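import Pool.Agent.Helper60.Costas.Defs
import Pool.Agent.Helper60.Costas.Core

/-!
Conversion of the methods into structures used in `Core`.
-/

namespace Pool.Agent.Helper60.Costas

/-- extension to the integers -/
def fz (f : ℕ → ℕ) : ℤ → ℤ := fun i => (f i.toNat : ℤ)

@[simp] theorem fz_natCast (f : ℕ → ℕ) (i : ℕ) : fz f (i : ℤ) = f i := by
  simp [fz]

/-- mutually inverse permutations of `[1,n]` -/
structure IsPerm (n : ℤ) (f g : ℤ → ℤ) : Prop where
  f1 : ∀ i, 1 ≤ i → i ≤ n → 1 ≤ f i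
  f2 : ∀ i, 1 ≤ i → i ≤ n → f i ≤ n
  fg : ∀ i, 1 ≤ i → i ≤ n → g (f i) = i
  g1 : ∀ i, 1 ≤ i → i ≤ n → 1 ≤ g i
  g2 : ∀ i, 1 ≤ i → i ≤ n → g i ≤ n
  gf : ∀ i, 1 ≤ i → i ≤ n → f (g i) = i

theorem IsPerm.symm {n : ℤ} {f g : ℤ → ℤ} (h : IsPerm n f g) : IsPerm n g f :=
  ⟨h.g1, h.g2, h.gf, h.f1, h.f2, h.fg⟩

theorem IsCostas.exists_perm {n : ℕ} {f : ℕ → ℕ} (h : IsCostas n f) :
    ∃ g : ℕ → ℕ, IsPerm n (fz f) (fz g) := by
  have hb := h.1
  refine ⟨Function.invFunOn f (Set.Icc 1 n), ?_⟩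
  have hl := hb.invOn_invFunOn.1
  have hr := hb.invOn_invFunOn.2
  have hm : Set.MapsTo (Function.invFunOn f (Set.Icc 1 n)) (Set.Icc 1 n) (Set.Icc 1 n) :=
    hb.surjOn.mapsTo_invFunOn
  have hf := hb.mapsTo
  have key : ∀ i : ℤ, 1 ≤ i → i ≤ n → ∃ k : ℕ, i = k ∧ k ∈ Set.Icc 1 n := by
    intro i h1 h2
    refine ⟨i.toNat, by omega, ?_⟩
    simp only [Set.mem_Icc]; omega
  constructor
  · intro i h1 h2
    obtain ⟨k, rfl, hk⟩ := key i h1 h2
    have := (hf hk).1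
    simp; omega
  · intro i h1 h2
    obtain ⟨k, rfl, hk⟩ := key i h1 h2
    have := (hf hk).2
    simp; omega
  · intro i h1 h2
    obtain ⟨k, rfl, hk⟩ := key i h1 h2
    have := hl hk
    simp only [fz_natCast]
    exact_mod_cast this
  · intro i h1 h2
    obtain ⟨k, rfl, hk⟩ := key i h1 h2
    have := (hm hk).1
    simp; omega
  · intro i h1 h2
    obtain ⟨k, rfl, hk⟩ := key i h1 h2
    have := (hm hk).2
    simp; omega
  · intro i h1 h2
    obtain ⟨k, rfl, hk⟩ := key i h1 h2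
    have := hr hk
    simp only [fz_natCast]
    exact_mod_cast this

/-- distinct differences for the integer extension -/
theorem IsCostas.diff {n : ℕ} {f : ℕ → ℕ} (h : IsCostas n f) {i k d : ℤ} (hi : 1 ≤ i)
    (hk : 1 ≤ k) (hd : 1 ≤ d) (hi' : i + d ≤ n) (hk' : k + d ≤ n)
    (he : fz f (i + d) - fz f i = fz f (k + d) - fz f k) : i = k := by
  obtain ⟨i, rfl⟩ := Int.eq_ofNat_of_zero_le (by omega : 0 ≤ i)
  obtain ⟨k, rfl⟩ := Int.eq_ofNat_of_zero_le (by omega : 0 ≤ k)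
  obtain ⟨d, rfl⟩ := Int.eq_ofNat_of_zero_le (by omega : 0 ≤ d)
  have e1 : fz f ((i : ℤ) + d) = f (i + d) := by
    have : ((i : ℤ) + d) = ((i + d : ℕ) : ℤ) := by push_cast; ring
    rw [this, fz_natCast]
  have e2 : fz f ((k : ℤ) + d) = f (k + d) := by
    have : ((k : ℤ) + d) = ((k + d : ℕ) : ℤ) := by push_cast; ring
    rw [this, fz_natCast]
  rw [e1, e2, fz_natCast, fz_natCast] at he
  have := h.2 (i + d) i (k + d) k (by omega) (by omega) (by omega) (by omega) (by omega)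
    (by omega) (by push_cast; ring) he
  have := this.2
  omega

/-- transposition of a Golomb structure -/
theorem GS.transpose {F : Type} [Field F] {n : ℤ} {f g : ℤ → ℤ} {N a b : ℤ} {α β : F}
    {E : ℤ → Prop} (G : GS n f N a b α β E) (hp : IsPerm n f g) :
    GS n g N b a β α (fun j => E (g j)) := by
  refine ⟨G.oβ, G.oα, ?_⟩
  intro j h1 h2 hE
  have := G.eq (g j) (hp.g1 j h1 h2) (hp.g2 j h1 h2) hE
  rw [hp.gf j h1 h2] at this
  rw [add_comm]; exact this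

theorem GS.mono {F : Type} [Field F] {n : ℤ} {f : ℤ → ℤ} {N a b : ℤ} {α β : F}
    {E E' : ℤ → Prop} (G : GS n f N a b α β E) (h : ∀ i, 1 ≤ i → i ≤ n → E i → E' i) :
    GS n f N a b α β E' :=
  ⟨G.oα, G.oβ, fun i h1 h2 h3 => G.eq i h1 h2 (fun h4 => h3 (h i h1 h2 h4))⟩

theorem IsPrimitive.hasOrd {F : Type} [Field F] [Fintype F] {α : F} (h : IsPrimitive α) :
    HasOrd α ((Fintype.card F : ℤ) - 1) := by
  classical
  refine ⟨h.1, ?_⟩
  intro k
  set u : Fˣ := Units.mk0 α h.1 with hu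
  have hgen : ∀ x : Fˣ, x ∈ Subgroup.zpowers u := by
    intro x
    obtain ⟨k, hk⟩ := h.2 (x : F) x.ne_zero
    refine ⟨(k : ℤ), ?_⟩
    ext
    simp [hu, hk]
  have hord : orderOf u = Fintype.card Fˣ := by
    have := orderOf_eq_card_of_forall_mem_zpowers hgen
    rw [this, Nat.card_eq_fintype_card]
  rw [Fintype.card_units] at hord
  have h1 : 1 ≤ Fintype.card F := Fintype.card_pos
  have h2 : ((Fintype.card F : ℤ) - 1) = ((orderOf u : ℕ) : ℤ) := by
    rw [hord]; push_cast [h1]; ring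
  rw [h2, orderOf_dvd_iff_zpow_eq_one]
  constructor
  · intro h3
    ext
    simp [hu, h3]
  · intro h3
    have := congrArg (fun x : Fˣ => (x : F)) h3
    simpa [hu] using this

end Pool.Agent.Helper60.Costas
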