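import Pool.Agent.Helper60.Costas.Final

/-!
Converse direction at `n = 7`: the four exceptional permutations are Costas and are produced by
both `G_2` (over the field with 9 elements) and `RG_1` (over the field with 8 elements).
-/

namespace Pool.Agent.Helper60.Costas

set_option maxRecDepth 100000

variable {f : ℕ → ℕ}

/-- decidable form of `IsPrimitive` -/
def primb (K : Type) [Field K] [Fintype K] [DecidableEq K] (m : ℕ) (a : K) : Prop :=
  a ≠ 0 ∧ ∀ x : K, x ≠ 0 → ∃ k ∈ List.range (m + 1), a ^ k = x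

instance (K : Type) [Field K] [Fintype K] [DecidableEq K] (m : ℕ) (a : K) :
    Decidable (primb K m a) := by
  unfold primb; infer_instance

theorem primb.prim {K : Type} [Field K] [Fintype K] [DecidableEq K] {m : ℕ} {a : K}
    (h : primb K m a) : IsPrimitive a :=
  ⟨h.1, fun x hx => by
    obtain ⟨k, -, hk⟩ := h.2 x hx
    exact ⟨k, hk⟩⟩

/-- decidable form of `IsG2` for a list -/
def g2b (K : Type) [Field K] [Fintype K] [DecidableEq K] (m : ℕ) (a b : K) (L : List ℕ) : Prop :=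
  primb K m a ∧ primb K m b ∧ ∀ i < m, 1 ≤ L.getD i 0 ∧ L.getD i 0 ≤ m ∧
    a ^ (L.getD i 0) + b ^ (i + 1) = 1

instance (K : Type) [Field K] [Fintype K] [DecidableEq K] (m : ℕ) (a b : K) (L : List ℕ) :
    Decidable (g2b K m a b L) := by
  unfold g2b; infer_instance

theorem g2b.isG2 {K : Type} [Field K] [Fintype K] [DecidableEq K] {m : ℕ} {a b : K}
    {L : List ℕ} (h : g2b K m a b L) (hc : Fintype.card K = m + 2) {g : ℕ → ℕ}
    (hg : ∀ i < m, g (i + 1) = L.getD i 0) : IsG2 K a b g := by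
  refine ⟨h.1.prim, h.2.1.prim, ?_⟩
  intro i h1 h2
  obtain ⟨k, rfl⟩ := Nat.exists_eq_add_of_le' h1
  obtain ⟨h3, h4, h5⟩ := h.2.2 k (by omega)
  rw [hg k (by omega)]
  exact ⟨h3, by omega, h5⟩

theorem vec_getD {L : List ℕ} (h : vec 7 f = L) (i : ℕ) (hi : i < 7) :
    f (i + 1) = L.getD i 0 := by
  subst h
  unfold vec
  rw [List.getD_eq_getElem _ _ (by simpa using hi)]
  simp

/-- decidable form of the Costas property for a list -/
def costasb (L : List ℕ) : Prop :=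
  (∀ i < 7, 1 ≤ L.getD i 0 ∧ L.getD i 0 ≤ 7) ∧
  (∀ j < 7, ∃ i ∈ List.range 7, L.getD i 0 = j + 1) ∧
  (∀ i < 7, ∀ j < 7, L.getD i 0 = L.getD j 0 → i = j) ∧
  (∀ j ∈ List.range 7, ∀ i ∈ List.range 7, ∀ l ∈ List.range 7, ∀ k ∈ List.range 7,
    (j < i ∧ l < k ∧ i + l = k + j ∧
    L.getD i 0 + L.getD l 0 = L.getD k 0 + L.getD j 0) → (i = k ∧ j = l))

instance (L : List ℕ) : Decidable (costasb L) := by unfold costasb; infer_instance

theorem costasb.costas {L : List ℕ} (h : costasb L) (hL : vec 7 f = L) : IsCostas 7 f := by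
  obtain ⟨h1, h2, h3, h4⟩ := h
  have hg := vec_getD hL
  refine ⟨⟨?_, ?_, ?_⟩, ?_⟩
  · intro i hi
    rw [Set.mem_Icc] at hi ⊢
    obtain ⟨k, rfl⟩ := Nat.exists_eq_add_of_le' hi.1
    rw [hg k (by omega)]
    exact h1 k (by omega)
  · intro i hi j hj hij
    rw [Set.mem_Icc] at hi hj
    obtain ⟨k, rfl⟩ := Nat.exists_eq_add_of_le' hi.1
    obtain ⟨l, rfl⟩ := Nat.exists_eq_add_of_le' hj.1
    rw [hg k (by omega), hg l (by omega)] at hij
    rw [h3 k (by omega) l (by omega) hij]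
  · intro j hj
    rw [Set.mem_Icc] at hj
    obtain ⟨l, rfl⟩ := Nat.exists_eq_add_of_le' hj.1
    obtain ⟨i, hi, hi2⟩ := h2 l (by omega)
    rw [List.mem_range] at hi
    refine ⟨i + 1, ?_, ?_⟩
    · rw [Set.mem_Icc]; omega
    · rw [hg i hi, hi2]
  · intro i j k l a1 a2 a3 a4 a5 a6 a7 a8
    obtain ⟨j, rfl⟩ := Nat.exists_eq_add_of_le' a1
    obtain ⟨l, rfl⟩ := Nat.exists_eq_add_of_le' a4
    obtain ⟨i, rfl⟩ := Nat.exists_eq_add_of_le' (show 1 ≤ i by omega)
    obtain ⟨k, rfl⟩ := Nat.exists_eq_add_of_le' (show 1 ≤ k by omega)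
    rw [hg i (by omega), hg j (by omega), hg k (by omega), hg l (by omega)] at a8
    have := h4 j (by rw [List.mem_range]; omega) i (by rw [List.mem_range]; omega)
      l (by rw [List.mem_range]; omega) k (by rw [List.mem_range]; omega)
      ⟨by omega, by omega, by omega, by omega⟩
    omega

/-- list with `RG_1` parameters -/
def rgb (L G : List ℕ) : Prop :=
  L.getD 3 0 = 4 ∧ ∀ i < 7, i ≠ 3 →
    (L.getD i 0 : ℤ) = ((G.getD (((((i : ℕ) + 1 : ℤ) - 4 - 1) % 7).toNat) 0 : ℤ) + 4 - 1) % 7 + 1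

instance (L G : List ℕ) : Decidable (rgb L G) := by unfold rgb; infer_instance

theorem rgb.produces {L G : List ℕ} (h : rgb L G) (hL : vec 7 f = L) {a b : K8}
    (hG : g2b K8 6 a b G) : Produces .RG1 7 f := by
  have hg := vec_getD hL
  have hc : Fintype.card K8 = 8 := card_K8
  refine ⟨K8, inferInstance, inferInstance, a, b, fun i => G.getD (i - 1) 0, 4, 4,
    hG.isG2 (by rw [hc]) (fun i _ => by simp), by omega, by rw [hc]; omega, by omega,
    by rw [hc]; omega, by rw [hc], ?_, ?_⟩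
  · have := hg 3 (by omega)
    rw [this, h.1]
  · intro i hi hne
    rw [Set.mem_Icc] at hi
    obtain ⟨k, rfl⟩ := Nat.exists_eq_add_of_le' hi.1
    have h2 := h.2 k (by omega) (by omega)
    rw [hg k (by omega), h2, hc]
    push_cast
    norm_num

theorem g2_produces {L : List ℕ} (hL : vec 7 f = L) {a b : K9} (hG : g2b K9 7 a b L) :
    Produces .G2 7 f := by
  have hc : Fintype.card K9 = 9 := card_K9
  exact ⟨K9, inferInstance, inferInstance, a, b, hG.isG2 (by rw [hc]) (fun i hi => vec_getD hL i hi),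
    by rw [hc]⟩

theorem four_costas : ∀ L ∈ four, costasb L := by decide +kernel

theorem four_g2 : ∀ L ∈ four, ∃ a b : K9, g2b K9 7 a b L := by decide +kernel

theorem four_rg : ∀ L ∈ four, ∃ G ∈ T8, rgb L G ∧ ∃ a b : K8, g2b K8 6 a b G := by
  decide +kernel

theorem converse (h : vec 7 f ∈ four) :
    IsCostas 7 f ∧ Produces .G2 7 f ∧ Produces .RG1 7 f := by
  refine ⟨(four_costas _ h).costas rfl, ?_, ?_⟩
  · obtain ⟨a, b, h1⟩ := four_g2 _ h
    exact g2_produces rfl h1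
  · obtain ⟨G, -, h1, a, b, h2⟩ := four_rg _ h
    exact h1.produces rfl h2

theorem classification {n : ℕ} (hn : 5 < n) {M M' : Method} (hne : M ≠ M') :
    (IsCostas n f ∧ Produces M n f ∧ Produces M' n f) ↔
      (n = 7 ∧ ((M = .G2 ∧ M' = .RG1) ∨ (M = .RG1 ∧ M' = .G2)) ∧ vec 7 f ∈ four) := by
  constructor
  · rintro ⟨h1, h2, h3⟩
    exact forward hn h1 hne h2 h3
  · rintro ⟨rfl, h1, h2⟩
    obtain ⟨h3, h4, h5⟩ := converse h2
    rcases h1 with ⟨rfl, rfl⟩ | ⟨rfl, rfl⟩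
    · exact ⟨h3, h4, h5⟩
    · exact ⟨h3, h5, h4⟩

end Pool.Agent.Helper60.Costas
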