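import Mathlib

/-!
Definitions for the fourteen algebraic construction methods of Costas permutations.
A permutation of `[n] = {1, …, n}` is modelled by a function `f : ℕ → ℕ`, of which only the
values on `[n]` matter.
-/

namespace Pool.Agent.Helper60.Costas

/-- `IsCostas n f`: the function `f` restricts to a Costas permutation of `[n] = {1, …, n}`:
it is a bijection of `[n]`, and the vectors `(i - j, f i - f j)`, `1 ≤ j < i ≤ n`, are pairwise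
distinct. -/
def IsCostas (n : ℕ) (f : ℕ → ℕ) : Prop :=
  Set.BijOn f (Set.Icc 1 n) (Set.Icc 1 n) ∧
    ∀ i j k l : ℕ, 1 ≤ j → j < i → i ≤ n → 1 ≤ l → l < k → k ≤ n →
      (i : ℤ) - j = (k : ℤ) - l → (f i : ℤ) - f j = (f k : ℤ) - f l → i = k ∧ j = l

/-- `α` is a primitive element: it is nonzero and every nonzero element is a power of it. -/
def IsPrimitive {F : Type} [MonoidWithZero F] (α : F) : Prop :=
  α ≠ 0 ∧ ∀ x : F, x ≠ 0 → ∃ k : ℕ, α ^ k = x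

/-- The permutation `W_1^exp(p, α, c)` of `[p-1]`: `i ↦` the residue of `α^(i-1+c)`. -/
def w1exp (p : ℕ) (α : ZMod p) (c i : ℕ) : ℕ := (α ^ (i - 1 + c)).val

/-- `IsG2 F α β g`: `α, β` are primitive elements of the finite field `F` with `q` elements and
`g` is (on `[q-2]`) the permutation `G_2(q, α, β)` of `[q-2]`, i.e. `α^(g i) + β^i = 1`. -/
def IsG2 (F : Type) [Field F] [Fintype F] (α β : F) (g : ℕ → ℕ) : Prop :=
  IsPrimitive α ∧ IsPrimitive β ∧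
    ∀ i, 1 ≤ i → i ≤ Fintype.card F - 2 →
      1 ≤ g i ∧ g i ≤ Fintype.card F - 2 ∧ α ^ (g i) + β ^ i = 1

/-- The fourteen construction methods. `G4s`, `G4ss`, `G5s` stand for `G_4^*`, `G_4^**`,
`G_5^*`. -/
inductive Method
  | W0 | W1 | W2 | W3 | RW0 | G0 | G1 | G2 | G3 | G4 | G4s | G4ss | G5s | RG1
  deriving DecidableEq

/-- `Produces M n f`: for some admissible parameters, the construction `M` gives a permutation of
order `n` that agrees with `f` on `[n]`. (For `W_0, RW_0, G_0, G_1, RG_1` the further requirement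
that the result be Costas is imposed separately, through `IsCostas n f`.) -/
def Produces : Method → ℕ → (ℕ → ℕ) → Prop
  | .W1, n, f => ∃ (p : ℕ) (α : ZMod p) (c : ℕ), p.Prime ∧ IsPrimitive α ∧ c ≤ p - 2 ∧
      n = p - 1 ∧ ((∀ i ∈ Set.Icc 1 n, f i = w1exp p α c i) ∨
        (∀ i ∈ Set.Icc 1 n, f (w1exp p α c i) = i))
  | .W2, n, f => ∃ (p : ℕ) (α : ZMod p), p.Prime ∧ IsPrimitive α ∧ n = p - 2 ∧
      ∀ i ∈ Set.Icc 1 n, (f i : ℤ) = w1exp p α 0 (i + 1) - 1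
  | .W3, n, f => ∃ (p : ℕ), p.Prime ∧ IsPrimitive (2 : ZMod p) ∧ n = p - 3 ∧
      ∀ i ∈ Set.Icc 1 n, (f i : ℤ) = w1exp p 2 0 (i + 2) - 2
  | .W0, n, f => ∃ (p : ℕ) (α : ZMod p) (c : ℕ), p.Prime ∧ IsPrimitive α ∧ c ≤ p - 2 ∧
      n = p ∧ f 1 = 1 ∧ ∀ i ∈ Set.Icc 2 p, f i = w1exp p α c (i - 1) + 1
  | .RW0, n, f => ∃ (p : ℕ) (α : ZMod p) (c t : ℕ), p.Prime ∧ IsPrimitive α ∧ c ≤ p - 2 ∧
      2 ≤ t ∧ t ≤ p - 1 ∧ n = p ∧
      (∀ i ∈ Set.Icc 1 (p - 1), (f i : ℤ) = ((w1exp p α c i : ℤ) + t - 1) % p + 1) ∧ f p = t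
  | .G2, n, f => ∃ (F : Type) (_ : Field F) (_ : Fintype F) (α β : F), IsG2 F α β f ∧
      n = Fintype.card F - 2
  | .G3, n, f => ∃ (F : Type) (_ : Field F) (_ : Fintype F) (α β : F) (g : ℕ → ℕ),
      IsG2 F α β g ∧ α + β = 1 ∧ n = Fintype.card F - 3 ∧
      ∀ i ∈ Set.Icc 1 n, (f i : ℤ) = g (i + 1) - 1
  | .G4, n, f => ∃ (F : Type) (_ : Field F) (_ : Fintype F) (α β : F) (g : ℕ → ℕ),
      IsG2 F α β g ∧ CharP F 2 ∧ α + β = 1 ∧ n = Fintype.card F - 4 ∧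
      ∀ i ∈ Set.Icc 1 n, (f i : ℤ) = g (i + 2) - 2
  | .G4s, n, f => ∃ (F : Type) (_ : Field F) (_ : Fintype F) (α β : F) (g : ℕ → ℕ),
      IsG2 F α β g ∧ ¬ CharP F 2 ∧ α + β = 1 ∧ α ^ 2 + β⁻¹ = 1 ∧ n = Fintype.card F - 4 ∧
      ∀ i ∈ Set.Icc 1 n, (f i : ℤ) = g (i + 2) - 1
  | .G4ss, n, f => ∃ (F : Type) (_ : Field F) (_ : Fintype F) (α β : F) (g : ℕ → ℕ),
      IsG2 F α β g ∧ ¬ CharP F 2 ∧ β = α ∧ α + α ^ 2 = 1 ∧ n = Fintype.card F - 4 ∧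
      ∀ i ∈ Set.Icc 1 n, (f i : ℤ) = g (i + 2) - 2
  | .G5s, n, f => ∃ (F : Type) (_ : Field F) (_ : Fintype F) (α β : F) (g : ℕ → ℕ),
      IsG2 F α β g ∧ α + β = 1 ∧ α ^ 2 + β⁻¹ = 1 ∧ n = Fintype.card F - 5 ∧
      ((∀ i ∈ Set.Icc 1 n, (f i : ℤ) = g (i + 2) - 2) ∨
        (∀ i ∈ Set.Icc 1 n, (f i : ℤ) = g (i + 3) - 3))
  | .G1, n, f => ∃ (F : Type) (_ : Field F) (_ : Fintype F) (α β : F) (g : ℕ → ℕ),
      IsG2 F α β g ∧ n = Fintype.card F - 1 ∧ f 1 = 1 ∧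
      ∀ i ∈ Set.Icc 2 n, f i = g (i - 1) + 1
  | .G0, n, f => ∃ (F : Type) (_ : Field F) (_ : Fintype F) (α β : F) (g : ℕ → ℕ),
      IsG2 F α β g ∧ n = Fintype.card F ∧ f 1 = 1 ∧
      (∀ i ∈ Set.Icc 2 (n - 1), f i = g (i - 1) + 1) ∧ f n = n
  | .RG1, n, f => ∃ (F : Type) (_ : Field F) (_ : Fintype F) (α β : F) (g : ℕ → ℕ)
      (t₁ t₂ : ℕ), IsG2 F α β g ∧ 2 ≤ t₁ ∧ t₁ ≤ Fintype.card F - 2 ∧ 2 ≤ t₂ ∧
      t₂ ≤ Fintype.card F - 2 ∧ n = Fintype.card F - 1 ∧ f t₁ = t₂ ∧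
      ∀ i ∈ Set.Icc 1 n, i ≠ t₁ →
        (f i : ℤ) = ((g ((((i : ℤ) - t₁ - 1) % ((Fintype.card F : ℤ) - 1)).toNat + 1) : ℤ)
          + t₂ - 1) % ((Fintype.card F : ℤ) - 1) + 1

end Pool.Agent.Helper60.Costas
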