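import Mathlib

/-!
Explicit models of the fields with 8 and 9 elements.
-/

namespace Pool.Agent.Helper60.Costas

/-- the field with 8 elements (bit vectors, modulus x^3 + x + 1) -/
def K8 : Type := Fin 8

instance : DecidableEq K8 := inferInstanceAs (DecidableEq (Fin 8))
instance : Fintype K8 := inferInstanceAs (Fintype (Fin 8))

def add8 : Fin 8 → Fin 8 → Fin 8 :=
  ![![0, 1, 2, 3, 4, 5, 6, 7],
    ![1, 0, 3, 2, 5, 4, 7, 6],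
    ![2, 3, 0, 1, 6, 7, 4, 5],
    ![3, 2, 1, 0, 7, 6, 5, 4],
    ![4, 5, 6, 7, 0, 1, 2, 3],
    ![5, 4, 7, 6, 1, 0, 3, 2],
    ![6, 7, 4, 5, 2, 3, 0, 1],
    ![7, 6, 5, 4, 3, 2, 1, 0]]

def mul8 : Fin 8 → Fin 8 → Fin 8 :=
  ![![0, 0, 0, 0, 0, 0, 0, 0],
    ![0, 1, 2, 3, 4, 5, 6, 7],
    ![0, 2, 4, 6, 3, 1, 7, 5],
    ![0, 3, 6, 5, 7, 4, 1, 2],
    ![0, 4, 3, 7, 6, 2, 5, 1],
    ![0, 5, 1, 4, 2, 7, 3, 6],
    ![0, 6, 7, 1, 5, 3, 2, 4],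
    ![0, 7, 5, 2, 1, 6, 4, 3]]

def inv8 : Fin 8 → Fin 8 := ![0, 1, 5, 6, 7, 2, 3, 4]

instance : Add K8 := ⟨add8⟩
instance : Mul K8 := ⟨mul8⟩
instance : Neg K8 := ⟨fun a => a⟩
instance : Inv K8 := ⟨inv8⟩
instance : Zero K8 := ⟨(0 : Fin 8)⟩
instance : One K8 := ⟨(1 : Fin 8)⟩

set_option maxRecDepth 100000 in
instance : Field K8 :=
  Field.ofMinimalAxioms K8 (by decide +kernel) (by decide +kernel) (by decide +kernel)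
    (by decide +kernel) (by decide +kernel) (by decide +kernel) (by decide +kernel)
    (by decide +kernel) (by decide +kernel) (by decide +kernel)

/-- the field with 9 elements (a + 3 b stands for a + b i, i^2 = -1) -/
def K9 : Type := Fin 9

instance : DecidableEq K9 := inferInstanceAs (DecidableEq (Fin 9))
instance : Fintype K9 := inferInstanceAs (Fintype (Fin 9))

def add9 : Fin 9 → Fin 9 → Fin 9 :=
  ![![0, 1, 2, 3, 4, 5, 6, 7, 8],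
    ![1, 2, 0, 4, 5, 3, 7, 8, 6],
    ![2, 0, 1, 5, 3, 4, 8, 6, 7],
    ![3, 4, 5, 6, 7, 8, 0, 1, 2],
    ![4, 5, 3, 7, 8, 6, 1, 2, 0],
    ![5, 3, 4, 8, 6, 7, 2, 0, 1],
    ![6, 7, 8, 0, 1, 2, 3, 4, 5],
    ![7, 8, 6, 1, 2, 0, 4, 5, 3],
    ![8, 6, 7, 2, 0, 1, 5, 3, 4]]

def mul9 : Fin 9 → Fin 9 → Fin 9 :=
  ![![0, 0, 0, 0, 0, 0, 0, 0, 0],
    ![0, 1, 2, 3, 4, 5, 6, 7, 8],
    ![0, 2, 1, 6, 8, 7, 3, 5, 4],
    ![0, 3, 6, 2, 5, 8, 1, 4, 7],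
    ![0, 4, 8, 5, 6, 1, 7, 2, 3],
    ![0, 5, 7, 8, 1, 3, 4, 6, 2],
    ![0, 6, 3, 1, 7, 4, 2, 8, 5],
    ![0, 7, 5, 4, 2, 6, 8, 3, 1],
    ![0, 8, 4, 7, 3, 2, 5, 1, 6]]

def neg9 : Fin 9 → Fin 9 := ![0, 2, 1, 6, 8, 7, 3, 5, 4]

def inv9 : Fin 9 → Fin 9 := ![0, 1, 2, 6, 5, 4, 3, 8, 7]

instance : Add K9 := ⟨add9⟩
instance : Mul K9 := ⟨mul9⟩
instance : Neg K9 := ⟨neg9⟩
instance : Inv K9 := ⟨inv9⟩
instance : Zero K9 := ⟨(0 : Fin 9)⟩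
instance : One K9 := ⟨(1 : Fin 9)⟩

set_option maxRecDepth 100000 in
instance : Field K9 :=
  Field.ofMinimalAxioms K9 (by decide +kernel) (by decide +kernel) (by decide +kernel)
    (by decide +kernel) (by decide +kernel) (by decide +kernel) (by decide +kernel)
    (by decide +kernel) (by decide +kernel) (by decide +kernel)

theorem card_K8 : Fintype.card K8 = 8 := rfl
theorem card_K9 : Fintype.card K9 = 9 := rfl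

/-- the field with 16 elements (bit vectors, modulus x^4 + x + 1) -/
def K16 : Type := Fin 16

instance : DecidableEq K16 := inferInstanceAs (DecidableEq (Fin 16))
instance : Fintype K16 := inferInstanceAs (Fintype (Fin 16))

def add16 : Fin 16 → Fin 16 → Fin 16 :=
  ![![0, 1, 2, 3, 4, 5, 6, 7, 8, 9, 10, 11, 12, 13, 14, 15],
    ![1, 0, 3, 2, 5, 4, 7, 6, 9, 8, 11, 10, 13, 12, 15, 14],
    ![2, 3, 0, 1, 6, 7, 4, 5, 10, 11, 8, 9, 14, 15, 12, 13],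
    ![3, 2, 1, 0, 7, 6, 5, 4, 11, 10, 9, 8, 15, 14, 13, 12],
    ![4, 5, 6, 7, 0, 1, 2, 3, 12, 13, 14, 15, 8, 9, 10, 11],
    ![5, 4, 7, 6, 1, 0, 3, 2, 13, 12, 15, 14, 9, 8, 11, 10],
    ![6, 7, 4, 5, 2, 3, 0, 1, 14, 15, 12, 13, 10, 11, 8, 9],
    ![7, 6, 5, 4, 3, 2, 1, 0, 15, 14, 13, 12, 11, 10, 9, 8],
    ![8, 9, 10, 11, 12, 13, 14, 15, 0, 1, 2, 3, 4, 5, 6, 7],
    ![9, 8, 11, 10, 13, 12, 15, 14, 1, 0, 3, 2, 5, 4, 7, 6],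
    ![10, 11, 8, 9, 14, 15, 12, 13, 2, 3, 0, 1, 6, 7, 4, 5],
    ![11, 10, 9, 8, 15, 14, 13, 12, 3, 2, 1, 0, 7, 6, 5, 4],
    ![12, 13, 14, 15, 8, 9, 10, 11, 4, 5, 6, 7, 0, 1, 2, 3],
    ![13, 12, 15, 14, 9, 8, 11, 10, 5, 4, 7, 6, 1, 0, 3, 2],
    ![14, 15, 12, 13, 10, 11, 8, 9, 6, 7, 4, 5, 2, 3, 0, 1],
    ![15, 14, 13, 12, 11, 10, 9, 8, 7, 6, 5, 4, 3, 2, 1, 0]]

def mul16 : Fin 16 → Fin 16 → Fin 16 :=
  ![![0, 0, 0, 0, 0, 0, 0, 0, 0, 0, 0, 0, 0, 0, 0, 0],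
    ![0, 1, 2, 3, 4, 5, 6, 7, 8, 9, 10, 11, 12, 13, 14, 15],
    ![0, 2, 4, 6, 8, 10, 12, 14, 3, 1, 7, 5, 11, 9, 15, 13],
    ![0, 3, 6, 5, 12, 15, 10, 9, 11, 8, 13, 14, 7, 4, 1, 2],
    ![0, 4, 8, 12, 3, 7, 11, 15, 6, 2, 14, 10, 5, 1, 13, 9],
    ![0, 5, 10, 15, 7, 2, 13, 8, 14, 11, 4, 1, 9, 12, 3, 6],
    ![0, 6, 12, 10, 11, 13, 7, 1, 5, 3, 9, 15, 14, 8, 2, 4],
    ![0, 7, 14, 9, 15, 8, 1, 6, 13, 10, 3, 4, 2, 5, 12, 11],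
    ![0, 8, 3, 11, 6, 14, 5, 13, 12, 4, 15, 7, 10, 2, 9, 1],
    ![0, 9, 1, 8, 2, 11, 3, 10, 4, 13, 5, 12, 6, 15, 7, 14],
    ![0, 10, 7, 13, 14, 4, 9, 3, 15, 5, 8, 2, 1, 11, 6, 12],
    ![0, 11, 5, 14, 10, 1, 15, 4, 7, 12, 2, 9, 13, 6, 8, 3],
    ![0, 12, 11, 7, 5, 9, 14, 2, 10, 6, 1, 13, 15, 3, 4, 8],
    ![0, 13, 9, 4, 1, 12, 8, 5, 2, 15, 11, 6, 3, 14, 10, 7],
    ![0, 14, 15, 1, 13, 3, 2, 12, 9, 7, 6, 8, 4, 10, 11, 5],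
    ![0, 15, 13, 2, 9, 6, 4, 11, 1, 14, 12, 3, 8, 7, 5, 10]]

def inv16 : Fin 16 → Fin 16 := ![0, 1, 9, 14, 13, 11, 7, 6, 15, 2, 12, 5, 10, 4, 3, 8]

instance : Add K16 := ⟨add16⟩
instance : Mul K16 := ⟨mul16⟩
instance : Neg K16 := ⟨fun a => a⟩
instance : Inv K16 := ⟨inv16⟩
instance : Zero K16 := ⟨(0 : Fin 16)⟩
instance : One K16 := ⟨(1 : Fin 16)⟩

set_option maxRecDepth 100000 in
instance : Field K16 :=
  Field.ofMinimalAxioms K16 (by decide +kernel) (by decide +kernel) (by decide +kernel)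
    (by decide +kernel) (by decide +kernel) (by decide +kernel) (by decide +kernel)
    (by decide +kernel) (by decide +kernel) (by decide +kernel)

theorem card_K16 : Fintype.card K16 = 16 := rfl

end Pool.Agent.Helper60.Costas
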