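import Pool.Agent.Helper60.Costas.PairsH

/-!
Special pairs: `(G_3, G_5^*)`, `(G_4^*, G_4^{**})`, `(G_1, RG_1)` and the generic part of the
pairs with `RG_1`.
-/

namespace Pool.Agent.Helper60.Costas

theorem gam_bound {n : ℤ} {f : ℤ → ℤ} (hf : ∀ i, 1 ≤ i → i ≤ n → 1 ≤ f i ∧ f i ≤ n)
    {E : ℤ → Prop} {s i : ℤ} (h : Good n E s i) :
    -(2 * (n - 1)) ≤ Gam f s i ∧ Gam f s i ≤ 2 * (n - 1) := by
  obtain ⟨h1, h2, h3, h4⟩ := h
  have e1 := hf _ h1.1 h1.2.1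
  have e2 := hf _ h2.1 h2.2.1
  have e3 := hf _ h3.1 h3.2.1
  have e4 := hf _ h4.1 h4.2.1
  unfold Gam
  constructor <;> linarith

/-- two consecutive integers: a small number divisible by `2k` and `2(k+1)` vanishes -/
theorem zero_of_two_dvd {k d : ℤ} (hk : 3 ≤ k) (h1 : 2 * k ∣ d) (h2 : 2 * (k + 1) ∣ d)
    (h3 : -(8 * k - 4) ≤ d) (h4 : d ≤ 8 * k - 4) : d = 0 := by
  obtain ⟨x, hx⟩ := h1
  obtain ⟨y, hy⟩ := h2
  have e1 : k * x = (k + 1) * y := by linarith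
  have e2 : x = (k + 1) * (x - y) := by linear_combination -e1
  have e3 : d = 2 * k * (k + 1) * (x - y) := by rw [hx, mul_assoc (2 * k), ← e2]
  have hpos : 0 < 2 * k * (k + 1) := by positivity
  have hbig : 8 * k - 4 < 2 * k * (k + 1) := by nlinarith
  rcases lt_trichotomy (x - y) 0 with h | h | h
  · have : 2 * k * (k + 1) * (x - y) ≤ 2 * k * (k + 1) * (-1) :=
      mul_le_mul_of_nonneg_left (by omega) hpos.le
    linarith
  · rw [e3, h, mul_zero]
  · have : 2 * k * (k + 1) * 1 ≤ 2 * k * (k + 1) * (x - y) :=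
      mul_le_mul_of_nonneg_left (by omega) hpos.le
    linarith

section
variable {n : ℕ} {f f' : ℕ → ℕ}

theorem gg_G3_G5s (hn : 6 ≤ n) (hf : IsPerm n (fz f) (fz f'))
    (h1 : Produces .G3 n f) (h2 : Produces .G5s n f) : False := by
  obtain ⟨F, i1, i2, α, β, g, c1, -, -, -, X⟩ := prodG3 (by omega) h1
  obtain ⟨F', j1, j2, α', β', g', c2, -, k1, k2, G⟩ := prodG5s (by omega) hf h2
  have hf' : ∀ i, 1 ≤ i → i ≤ (n : ℤ) → 1 ≤ fz f i ∧ fz f i ≤ n :=
    fun i a b => ⟨hf.f1 i a b, hf.f2 i a b⟩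
  have k4 := G5s_two_ne (by omega) G.oα k1 k2
  rw [Ne, two_iff, c2] at k4
  obtain ⟨m, hm⟩ : ∃ m : ℤ, (n : ℤ) = 2 * m := ⟨n / 2, by omega⟩
  have hα' : α' ^ (m + 2) = -1 := neg_one_of_half G.oα ⟨1, by rw [hm]; ring⟩
    (not_dvd_of (by omega) (by omega))
  have good1 : ∀ i : ℤ, 1 ≤ i → i ≤ 4 → Good n (fun _ => False) n i := by
    intro i h3 h4
    refine ⟨⟨?_, ?_, fun h => h⟩, ⟨?_, ?_, fun h => h⟩, ⟨?_, ?_, fun h => h⟩,
      ⟨?_, ?_, fun h => h⟩⟩ <;> omega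
  have hG : ∀ i : ℤ, 1 ≤ i → i ≤ 4 → 2 * (m + 1 + 1) ∣ Gam (fz f) n i - (m + 3) := by
    intro i h3 h4
    have e1 := G.K2 (good1 i h3 h4) ⟨1, by ring⟩
    have e2 : α' ^ Gam (fz f) n i = α' ^ (m + 3) := by
      have e3 : α' ^ (m + 3) = -α' := by
        rw [show m + 3 = (m + 2) + 1 by ring, zpow_add₀ G.oα.1, hα', zpow_one]; ring
      rw [e3]
      have : α' ^ Gam (fz f) n i * (α' * β') = α' := by linear_combination α' * e1
      rw [k2] at this
      linear_combination -this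
    rw [G.oα.eq_iff] at e2
    convert e2 using 1
    rw [hm]; ring
  have heq : ∀ i : ℤ, 1 ≤ i → i ≤ 4 → Gam (fz f) n i = Gam (fz f) n 1 := by
    intro i h3 h4
    have d1 : 2 * (m + 1) ∣ Gam (fz f) n i - Gam (fz f) n 1 := by
      have e1 := X.K2 (good1 i h3 h4) ⟨1, by ring⟩
      have e2 := X.K2 (good1 1 (by omega) (by omega)) ⟨1, by ring⟩
      have e3 : α ^ Gam (fz f) n i = α ^ Gam (fz f) n 1 :=
        mul_right_cancel₀ X.oβ.1 (e1.trans e2.symm)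
      rw [X.oα.eq_iff] at e3
      convert e3 using 1
      rw [hm]; ring
    have d2 : 2 * (m + 1 + 1) ∣ Gam (fz f) n i - Gam (fz f) n 1 := by
      have := Int.dvd_sub (hG i h3 h4) (hG 1 (by omega) (by omega))
      convert this using 1; ring
    have b1 := gam_bound hf' (good1 i h3 h4)
    have b2 := gam_bound hf' (good1 1 (by omega) (by omega))
    have := zero_of_two_dvd (by omega) d1 d2 (by omega) (by omega)
    omega
  have e2 := heq 2 (by omega) (by omega)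
  have e3 := heq 3 (by omega) (by omega)
  have e4 := heq 4 (by omega) (by omega)
  have hsum : Gam (fz f) n 1 + Gam (fz f) n 2 + Gam (fz f) n 3 + Gam (fz f) n 4 =
      fz f (n - 5) - fz f 5 - fz f (n - 1) + fz f 1 := by
    unfold Gam
    rw [show (n : ℤ) - 1 - 1 = n - 2 by ring, show (n : ℤ) - 2 - 1 = n - 3 by ring,
      show (n : ℤ) - 3 - 1 = n - 4 by ring, show (n : ℤ) - 4 - 1 = n - 5 by ring,
      show (1 : ℤ) + 1 = 2 by norm_num, show (2 : ℤ) + 1 = 3 by norm_num,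
      show (3 : ℤ) + 1 = 4 by norm_num, show (4 : ℤ) + 1 = 5 by norm_num]
    ring
  have b1 := hf' (n - 5) (by omega) (by omega)
  have b2 := hf' 5 (by omega) (by omega)
  have b3 := hf' (n - 1) (by omega) (by omega)
  have b4 := hf' 1 (by omega) (by omega)
  obtain ⟨z, hz⟩ := hG 1 (by omega) (by omega)
  set γ := Gam (fz f) n 1 with hγ
  have hle : γ ≤ m - 1 := by omega
  have hge : -(m - 1) ≤ γ := by omega
  rcases lt_or_ge z 0 with h | h
  · have : 2 * (m + 1 + 1) * z ≤ 2 * (m + 1 + 1) * (-1) :=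
      mul_le_mul_of_nonneg_left (by omega) (by omega)
    linarith
  · have : 0 ≤ 2 * (m + 1 + 1) * z := mul_nonneg (by omega) h
    linarith

theorem gg_G4s_G4ss (hn : 6 ≤ n) (h1 : Produces .G4s n f) (h2 : Produces .G4ss n f) :
    False := by
  obtain ⟨F, i1, i2, α, β, g, c1, -, -, k1, k2, X⟩ := prodG4s (by omega) h1
  obtain ⟨F', j1, j2, α', g', c2, -, -, k3, -, G⟩ := prodG4ss (by omega) h2
  have good1 : Good (n : ℤ) (fun _ => False) (n - 1) 1 := by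
    refine ⟨⟨?_, ?_, fun h => h⟩, ⟨?_, ?_, fun h => h⟩, ⟨?_, ?_, fun h => h⟩,
      ⟨?_, ?_, fun h => h⟩⟩ <;> omega
  have e1 := X.K2 good1 ⟨1, by ring⟩
  have e2 := G.K2 good1 ⟨1, by ring⟩
  have e3 : α' ^ (Gam (fz f) (n - 1) 1 + 1) = 1 := by
    rw [zpow_add₀ G.oα.1, zpow_one]; exact e2
  rw [G.oα.2, ← X.oα.2, zpow_add₀ X.oα.1, zpow_one] at e3
  have e4 : β = α := by
    have h0 : α ^ Gam (fz f) (n - 1) 1 ≠ 0 := zpow_ne_zero _ X.oα.1
    exact mul_left_cancel₀ h0 (e1.trans e3.symm)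
  rw [e4] at k1 k2
  have h4 : α ^ (4 : ℤ) = 1 := by
    have : α ^ (4 : ℤ) = α ^ 4 := by exact_mod_cast rfl
    rw [this]
    linear_combination (α ^ 2 - 1) * k2
  rw [X.oα.2] at h4
  have := Int.le_of_dvd (by norm_num) h4
  omega

theorem gg_G1_RG1 (hn : 9 ≤ n) (h1 : Produces .G1 n f) (h2 : Produces .RG1 n f) :
    False := by
  obtain ⟨F', j1, j2, α', β', g', c2, -, -, -, G⟩ := prodG1 (by omega) h1
  obtain ⟨F, i1, i2, α, β, g, t₁, t₂, c1, -, a1, a2, a3, a4, a5, -, X⟩ := prodRG1 (by omega) h2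
  set t : ℤ := ((t₁ : ℕ) : ℤ) with ht
  have hcong : ∀ i j : ℤ, Good n (fun i => i = 1) (n + 2) i → Good n (fun i => i = 1) (n + 2) j →
      (n : ℤ) ∣ Gam (fz f) (n + 2) i - Gam (fz f) (n + 2) j := by
    intro i j hi hj
    have e1 := G.K2 hi ⟨1, by ring⟩
    have e2 := G.K2 hj ⟨1, by ring⟩
    rw [← G.oα.eq_iff]
    exact mul_right_cancel₀ G.oβ.1 (e1.trans e2.symm)
  have hdiv : (n : ℤ) ∣ n + 2 + 2 * -t := by
    by_contra hcon
    -- pick two classes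
    have hcard : 1 < (Finset.Icc (2 : ℤ) 5 \ {if t ≤ n + 2 - t then t else n + 2 - t,
        (if t ≤ n + 2 - t then t else n + 2 - t) - 1}).card := by
      have h3 := Finset.le_card_sdiff ({if t ≤ n + 2 - t then t else n + 2 - t,
        (if t ≤ n + 2 - t then t else n + 2 - t) - 1} : Finset ℤ) (Finset.Icc (2 : ℤ) 5)
      have h4 := Finset.card_le_two (a := if t ≤ n + 2 - t then t else n + 2 - t)
        (b := (if t ≤ n + 2 - t then t else n + 2 - t) - 1)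
      rw [Int.card_Icc] at h3
      omega
    obtain ⟨i, hi, j, hj, hij⟩ := Finset.one_lt_card.1 hcard
    have hgood : ∀ i ∈ (Finset.Icc (2 : ℤ) 5 \ {if t ≤ n + 2 - t then t else n + 2 - t,
        (if t ≤ n + 2 - t then t else n + 2 - t) - 1}),
        (2 ≤ i ∧ i ≤ 5) ∧ Good n (fun i => i = t) (n + 2) i ∧
          Good n (fun i => i = 1) (n + 2) i := by
      intro i hi
      rw [Finset.mem_sdiff, Finset.mem_Icc, Finset.mem_insert, Finset.mem_singleton] at hi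
      obtain ⟨⟨g1, g2⟩, g3⟩ := hi
      push Not at g3
      have g4 : i ≠ t ∧ i + 1 ≠ t ∧ n + 2 - i ≠ t ∧ n + 2 - i - 1 ≠ t := by
        split_ifs at g3 <;> omega
      exact ⟨⟨g1, g2⟩, ⟨⟨by omega, by omega, g4.1⟩, ⟨by omega, by omega, g4.2.1⟩,
        ⟨by omega, by omega, g4.2.2.1⟩, ⟨by omega, by omega, g4.2.2.2⟩⟩,
        ⟨⟨by omega, by omega, by omega⟩, ⟨by omega, by omega, by omega⟩,
          ⟨by omega, by omega, by omega⟩, ⟨by omega, by omega, by omega⟩⟩⟩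
    obtain ⟨bi, gi, gi'⟩ := hgood i hi
    obtain ⟨bj, gj, gj'⟩ := hgood j hj
    have hc := hcong i j gi' gj'
    rw [← X.oα.eq_iff] at hc
    rcases X.K1 gi gj (not_dvd_of (by omega) (by omega)) hcon hc with h | h
    · have := eq_zero_of_dvd_of_lt h (by omega) (by omega)
      omega
    · have := eq_zero_of_dvd_of_lt h (by omega) (by omega)
      omega
  have h2t : 2 * t = n + 2 := by
    have : (n : ℤ) ∣ 2 * t - 2 - n := by
      have h3 := (Int.dvd_neg.2 hdiv)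
      convert h3 using 1; ring
    have := eq_zero_of_dvd_of_lt this (by omega) (by omega)
    omega
  obtain ⟨m, hm⟩ : ∃ m : ℤ, (n : ℤ) = 2 * m := ⟨n / 2, by omega⟩
  have good1 : Good (n : ℤ) (fun i => i = 1) (n + 2) 2 := by
    refine ⟨⟨?_, ?_, ?_⟩, ⟨?_, ?_, ?_⟩, ⟨?_, ?_, ?_⟩, ⟨?_, ?_, ?_⟩⟩ <;> omega
  have good2 : Good (n : ℤ) (fun i => i = t) (n + 2) 2 := by
    refine ⟨⟨?_, ?_, ?_⟩, ⟨?_, ?_, ?_⟩, ⟨?_, ?_, ?_⟩, ⟨?_, ?_, ?_⟩⟩ <;> omega
  have e1 := G.K2 good1 ⟨1, by ring⟩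
  have e2 := X.K2 good2 hdiv
  have e3 := G.K3 good1.1 good1.2.2.1 ⟨1, by ring⟩
  have e4 := X.K3 good2.1 good2.2.2.1 hdiv
  have m1 : α' ^ m = -1 := neg_one_of_half G.oα ⟨1, by rw [hm]; ring⟩
    (not_dvd_of (by omega) (by omega))
  have m2 : α ^ m = -1 := neg_one_of_half X.oα ⟨1, by rw [hm]; ring⟩
    (not_dvd_of (by omega) (by omega))
  set γ := Gam (fz f) (n + 2) 2 with hγ
  set δ := fz f (n + 2 - 2) - fz f 2 with hδ
  have b1 : β' = α' ^ (-γ) := by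
    rw [zpow_neg]; exact eq_inv_of_mul_eq_one_right e1
  have b2 : β = α ^ (-γ) := by
    rw [zpow_neg]; exact eq_inv_of_mul_eq_one_right e2
  -- first congruence
  have q1 : (n : ℤ) ∣ δ - γ - m := by
    rw [← G.oα.eq_iff, m1, ← e3, b1, ← zpow_mul, ← zpow_add₀ G.oα.1]
    congr 1; ring
  have q2 : (n : ℤ) ∣ δ - γ * (2 - t) - m := by
    rw [← X.oα.eq_iff, m2, ← e4, b2, ← zpow_mul, ← zpow_add₀ X.oα.1]
    congr 1; ring
  have q3 : (n : ℤ) ∣ γ * (1 - t) := by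
    have := Int.dvd_sub q1 q2
    convert this using 1; ring
  have q4 : (n : ℤ) ∣ γ * m := by
    have h5 : 1 - t = -m := by omega
    rw [h5] at q3
    have := Int.dvd_neg.2 q3
    convert this using 1; ring
  have q5 : β ^ m = 1 := by
    rw [b2, ← zpow_mul, X.oα.2]
    have := Int.dvd_neg.2 q4
    convert this using 1; ring
  rw [X.oβ.2] at q5
  exact not_dvd_of (by omega) (by omega) q5

end

end Pool.Agent.Helper60.Costas
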