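import Pool.Agent.Helper60.Costas.Tables

/-!
Pairs with `RG_1` for `9 ≤ n ≤ 15`.
-/

namespace Pool.Agent.Helper60.Costas

/-- integer function given by a list of values on `[1, n]` -/
def lf (L : List ℕ) (i : ℤ) : ℤ := (L.getD (i.toNat - 1) 0 : ℕ)

def goodb (n : ℤ) (t s i : ℤ) : Bool :=
  decide ((1 ≤ i ∧ i ≤ n ∧ i ≠ t) ∧ (1 ≤ i + 1 ∧ i + 1 ≤ n ∧ i + 1 ≠ t) ∧
    (1 ≤ s - i ∧ s - i ≤ n ∧ s - i ≠ t) ∧ (1 ≤ s - i - 1 ∧ s - i - 1 ≤ n ∧ s - i - 1 ≠ t))

def rgBad (n : ℕ) (L : List ℕ) : Bool :=
  (List.range (n - 2)).all (fun k =>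
    [2 * ((k : ℤ) + 2), 2 * ((k : ℤ) + 2) + n, 2 * ((k : ℤ) + 2) - n].any (fun s =>
      [2 * ((k : ℤ) + 2), 2 * ((k : ℤ) + 2) + n, 2 * ((k : ℤ) + 2) - n].any (fun s' =>
        (List.range n).any (fun i => (List.range n).any (fun j =>
          goodb n ((k : ℤ) + 2) s ((i : ℤ) + 1) && goodb n ((k : ℤ) + 2) s' ((j : ℤ) + 1) &&
            decide ((Gam (lf L) s ((i : ℤ) + 1) - Gam (lf L) s' ((j : ℤ) + 1)) % n ≠ 0))))))

theorem fz_eq_lf {n : ℕ} {f : ℕ → ℕ} {i : ℤ} (h1 : 1 ≤ i) (h2 : i ≤ n) :
    fz f i = lf (vec n f) i := by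
  unfold fz lf vec
  have h3 : i.toNat - 1 < ((List.range n).map (fun i => f (i + 1))).length := by
    simp; omega
  rw [List.getD_eq_getElem _ _ h3]
  simp only [List.getElem_map, List.getElem_range]
  congr 2
  omega

theorem rg_excl {n : ℕ} {f f' : ℕ → ℕ} (hn : 5 < n) (hf : IsPerm n (fz f) (fz f'))
    (h : Produces .RG1 n f) (hL : rgBad n (vec n f) = true) : False := by
  obtain ⟨F, i1, i2, α, β, t₁, t₂, c1, R⟩ := prodRG1' hn hf h
  have l1 := R.h1
  have l1' := R.h1'
  unfold rgBad at hL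
  rw [List.all_eq_true] at hL
  obtain ⟨k, hk⟩ := Int.eq_ofNat_of_zero_le (by omega : 0 ≤ t₁ - 2)
  have hk' : (k : ℤ) + 2 = t₁ := by omega
  have h1 := hL k (by rw [List.mem_range]; omega)
  rw [List.any_eq_true] at h1
  obtain ⟨s, hs, h2⟩ := h1
  rw [List.any_eq_true] at h2
  obtain ⟨s', hs', h3⟩ := h2
  rw [List.any_eq_true] at h3
  obtain ⟨i, -, h4⟩ := h3
  rw [List.any_eq_true] at h4
  obtain ⟨j, -, h5⟩ := h4
  rw [Bool.and_eq_true, Bool.and_eq_true, decide_eq_true_eq] at h5
  obtain ⟨⟨g1, g2⟩, g3⟩ := h5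
  rw [hk'] at g1 g2 hs hs'
  unfold goodb at g1 g2
  rw [decide_eq_true_eq] at g1 g2
  have hdvd : ∀ s : ℤ, s ∈ [2 * t₁, 2 * t₁ + n, 2 * t₁ - n] → (n : ℤ) ∣ s + 2 * -t₁ := by
    intro s hs
    simp only [List.mem_cons, List.not_mem_nil, or_false] at hs
    rcases hs with rfl | rfl | rfl
    · exact ⟨0, by ring⟩
    · exact ⟨1, by ring⟩
    · exact ⟨-1, by ring⟩
  have q1 : Good (n : ℤ) (fun i => i = t₁) s ((i : ℤ) + 1) := g1
  have q2 : Good (n : ℤ) (fun i => i = t₁) s' ((j : ℤ) + 1) := g2
  have e1 := R.X.K2 q1 (hdvd s hs)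
  have e2 := R.X.K2 q2 (hdvd s' hs')
  have e3 : (n : ℤ) ∣ Gam (fz f) s ((i : ℤ) + 1) - Gam (fz f) s' ((j : ℤ) + 1) := by
    rw [← R.X.oα.eq_iff]
    exact mul_right_cancel₀ R.X.oβ.1 (e1.trans e2.symm)
  have e4 : ∀ s i : ℤ, Good (n : ℤ) (fun i => i = t₁) s i →
      Gam (fz f) s i = Gam (lf (vec n f)) s i := by
    intro s i hg
    obtain ⟨a1, a2, a3, a4⟩ := hg
    unfold Gam
    rw [fz_eq_lf a1.1 a1.2.1, fz_eq_lf a2.1 a2.2.1, fz_eq_lf a3.1 a3.2.1, fz_eq_lf a4.1 a4.2.1]
  rw [e4 _ _ q1, e4 _ _ q2] at e3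
  exact g3 (Int.emod_eq_zero_of_dvd e3)

section
variable {f f' : ℕ → ℕ}

theorem rg10_G3 (hf : IsPerm (10 : ℕ) (fz f) (fz f'))
    (h1 : Produces .RG1 10 f) (h2 : Produces .G3 10 f) : False := by
  obtain ⟨F, i1, i2, α, β, g, c1, hg, k1, k2, -⟩ := prodG3 (by omega) h2
  have e := (ZMod.ringEquivOfPrime F (p := 13) (by norm_num) c1).symm
  have hm := vec_mem tab13p (by simp) e hg
    (by rw [decide_eq_true_eq, ← map_add, k1, map_one])
  rw [T13p, List.mem_singleton] at hm
  apply rg_excl (by omega) hf h1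
  have hv : vec 10 f = [9, 3, 2, 7, 10, 8, 4, 6, 1, 5] := by
    simp only [vec, List.range, List.range.loop, List.map_cons, List.map_nil,
      List.cons.injEq, and_true] at hm ⊢
    have q : ∀ i ∈ Set.Icc 1 10, (f i : ℤ) = g (i + 1) - 1 := k2
    have q1 := q 1 (by simp)
    have q2 := q 2 (by simp)
    have q3 := q 3 (by simp)
    have q4 := q 4 (by simp)
    have q5 := q 5 (by simp)
    have q6 := q 6 (by simp)
    have q7 := q 7 (by simp)
    have q8 := q 8 (by simp)
    have q9 := q 9 (by simp)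
    have q10 := q 10 (by simp)
    norm_num at q1 q2 q3 q4 q5 q6 q7 q8 q9 q10 hm ⊢
    omega
  rw [hv]
  decide +kernel

theorem rg12_G4 (hf : IsPerm (12 : ℕ) (fz f) (fz f'))
    (h1 : Produces .RG1 12 f) (h2 : Produces .G4 12 f) : False := by
  obtain ⟨F, i1, i2, α, β, g, c1, hg, -, k1, k2, -⟩ := prodG4 (by omega) h2
  have e : F ≃+* K16 := FiniteField.ringEquivOfCardEq (by rw [c1, card_K16])
  have hm := vec_mem tab16p (by rw [card_K16]) e hg
    (by rw [decide_eq_true_eq, ← map_add, k1, map_one])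
  rw [T16p, List.mem_singleton] at hm
  apply rg_excl (by omega) hf h1
  have hv : vec 12 f = [9, 2, 8, 5, 4, 6, 11, 3, 1, 12, 7, 10] := by
    simp only [vec, List.range, List.range.loop, List.map_cons, List.map_nil,
      List.cons.injEq, and_true] at hm ⊢
    have q : ∀ i ∈ Set.Icc 1 12, (f i : ℤ) = g (i + 2) - 2 := k2
    have q1 := q 1 (by simp)
    have q2 := q 2 (by simp)
    have q3 := q 3 (by simp)
    have q4 := q 4 (by simp)
    have q5 := q 5 (by simp)
    have q6 := q 6 (by simp)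
    have q7 := q 7 (by simp)
    have q8 := q 8 (by simp)
    have q9 := q 9 (by simp)
    have q10 := q 10 (by simp)
    have q11 := q 11 (by simp)
    have q12 := q 12 (by simp)
    norm_num at q1 q2 q3 q4 q5 q6 q7 q8 q9 q10 q11 q12 hm ⊢
    omega
  rw [hv]
  decide +kernel

theorem rg15_G4ss (hf : IsPerm (15 : ℕ) (fz f) (fz f'))
    (h1 : Produces .RG1 15 f) (h2 : Produces .G4ss 15 f) : False := by
  obtain ⟨F, i1, i2, α, g, c1, hg, -, k1, k2, -⟩ := prodG4ss (by omega) h2
  have e := (ZMod.ringEquivOfPrime F (p := 19) (by norm_num) c1).symm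
  have hm := vec_mem tab19s (by simp) e hg
    (by rw [decide_eq_true_eq, ← map_pow, ← map_add, k1, map_one]; simp)
  rw [T19s, List.mem_singleton] at hm
  apply rg_excl (by omega) hf h1
  have hv : vec 15 f = [13, 5, 3, 9, 2, 14, 11, 15, 4, 12, 7, 10, 1, 6, 8] := by
    simp only [vec, List.range, List.range.loop, List.map_cons, List.map_nil,
      List.cons.injEq, and_true] at hm ⊢
    have q : ∀ i ∈ Set.Icc 1 15, (f i : ℤ) = g (i + 2) - 2 := k2
    have q1 := q 1 (by simp)
    have q2 := q 2 (by simp)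
    have q3 := q 3 (by simp)
    have q4 := q 4 (by simp)
    have q5 := q 5 (by simp)
    have q6 := q 6 (by simp)
    have q7 := q 7 (by simp)
    have q8 := q 8 (by simp)
    have q9 := q 9 (by simp)
    have q10 := q 10 (by simp)
    have q11 := q 11 (by simp)
    have q12 := q 12 (by simp)
    have q13 := q 13 (by simp)
    have q14 := q 14 (by simp)
    have q15 := q 15 (by simp)
    norm_num at q1 q2 q3 q4 q5 q6 q7 q8 q9 q10 q11 q12 q13 q14 q15 hm ⊢
    omega
  rw [hv]
  decide +kernel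

/-- no `G_4^*` over the field with 19 elements -/
theorem no_G4s_19 {F : Type} [Field F] [Fintype F] (hc : Fintype.card F = 19) {α β : F}
    (hα : HasOrd α 18) (hβ : HasOrd β 18) (h1 : α + β = 1) (h2 : α * β = -1) : False := by
  have e := (ZMod.ringEquivOfPrime F (p := 19) (by norm_num) hc).symm
  have key : ∀ a b : ZMod 19, a + b = 1 → a * b = -1 → a ^ 9 = 1 ∨ b ^ 9 = 1 := by
    decide +kernel
  have h3 := key (e α) (e β) (by rw [← map_add, h1, map_one])
    (by rw [← map_mul, h2, map_neg, map_one])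
  rcases h3 with h3 | h3
  · rw [← map_pow] at h3
    have h4 : α ^ 9 = 1 := by
      have := congrArg e.symm h3
      simpa using this
    have h5 := (hα.2 9).1 (by exact_mod_cast h4)
    omega
  · rw [← map_pow] at h3
    have h4 : β ^ 9 = 1 := by
      have := congrArg e.symm h3
      simpa using this
    have h5 := (hβ.2 9).1 (by exact_mod_cast h4)
    omega

end

section
variable {n : ℕ} {f f' : ℕ → ℕ}

/-- all pairs with `RG_1` for `n ≥ 9` -/
theorem rg_all (hn : 9 ≤ n) (hf : IsPerm n (fz f) (fz f')) (h : Produces .RG1 n f)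
    (h' : Produces .G0 n f ∨ Produces .G1 n f ∨ Produces .G2 n f ∨ Produces .G3 n f ∨
      Produces .G4 n f ∨ Produces .G4s n f ∨ Produces .G4ss n f ∨ Produces .G5s n f) :
    False := by
  obtain ⟨F, i1, i2, α, β, t₁, t₂, c1, R⟩ := prodRG1' (by omega) hf h
  rcases h' with h' | h' | h' | h' | h' | h' | h' | h'
  · by_cases hb : 16 ≤ n
    · exact rg_G0 hb hf h h'
    · obtain ⟨F', j1, j2, α', β', g', c2, -⟩ := prodG0 (by omega) h'
      have hb' : n ≤ 15 := by omega
      interval_cases n
      · exact no_card' (F := F) (by omega)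
      · exact no_card' (F := F') (by omega)
      · exact no_card' (F := F) (by omega)
      · exact no_card' (F := F') (by omega)
      · exact no_card' (F := F) (by omega)
      · exact no_card' (F := F') (by omega)
      · exact no_card' (F := F') (by omega)
  · exact gg_G1_RG1 hn h' h
  · by_cases hb : 14 ≤ n
    · exact rg_G2 hb hf h h'
    · obtain ⟨F', j1, j2, α', β', c2, -⟩ := prodG2 (by omega) h'
      have hb' : n ≤ 13 := by omega
      interval_cases n
      · exact no_card' (F := F) (by omega)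
      · exact no_card' (F := F') (by omega)
      · exact no_card' (F := F) (by omega)
      · exact no_card' (F := F') (by omega)
      · exact no_card' (F := F) (by omega)
  · by_cases hb : 15 ≤ n
    · exact rg_G3 hb hf h h'
    · obtain ⟨F', j1, j2, α', β', g', c2, -⟩ := prodG3 (by omega) h'
      have hb' : n ≤ 14 := by omega
      interval_cases n
      · exact no_card' (F := F) (by omega)
      · exact rg10_G3 hf h h'
      · exact no_card' (F := F) (by omega)
      · exact no_card' (F := F') (by omega)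
      · exact no_card' (F := F) (by omega)
      · exact no_card' (F := F) (by omega)
  · by_cases hb : 16 ≤ n
    · exact rg_G4 hb hf h h'
    · obtain ⟨F', j1, j2, α', β', g', c2, -, k2, -⟩ := prodG4 (by omega) h'
      rw [two_iff] at k2
      have hb' : n ≤ 15 := by omega
      interval_cases n
      · omega
      · exact no_card' (F := F') (by omega)
      · omega
      · exact rg12_G4 hf h h'
      · omega
      · exact no_card' (F := F') (by omega)
      · omega
  · by_cases hb : 16 ≤ n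
    · exact rg_G4s hb hf h h'
    · obtain ⟨F', j1, j2, α', β', g', c2, -, k2, k3, k4, G⟩ := prodG4s (by omega) h'
      rw [Ne, two_iff] at k2
      have hb' : n ≤ 15 := by omega
      interval_cases n
      · exact no_card' (F := F) (by omega)
      · omega
      · exact no_card' (F := F) (by omega)
      · omega
      · exact no_card' (F := F) (by omega)
      · omega
      · exact no_G4s_19 (F := F') (by omega) (by exact_mod_cast G.oα) (by exact_mod_cast G.oβ)
          k3 k4
  · by_cases hb : 16 ≤ n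
    · exact rg_G4ss hb hf h h'
    · obtain ⟨F', j1, j2, α', g', c2, -, k2, k3, -⟩ := prodG4ss (by omega) h'
      rw [Ne, two_iff] at k2
      have hb' : n ≤ 15 := by omega
      interval_cases n
      · exact no_card' (F := F) (by omega)
      · omega
      · exact no_card' (F := F) (by omega)
      · omega
      · exact no_card' (F := F) (by omega)
      · omega
      · exact rg15_G4ss hf h h'
  · by_cases hb : 15 ≤ n
    · exact rg_G5s hb hf h h'
    · obtain ⟨F', j1, j2, α', β', g', c2, -, k3, k4, G⟩ := prodG5s (by omega) hf h'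
      have k2 := G5s_two_ne (by omega) G.oα k3 k4
      rw [Ne, two_iff] at k2
      have hb' : n ≤ 14 := by omega
      interval_cases n
      · omega
      · exact no_card' (F := F') (by omega)
      · omega
      · exact (no_root17 (F := F') (by omega) α').1 (sq_of k3 k4)
      · omega
      · exact no_card' (F := F) (by omega)

end

end Pool.Agent.Helper60.Costas
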