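import Pool.Agent.Helper60.Costas.Small

/-!
Orders 6, 7, 8: completeness of the lists.
-/

namespace Pool.Agent.Helper60.Costas

theorem vec_length (m : ℕ) (g : ℕ → ℕ) : (vec m g).length = m := by simp [vec]

theorem vec_get {m : ℕ} {g : ℕ → ℕ} {i : ℕ} (h : i < (vec m g).length) :
    (vec m g)[i] = g (i + 1) := by simp [vec]

theorem vec_g1 {n : ℕ} {f g : ℕ → ℕ} (hn : 1 ≤ n) (h1 : f 1 = 1)
    (h2 : ∀ i ∈ Set.Icc 2 n, f i = g (i - 1) + 1) :
    vec n f = 1 :: (vec (n - 1) g).map (· + 1) := by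
  apply List.ext_getElem
  · simp [vec_length]; omega
  · intro i hi1 hi2
    rw [vec_get]
    rw [vec_length] at hi1
    rcases i with _ | i
    · simpa using h1
    · simp only [List.getElem_cons_succ, List.getElem_map, vec_get]
      rw [h2 _ (by simp only [Set.mem_Icc]; omega)]
      simp

theorem vec_g0 {n : ℕ} {f g : ℕ → ℕ} (hn : 2 ≤ n) (h1 : f 1 = 1) (h3 : f n = n)
    (h2 : ∀ i ∈ Set.Icc 2 (n - 1), f i = g (i - 1) + 1) :
    vec n f = 1 :: ((vec (n - 2) g).map (· + 1) ++ [n]) := by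
  apply List.ext_getElem
  · simp [vec_length]; omega
  · intro i hi1 hi2
    rw [vec_get]
    rw [vec_length] at hi1
    rcases i with _ | i
    · simpa using h1
    · simp only [List.getElem_cons_succ]
      rw [List.getElem_append]
      split_ifs with hlt
      · simp only [List.length_map, vec_length] at hlt
        simp only [List.getElem_map, vec_get]
        rw [h2 _ (by simp only [Set.mem_Icc]; omega)]
        simp
      · simp only [List.length_map, vec_length] at hlt
        simp only [List.getElem_singleton]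
        have : i + 1 + 1 = n := by omega
        rw [this, h3]

theorem vec_rg {n : ℕ} {f g : ℕ → ℕ} {t₁ t₂ : ℕ} (hn : 3 ≤ n) (a1 : 2 ≤ t₁) (a2 : t₁ ≤ n - 1)
    (a3 : 2 ≤ t₂)
    (ht : f t₁ = t₂) (h : ∀ i ∈ Set.Icc 1 n, i ≠ t₁ →
        (f i : ℤ) = ((g ((((i : ℤ) - t₁ - 1) % (n : ℤ)).toNat + 1) : ℤ)
          + t₂ - 1) % (n : ℤ) + 1) :
    vec n f = rgArr n (vec (n - 1) g) t₁ t₂ := by
  apply List.ext_getElem
  · simp [vec_length, rgArr]
  · intro i hi1 hi2
    rw [vec_get]
    rw [vec_length] at hi1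
    simp only [rgArr, List.getElem_map, List.getElem_range]
    split_ifs with hit
    · rw [hit, ht]
    · have h1 := h (i + 1) (by simp only [Set.mem_Icc]; omega) hit
      have e1 : ((((i + 1 : ℕ) : ℤ) - t₁ - 1) % (n : ℤ)).toNat = (i + 1 + n - t₁ - 1) % n := by
        have : (((i + 1 : ℕ) : ℤ) - t₁ - 1) % (n : ℤ) = (((i + 1 + n - t₁ - 1) % n : ℕ) : ℤ) := by
          rw [Int.natCast_mod, ← Int.add_emod_right]
          congr 1
          omega
        rw [this, Int.toNat_natCast]
      rw [e1] at h1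
      have hr : (i + 1 + n - t₁ - 1) % n < n := Nat.mod_lt _ (by omega)
      have hr' : (i + 1 + n - t₁ - 1) % n ≠ n - 1 := by
        intro hcon
        have := Nat.div_add_mod (i + 1 + n - t₁ - 1) n
        rw [hcon] at this
        have hq : (i + 1 + n - t₁ - 1) / n ≤ 1 := by
          apply Nat.le_of_lt_succ
          rw [Nat.div_lt_iff_lt_mul (by omega)]
          omega
        interval_cases hx : (i + 1 + n - t₁ - 1) / n <;> omega
      set r := (i + 1 + n - t₁ - 1) % n with hrdef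
      have hg : (vec (n - 1) g).getD r 0 = g (r + 1) := by
        rw [List.getD_eq_getElem _ _ (by rw [vec_length]; omega), vec_get]
      rw [hg]
      have e2 : ((g (r + 1) : ℤ) + t₂ - 1) % (n : ℤ) = (((g (r + 1) + t₂ - 1) % n : ℕ) : ℤ) := by
        rw [Int.natCast_mod]
        congr 1
        omega
      rw [e2] at h1
      exact_mod_cast h1

theorem mem_rgAll {n : ℕ} {T : List (List ℕ)} {L : List ℕ} (hL : L ∈ T) {t₁ t₂ : ℕ}
    (a1 : 2 ≤ t₁) (a2 : t₁ ≤ n - 1) (a3 : 2 ≤ t₂) (a4 : t₂ ≤ n - 1) :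
    rgArr n L t₁ t₂ ∈ rgAll n T := by
  unfold rgAll
  rw [List.mem_flatMap]
  refine ⟨L, hL, ?_⟩
  rw [List.mem_flatMap]
  refine ⟨t₁ - 2, by rw [List.mem_range]; omega, ?_⟩
  rw [List.mem_map]
  refine ⟨t₂ - 2, by rw [List.mem_range]; omega, ?_⟩
  rw [show t₁ - 2 + 2 = t₁ by omega, show t₂ - 2 + 2 = t₂ by omega]

set_option maxRecDepth 100000 in
theorem w7_dec : ∀ a : ZMod 7, okb a 5 = true → ∀ c < 6, vec 6 (w1exp 7 a c) ∈ W7 := by
  decide +kernel

set_option maxRecDepth 100000 in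
theorem tab9p : TabOK K9 (fun a b => decide (a + b = 1)) 7 [[1, 7, 3, 4, 6, 5, 2]] := by
  unfold TabOK; decide +kernel

theorem w7_mem {α : ZMod 7} (h : IsPrimitive α) {c : ℕ} (hc : c ≤ 5) :
    vec 6 (w1exp 7 α c) ∈ W7 := by
  apply w7_dec α _ c (by omega)
  exact okb_of (by simp) h

theorem vec_congr {m : ℕ} {f g : ℕ → ℕ} (h : ∀ i ∈ Set.Icc 1 m, f i = g i) :
    vec m f = vec m g := by
  apply List.ext_getElem
  · simp [vec_length]
  · intro i hi1 hi2
    rw [vec_length] at hi1
    rw [vec_get, vec_get, h _ (by simp only [Set.mem_Icc]; omega)]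

theorem no_11 {F : Type} [Field F] [Fintype F] (hc : Fintype.card F = 11) {α β : F}
    (hα : HasOrd α 10) (hβ : HasOrd β 10) (h1 : α + β = 1) (h2 : α * β = -1) : False := by
  have e := (ZMod.ringEquivOfPrime F (p := 11) (by norm_num) hc).symm
  have key : ∀ a b : ZMod 11, a + b = 1 → a * b = -1 → a ^ 5 = 1 ∨ b ^ 5 = 1 := by
    decide +kernel
  have h3 := key (e α) (e β) (by rw [← map_add, h1, map_one])
    (by rw [← map_mul, h2, map_neg, map_one])
  rcases h3 with h3 | h3
  · rw [← map_pow] at h3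
    have h4 : α ^ 5 = 1 := by
      have := congrArg e.symm h3
      simpa using this
    have h5 := (hα.2 5).1 (by exact_mod_cast h4)
    omega
  · rw [← map_pow] at h3
    have h4 : β ^ 5 = 1 := by
      have := congrArg e.symm h3
      simpa using this
    have h5 := (hβ.2 5).1 (by exact_mod_cast h4)
    omega

section
variable {f f' : ℕ → ℕ}

theorem cand_G2 {n : ℕ} (hn : n = 6 ∨ n = 7 ∨ n = 8) (h : Produces .G2 n f) :
    vec n f ∈ cand n .G2 := by
  obtain ⟨F, i1, i2, α, β, c1, hg, -⟩ := prodG2 (by omega) h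
  rcases hn with rfl | rfl | rfl
  · have e : F ≃+* K8 := FiniteField.ringEquivOfCardEq (by rw [c1, card_K8])
    exact vec_mem tab8 (by rw [card_K8]) e hg rfl
  · have e : F ≃+* K9 := FiniteField.ringEquivOfCardEq (by rw [c1, card_K9])
    exact vec_mem tab9 (by rw [card_K9]) e hg rfl
  · exact (no_card' (F := F) (by omega)).elim

theorem cand_G1 {n : ℕ} (hn : n = 6 ∨ n = 7 ∨ n = 8) (h : Produces .G1 n f) :
    vec n f ∈ cand n .G1 := by
  obtain ⟨F, i1, i2, α, β, g, c1, hg, k1, k2, -⟩ := prodG1 (by omega) h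
  rw [vec_g1 (by omega) k1 k2]
  rcases hn with rfl | rfl | rfl
  · have e := (ZMod.ringEquivOfPrime F (p := 7) (by norm_num) c1).symm
    exact List.mem_map_of_mem (vec_mem tab7 (by simp) e hg rfl)
  · have e : F ≃+* K8 := FiniteField.ringEquivOfCardEq (by rw [c1, card_K8])
    exact List.mem_map_of_mem (vec_mem tab8 (by rw [card_K8]) e hg rfl)
  · have e : F ≃+* K9 := FiniteField.ringEquivOfCardEq (by rw [c1, card_K9])
    exact List.mem_map_of_mem (vec_mem tab9 (by rw [card_K9]) e hg rfl)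

theorem cand_RG1 {n : ℕ} (hn : n = 6 ∨ n = 7 ∨ n = 8) (h : Produces .RG1 n f) :
    vec n f ∈ cand n .RG1 := by
  obtain ⟨F, i1, i2, α, β, g, t₁, t₂, c1, hg, a1, a2, a3, a4, k1, k2, -⟩ :=
    prodRG1 (by omega) h
  rw [vec_rg (by omega) a1 a2 a3 k1 k2]
  rcases hn with rfl | rfl | rfl
  · have e := (ZMod.ringEquivOfPrime F (p := 7) (by norm_num) c1).symm
    exact mem_rgAll (vec_mem tab7 (by simp) e hg rfl) a1 a2 a3 a4
  · have e : F ≃+* K8 := FiniteField.ringEquivOfCardEq (by rw [c1, card_K8])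
    exact mem_rgAll (vec_mem tab8 (by rw [card_K8]) e hg rfl) a1 a2 a3 a4
  · have e : F ≃+* K9 := FiniteField.ringEquivOfCardEq (by rw [c1, card_K9])
    exact mem_rgAll (vec_mem tab9 (by rw [card_K9]) e hg rfl) a1 a2 a3 a4

theorem cand_G0 {n : ℕ} (hn : n = 6 ∨ n = 7 ∨ n = 8) (h : Produces .G0 n f) :
    vec n f ∈ cand n .G0 := by
  obtain ⟨F, i1, i2, α, β, g, c1, hg, k1, k2, k3, -⟩ := prodG0 (by omega) h
  rw [vec_g0 (by omega) k1 k2 k3]
  rcases hn with rfl | rfl | rfl
  · exact (no_card' (F := F) (by omega)).elim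
  · have e := (ZMod.ringEquivOfPrime F (p := 7) (by norm_num) c1).symm
    exact List.mem_map_of_mem (f := fun L => 1 :: (L.map (· + 1) ++ [7]))
      (vec_mem tab7 (by simp) e hg rfl)
  · have e : F ≃+* K8 := FiniteField.ringEquivOfCardEq (by rw [c1, card_K8])
    exact List.mem_map_of_mem (f := fun L => 1 :: (L.map (· + 1) ++ [8]))
      (vec_mem tab8 (by rw [card_K8]) e hg rfl)

theorem cand_G3 {n : ℕ} (hn : n = 6 ∨ n = 7 ∨ n = 8) (h : Produces .G3 n f) :
    vec n f ∈ cand n .G3 := by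
  obtain ⟨F, i1, i2, α, β, g, c1, hg, k1, k2, -⟩ := prodG3 (by omega) h
  rcases hn with rfl | rfl | rfl
  · have e : F ≃+* K9 := FiniteField.ringEquivOfCardEq (by rw [c1, card_K9])
    have hm := vec_mem tab9p (by rw [card_K9]) e hg
      (by rw [decide_eq_true_eq, ← map_add, k1, map_one])
    rw [List.mem_singleton] at hm
    have q1 := k2 1 (by simp)
    have q2 := k2 2 (by simp)
    have q3 := k2 3 (by simp)
    have q4 := k2 4 (by simp)
    have q5 := k2 5 (by simp)
    have q6 := k2 6 (by simp)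
    simp only [vec, List.range, List.range.loop, List.map_cons, List.map_nil,
      List.cons.injEq, and_true, cand, List.mem_singleton] at hm ⊢
    norm_num at q1 q2 q3 q4 q5 q6 hm ⊢
    omega
  · exact (no_card' (F := F) (by omega)).elim
  · have e := (ZMod.ringEquivOfPrime F (p := 11) (by norm_num) c1).symm
    have hm := vec_mem tab11p (by simp) e hg
      (by rw [decide_eq_true_eq, ← map_add, k1, map_one])
    rw [T11p, List.mem_singleton] at hm
    have q1 := k2 1 (by simp)
    have q2 := k2 2 (by simp)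
    have q3 := k2 3 (by simp)
    have q4 := k2 4 (by simp)
    have q5 := k2 5 (by simp)
    have q6 := k2 6 (by simp)
    have q7 := k2 7 (by simp)
    have q8 := k2 8 (by simp)
    simp only [vec, List.range, List.range.loop, List.map_cons, List.map_nil,
      List.cons.injEq, and_true, cand, List.mem_singleton] at hm ⊢
    norm_num at q1 q2 q3 q4 q5 q6 q7 q8 hm ⊢
    omega

theorem cand_G4 {n : ℕ} (hn : n = 6 ∨ n = 7 ∨ n = 8) (h : Produces .G4 n f) : False := by
  obtain ⟨F, i1, i2, α, β, g, c1, hg, k0, -⟩ := prodG4 (by omega) h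
  rw [two_iff] at k0
  rcases hn with rfl | rfl | rfl
  · exact no_card' (F := F) (by omega)
  · omega
  · exact no_card' (F := F) (by omega)

theorem cand_G4s {n : ℕ} (hn : n = 6 ∨ n = 7 ∨ n = 8) (h : Produces .G4s n f) : False := by
  obtain ⟨F, i1, i2, α, β, g, c1, hg, k0, k1, k2, G⟩ := prodG4s (by omega) h
  rw [Ne, two_iff] at k0
  rcases hn with rfl | rfl | rfl
  · omega
  · exact no_11 (F := F) (by omega) (by exact_mod_cast G.oα) (by exact_mod_cast G.oβ) k1 k2
  · omega

theorem cand_G4ss {n : ℕ} (hn : n = 6 ∨ n = 7 ∨ n = 8) (h : Produces .G4ss n f) :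
    vec n f ∈ cand n .G4ss := by
  obtain ⟨F, i1, i2, α, g, c1, hg, k0, k1, k2, -⟩ := prodG4ss (by omega) h
  rw [Ne, two_iff] at k0
  rcases hn with rfl | rfl | rfl
  · omega
  · have e := (ZMod.ringEquivOfPrime F (p := 11) (by norm_num) c1).symm
    have hm := vec_mem tab11s (by simp) e hg
      (by rw [decide_eq_true_eq, ← map_pow, ← map_add, k1, map_one]; simp)
    rw [T11s, List.mem_singleton] at hm
    have q1 := k2 1 (by simp)
    have q2 := k2 2 (by simp)
    have q3 := k2 3 (by simp)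
    have q4 := k2 4 (by simp)
    have q5 := k2 5 (by simp)
    have q6 := k2 6 (by simp)
    have q7 := k2 7 (by simp)
    simp only [vec, List.range, List.range.loop, List.map_cons, List.map_nil,
      List.cons.injEq, and_true, cand, List.mem_singleton] at hm ⊢
    norm_num at q1 q2 q3 q4 q5 q6 q7 hm ⊢
    omega
  · omega

theorem cand_G5s {n : ℕ} (hn : n = 6 ∨ n = 7 ∨ n = 8) (hf : IsPerm n (fz f) (fz f'))
    (h : Produces .G5s n f) : False := by
  obtain ⟨F, i1, i2, α, β, g, c1, hg, k1, k2, G⟩ := prodG5s (by omega) hf h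
  rcases hn with rfl | rfl | rfl
  · exact no_11 (F := F) (by omega) (by exact_mod_cast G.oα) (by exact_mod_cast G.oβ) k1 k2
  · exact no_card' (F := F) (by omega)
  · exact (no_root13 (F := F) (by omega) α).1 (sq_of k1 k2)

theorem cand_W2 {n : ℕ} (hn : n = 6 ∨ n = 7 ∨ n = 8) (h : Produces .W2 n f) : False := by
  obtain ⟨p, α, hp, -, h1, -⟩ := h
  have : p = 8 ∨ p = 9 ∨ p = 10 := by omega
  rcases this with rfl | rfl | rfl <;> norm_num at hp

theorem cand_W3 {n : ℕ} (hn : n = 6 ∨ n = 7 ∨ n = 8) (h : Produces .W3 n f) :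
    vec n f ∈ cand n .W3 := by
  obtain ⟨p, hp, -, h1, h2⟩ := h
  have : (n = 6 ∧ p = 9) ∨ (n = 7 ∧ p = 10) ∨ (n = 8 ∧ p = 11) := by omega
  rcases this with ⟨rfl, rfl⟩ | ⟨rfl, rfl⟩ | ⟨rfl, rfl⟩
  · norm_num at hp
  · norm_num at hp
  · have q1 := h2 1 (by simp)
    have q2 := h2 2 (by simp)
    have q3 := h2 3 (by simp)
    have q4 := h2 4 (by simp)
    have q5 := h2 5 (by simp)
    have q6 := h2 6 (by simp)
    have q7 := h2 7 (by simp)
    have q8 := h2 8 (by simp)
    rw [show w1exp 11 2 0 (1 + 2) = 4 by decide] at q1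
    rw [show w1exp 11 2 0 (2 + 2) = 8 by decide] at q2
    rw [show w1exp 11 2 0 (3 + 2) = 5 by decide] at q3
    rw [show w1exp 11 2 0 (4 + 2) = 10 by decide] at q4
    rw [show w1exp 11 2 0 (5 + 2) = 9 by decide] at q5
    rw [show w1exp 11 2 0 (6 + 2) = 7 by decide] at q6
    rw [show w1exp 11 2 0 (7 + 2) = 3 by decide] at q7
    rw [show w1exp 11 2 0 (8 + 2) = 6 by decide] at q8
    simp only [vec, List.range, List.range.loop, List.map_cons, List.map_nil,
      List.cons.injEq, and_true, cand, List.mem_singleton]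
    norm_num at q1 q2 q3 q4 q5 q6 q7 q8 ⊢
    omega

theorem cand_W0 {n : ℕ} (hn : n = 6 ∨ n = 7 ∨ n = 8) (h : Produces .W0 n f) :
    vec n f ∈ cand n .W0 := by
  obtain ⟨p, α, c, hp, hα, hc, h1, h2, h3⟩ := h
  subst h1
  rcases hn with rfl | rfl | rfl
  · norm_num at hp
  · rw [vec_g1 (by omega) h2 h3]
    exact List.mem_map_of_mem (f := fun L => 1 :: L.map (· + 1)) (w7_mem hα (by omega))
  · norm_num at hp

theorem cand_RW0 {n : ℕ} (hn : n = 6 ∨ n = 7 ∨ n = 8) (h : Produces .RW0 n f) :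
    vec n f ∈ cand n .RW0 := by
  obtain ⟨p, α, c, t, hp, hα, hc, t1, t2, h1, h2, h3⟩ := h
  subst h1
  rcases hn with rfl | rfl | rfl
  · norm_num at hp
  · have hv : vec 7 f = (vec 6 (w1exp 7 α c)).map (fun x => (x + (t - 2 + 2) - 1) % 7 + 1) ++
        [t - 2 + 2] := by
      apply List.ext_getElem
      · simp [vec_length]
      · intro i hi1 hi2
        rw [vec_get]
        rw [vec_length] at hi1
        rw [List.getElem_append]
        split_ifs with hlt
        · simp only [List.length_map, vec_length] at hlt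
          simp only [List.getElem_map, vec_get]
          have q := h2 (i + 1) (by simp only [Set.mem_Icc]; omega)
          have e2 : ((w1exp 7 α c (i + 1) : ℤ) + t - 1) % ((7 : ℕ) : ℤ) =
              (((w1exp 7 α c (i + 1) + (t - 2 + 2) - 1) % 7 : ℕ) : ℤ) := by
            rw [Int.natCast_mod]
            congr 1
            omega
          rw [e2] at q
          exact_mod_cast q
        · simp only [List.length_map, vec_length] at hlt
          simp only [List.getElem_singleton]
          have : i + 1 = 7 := by omega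
          rw [this, h3]; omega
    rw [hv]
    show _ ∈ rw0All
    unfold rw0All
    rw [List.mem_flatMap]
    refine ⟨_, w7_mem hα (by omega), ?_⟩
    rw [List.mem_map]
    exact ⟨t - 2, by rw [List.mem_range]; omega, rfl⟩
  · norm_num at hp

theorem cand_W1 {n : ℕ} (hn : n = 6 ∨ n = 7 ∨ n = 8) (h : Produces .W1 n f) :
    vec n f ∈ cand n .W1 := by
  obtain ⟨p, α, c, hp, hα, hc, h1, h2⟩ := h
  have : (n = 6 ∧ p = 7) ∨ (n = 7 ∧ p = 8) ∨ (n = 8 ∧ p = 9) := by omega
  rcases this with ⟨rfl, rfl⟩ | ⟨rfl, rfl⟩ | ⟨rfl, rfl⟩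
  · have hm := w7_mem hα (c := c) (by omega)
    show _ ∈ W7 ++ W7.map invList
    rw [List.mem_append]
    rcases h2 with h2 | h2
    · left
      rw [vec_congr h2]; exact hm
    · right
      have q1 := h2 1 (by simp)
      have q2 := h2 2 (by simp)
      have q3 := h2 3 (by simp)
      have q4 := h2 4 (by simp)
      have q5 := h2 5 (by simp)
      have q6 := h2 6 (by simp)
      have hv : vec 6 f = [f 1, f 2, f 3, f 4, f 5, f 6] := rfl
      rw [hv]
      unfold W7 at hm
      simp only [List.mem_cons, List.not_mem_nil, or_false, vec, List.range, List.range.loop,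
        List.map_cons, List.map_nil, List.cons.injEq, and_true] at hm
      norm_num at hm
      rcases hm with ⟨a1, a2, a3, a4, a5, a6⟩ | ⟨a1, a2, a3, a4, a5, a6⟩ |
        ⟨a1, a2, a3, a4, a5, a6⟩ | ⟨a1, a2, a3, a4, a5, a6⟩ | ⟨a1, a2, a3, a4, a5, a6⟩ |
        ⟨a1, a2, a3, a4, a5, a6⟩ | ⟨a1, a2, a3, a4, a5, a6⟩ | ⟨a1, a2, a3, a4, a5, a6⟩ |
        ⟨a1, a2, a3, a4, a5, a6⟩ | ⟨a1, a2, a3, a4, a5, a6⟩ | ⟨a1, a2, a3, a4, a5, a6⟩ |
        ⟨a1, a2, a3, a4, a5, a6⟩ <;>
      rw [a1] at q1 <;> rw [a2] at q2 <;> rw [a3] at q3 <;> rw [a4] at q4 <;>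
      rw [a5] at q5 <;> rw [a6] at q6 <;> simp only [q1, q2, q3, q4, q5, q6] <;> decide
  · norm_num at hp
  · norm_num at hp

theorem cand_all {n : ℕ} (hn : n = 6 ∨ n = 7 ∨ n = 8) (hf : IsPerm n (fz f) (fz f'))
    (M : Method) (h : Produces M n f) : vec n f ∈ cand n M := by
  cases M with
  | W0 => exact cand_W0 hn h
  | W1 => exact cand_W1 hn h
  | W2 => exact (cand_W2 hn h).elim
  | W3 => exact cand_W3 hn h
  | RW0 => exact cand_RW0 hn h
  | G0 => exact cand_G0 hn h
  | G1 => exact cand_G1 hn h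
  | G2 => exact cand_G2 hn h
  | G3 => exact cand_G3 hn h
  | G4 => exact (cand_G4 hn h).elim
  | G4s => exact (cand_G4s hn h).elim
  | G4ss => exact cand_G4ss hn h
  | G5s => exact (cand_G5s hn hf h).elim
  | RG1 => exact cand_RG1 hn h

theorem small_all {n : ℕ} (hn : n = 6 ∨ n = 7 ∨ n = 8) (hf : IsPerm n (fz f) (fz f'))
    {M M' : Method} (hM : M ≠ M') (h : Produces M n f) (h' : Produces M' n f) :
    n = 7 ∧ ((M = .G2 ∧ M' = .RG1) ∨ (M = .RG1 ∧ M' = .G2)) ∧ vec 7 f ∈ four := by
  have c1 := cand_all hn hf M h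
  have c2 := cand_all hn hf M' h'
  have key : (allMethods.all (fun M => allMethods.all (fun M' =>
    decide (M = M') || checkPair n M M'))) = true := by
    rcases hn with rfl | rfl | rfl
    · exact check6
    · exact check7
    · exact check8
  rw [List.all_eq_true] at key
  have k1 := key M (mem_allMethods M)
  rw [List.all_eq_true] at k1
  have k2 := k1 M' (mem_allMethods M')
  rw [Bool.or_eq_true, decide_eq_true_eq] at k2
  have k3 := k2.resolve_left hM
  unfold checkPair at k3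
  rw [List.all_eq_true] at k3
  have k4 := k3 _ c1
  rw [List.all_eq_true] at k4
  have k5 := k4 _ c2
  simp only [ne_eq, not_true_eq_false, decide_false, Bool.false_or, Bool.and_eq_true,
    Bool.or_eq_true, decide_eq_true_eq, List.contains_iff_mem] at k5
  obtain ⟨⟨h1, h2⟩, h3⟩ := k5
  subst h1
  exact ⟨rfl, h2, h3⟩

end

end Pool.Agent.Helper60.Costas
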