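import Pool.Agent.Helper60.Costas.PairsW
import Pool.Agent.Helper60.Costas.PairsI
import Pool.Agent.Helper60.Costas.PairsK
import Pool.Agent.Helper60.Costas.Small2

/-!
Assembly: for `n ≥ 9` no permutation is produced by two different methods.
-/

namespace Pool.Agent.Helper60.Costas

variable {n : ℕ} {f f' : ℕ → ℕ}

/-- the Golomb-type methods -/
def IsG : Method → Prop
  | .G0 | .G1 | .G2 | .G3 | .G4 | .G4s | .G4ss | .G5s | .RG1 => True
  | _ => False

theorem g_ABCD (hn : 5 < n) (hf : IsPerm n (fz f) (fz f')) {M : Method} (hM : IsG M)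
    (h : Produces M n f) : HasA n (fz f) ∨ HasB n (fz f) ∨ HasC n (fz f) ∨ HasD n (fz f) := by
  cases M
  case G0 =>
    obtain ⟨F, i1, i2, α, β, g, h1, h2, h3, h4, h5, h6⟩ := prodG0 hn h
    right; right; left
    exact ⟨F, i1, α, β, h6, fz_one h3, by rw [fz_natCast]; exact_mod_cast h4⟩
  case G1 =>
    obtain ⟨F, i1, i2, α, β, g, h1, h2, h3, h4, h6⟩ := prodG1 hn h
    right; left
    exact ⟨F, i1, α, β, h6, fz_one h3⟩
  case G2 =>
    obtain ⟨F, i1, i2, α, β, h1, h2, h6⟩ := prodG2 hn h
    left
    exact ⟨F, i1, α, β, _, _, _, by omega, h6⟩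
  case G3 =>
    obtain ⟨F, i1, i2, α, β, g, h1, h2, h3, h4, h6⟩ := prodG3 hn h
    left
    exact ⟨F, i1, α, β, _, _, _, by omega, h6⟩
  case G4 =>
    obtain ⟨F, i1, i2, α, β, g, h1, h2, h3, h4, h5, h6⟩ := prodG4 hn h
    left
    exact ⟨F, i1, α, β, _, _, _, by omega, h6⟩
  case G4s =>
    obtain ⟨F, i1, i2, α, β, g, h1, h2, h3, h4, h5, h6⟩ := prodG4s hn h
    left
    exact ⟨F, i1, α, β, _, _, _, by omega, h6⟩
  case G4ss =>
    obtain ⟨F, i1, i2, α, g, h1, h2, h3, h4, h5, h6⟩ := prodG4ss hn h
    left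
    exact ⟨F, i1, α, α, _, _, _, by omega, h6⟩
  case G5s =>
    obtain ⟨F, i1, i2, α, β, g, h1, h2, h3, h4, h6⟩ := prodG5s hn hf h
    left
    exact ⟨F, i1, α, β, _, _, _, by omega, h6⟩
  case RG1 =>
    obtain ⟨F, i1, i2, α, β, g, t₁, t₂, h1, h2, a1, a2, a3, a4, h3, h4, h6⟩ := prodRG1 hn h
    right; right; right
    refine ⟨F, i1, α, β, t₁, t₂, by omega, by omega, by omega, by omega, ?_, h6⟩
    rw [fz_natCast]; exact_mod_cast h3
  all_goals exact hM.elim

theorem wg (hn : 9 ≤ n) (hf : IsPerm n (fz f) (fz f')) {M M' : Method} (hM : ¬ IsG M)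
    (hM' : IsG M') (h : Produces M n f) (h' : Produces M' n f) : False := by
  have hn5 : 5 < n := by omega
  have hA := g_ABCD hn5 hf hM' h'
  cases M
  case W0 =>
    obtain ⟨m, e1, -, e2⟩ := prodW0 hn5 h
    exact w0_ABCD (by omega) e1 e2 hA
  case W1 =>
    obtain ⟨m, e1, e2⟩ := prodW1 hn5 hf h
    rcases e2 with e2 | ⟨e2, -⟩
    · exact w1_ABCD (by omega) e1 e2 hA
    · refine w1_ABCD (by omega) e1 e2 ?_
      rcases hA with hA | hA | hA | hA
      · exact Or.inl (hA.transpose hf)
      · exact Or.inr (Or.inl (hA.transpose (by omega) hf))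
      · exact Or.inr (Or.inr (Or.inl (hA.transpose (by omega) hf)))
      · exact Or.inr (Or.inr (Or.inr (hA.transpose hf)))
  case W2 =>
    obtain ⟨m, e1, e2⟩ := prodW2 hn5 h
    exact w2_ABCD (by omega) e1 hf.f1 e2 hA
  case W3 =>
    obtain ⟨m, e1, e2, -, -, e3⟩ := prodW3 hn5 h
    have e2' : fz f 1 = 2 := by
      have := fz_natCast f 1
      rw [Nat.cast_one] at this
      rw [this, e2]; rfl
    exact w3_ABCD (by omega) e1 e2' e3 hA
  case RW0 =>
    obtain ⟨m, t, hp, e1, e2, e3, e4, e5⟩ := prodRW0 hn5 h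
    have h10 : 10 ≤ n := by
      rcases Nat.lt_or_ge n 10 with h9 | h9
      · have : n = 9 := by omega
        rw [this] at hp
        norm_num at hp
      · exact h9
    exact rw0_ABCD (by omega) e1 e3 e4 e5 hA
  all_goals exact (hM trivial).elim

theorem ww (hn : 5 < n) (hc : IsCostas n f) (hf : IsPerm n (fz f) (fz f')) {M M' : Method}
    (hM : ¬ IsG M) (hM' : ¬ IsG M') (hne : M ≠ M') (h : Produces M n f)
    (h' : Produces M' n f) : False := by
  -- parities
  have par : ∀ M : Method, ¬ IsG M → Produces M n f →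
      (M = .W0 ∨ M = .RW0 ∨ M = .W2 → ∃ m : ℤ, (n : ℤ) = 2 * m + 1) ∧
      (M = .W1 ∨ M = .W3 → ∃ m : ℤ, (n : ℤ) = 2 * m) := by
    intro M hM h
    cases M
    case W0 =>
      obtain ⟨m, e1, -⟩ := prodW0 hn h
      exact ⟨fun _ => ⟨m, e1⟩, fun h => by rcases h with h | h <;> cases h⟩
    case W1 =>
      obtain ⟨m, e1, -⟩ := prodW1 hn hf h
      exact ⟨fun h => (by rcases h with h | h | h <;> cases h), fun _ => ⟨m, e1⟩⟩
    case W2 =>
      obtain ⟨m, e1, -⟩ := prodW2 hn h
      exact ⟨fun _ => ⟨m - 1, by omega⟩, fun h => by rcases h with h | h <;> cases h⟩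
    case W3 =>
      obtain ⟨m, e1, -⟩ := prodW3 hn h
      exact ⟨fun h => (by rcases h with h | h | h <;> cases h), fun _ => ⟨m - 1, by omega⟩⟩
    case RW0 =>
      obtain ⟨m, t, -, e1, -⟩ := prodRW0 hn h
      exact ⟨fun _ => ⟨m, e1⟩, fun h => by rcases h with h | h <;> cases h⟩
    all_goals exact (hM trivial).elim
  obtain ⟨p1, p2⟩ := par M hM h
  obtain ⟨q1, q2⟩ := par M' hM' h'
  have clash : (∃ m : ℤ, (n : ℤ) = 2 * m + 1) → (∃ m : ℤ, (n : ℤ) = 2 * m) → False := by
    rintro ⟨m, h1⟩ ⟨m', h2⟩
    omega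
  cases M
  case W0 =>
    cases M'
    case W0 => exact hne rfl
    case W1 => exact clash (p1 (by simp)) (q2 (by simp))
    case W2 => exact ww_W0_W2 hn hc h h'
    case W3 => exact clash (p1 (by simp)) (q2 (by simp))
    case RW0 => exact ww_W0_RW0 hn h h'
    all_goals exact (hM' trivial).elim
  case W1 =>
    cases M'
    case W0 => exact clash (q1 (by simp)) (p2 (by simp))
    case W1 => exact hne rfl
    case W2 => exact clash (q1 (by simp)) (p2 (by simp))
    case W3 => exact ww_W1_W3 hn hc hf h h'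
    case RW0 => exact clash (q1 (by simp)) (p2 (by simp))
    all_goals exact (hM' trivial).elim
  case W2 =>
    cases M'
    case W0 => exact ww_W0_W2 hn hc h' h
    case W1 => exact clash (p1 (by simp)) (q2 (by simp))
    case W2 => exact hne rfl
    case W3 => exact clash (p1 (by simp)) (q2 (by simp))
    case RW0 => exact ww_RW0_W2 hn hc h' h
    all_goals exact (hM' trivial).elim
  case W3 =>
    cases M'
    case W0 => exact clash (q1 (by simp)) (p2 (by simp))
    case W1 => exact ww_W1_W3 hn hc hf h' h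
    case W2 => exact clash (q1 (by simp)) (p2 (by simp))
    case W3 => exact hne rfl
    case RW0 => exact clash (q1 (by simp)) (p2 (by simp))
    all_goals exact (hM' trivial).elim
  case RW0 =>
    cases M'
    case W0 => exact ww_W0_RW0 hn h' h
    case W1 => exact clash (p1 (by simp)) (q2 (by simp))
    case W2 => exact ww_RW0_W2 hn hc h h'
    case W3 => exact clash (p1 (by simp)) (q2 (by simp))
    case RW0 => exact hne rfl
    all_goals exact (hM' trivial).elim
  all_goals exact (hM trivial).elim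

theorem gg (hn : 9 ≤ n) (hf : IsPerm n (fz f) (fz f')) {M M' : Method}
    (hM : IsG M) (hM' : IsG M') (hne : M ≠ M') (h : Produces M n f)
    (h' : Produces M' n f) : False := by
  have h6 : 6 ≤ n := by omega
  cases M
  case G0 =>
    cases M'
    case G0 => exact hne rfl
    case G1 => exact gg_G0_G1 hn hf h h'
    case RG1 => exact rg_all hn hf h' (by tauto)
    case G2 => exact gg_G0_corner h6 hf h (by tauto)
    case G3 => exact gg_G0_corner h6 hf h (by tauto)
    case G4 => exact gg_G0_corner h6 hf h (by tauto)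
    case G4s => exact gg_G0_corner h6 hf h (by tauto)
    case G4ss => exact gg_G0_corner h6 hf h (by tauto)
    case G5s => exact gg_G0_corner h6 hf h (by tauto)
    all_goals exact hM'.elim
  case G1 =>
    cases M'
    case G0 => exact gg_G0_G1 hn hf h' h
    case G1 => exact hne rfl
    case RG1 => exact gg_G1_RG1 hn h h'
    case G2 => exact gg_G1_G2 hn hf h h'
    case G3 => exact gg_G1_G3 h6 h h'
    case G4 => exact gg_G1_corner h6 hf h (by tauto)
    case G4s => exact gg_G1_corner h6 hf h (by tauto)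
    case G4ss => exact gg_G1_corner h6 hf h (by tauto)
    case G5s => exact gg_G1_corner h6 hf h (by tauto)
    all_goals exact hM'.elim
  case RG1 =>
    cases M'
    case G1 => exact gg_G1_RG1 hn h' h
    case RG1 => exact hne rfl
    case G0 => exact rg_all hn hf h (by tauto)
    case G2 => exact rg_all hn hf h (by tauto)
    case G3 => exact rg_all hn hf h (by tauto)
    case G4 => exact rg_all hn hf h (by tauto)
    case G4s => exact rg_all hn hf h (by tauto)
    case G4ss => exact rg_all hn hf h (by tauto)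
    case G5s => exact rg_all hn hf h (by tauto)
    all_goals exact hM'.elim
  case G2 =>
    cases M'
    case G0 => exact gg_G0_corner h6 hf h' (by tauto)
    case G1 => exact gg_G1_G2 hn hf h' h
    case RG1 => exact rg_all hn hf h' (by tauto)
    case G2 => exact hne rfl
    case G3 => exact gg_G2_G3 hn hf h h'
    case G4 => exact gg_G2_G4 hn hf h h'
    case G4s => exact gg_G2_G4s hn hf h h'
    case G4ss => exact gg_G2_G4ss hn hf h h'
    case G5s => exact gg_G2_G5s hn hf h h'
    all_goals exact hM'.elim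
  case G3 =>
    cases M'
    case G0 => exact gg_G0_corner h6 hf h' (by tauto)
    case G1 => exact gg_G1_G3 h6 h' h
    case RG1 => exact rg_all hn hf h' (by tauto)
    case G2 => exact gg_G2_G3 hn hf h' h
    case G3 => exact hne rfl
    case G4 => exact gg_G3_G4 hn hf h h'
    case G4s => exact gg_G3_G4s hn hf h h'
    case G4ss => exact gg_G3_G4ss hn hf h h'
    case G5s => exact gg_G3_G5s h6 hf h h'
    all_goals exact hM'.elim
  case G4 =>
    cases M'
    case G0 => exact gg_G0_corner h6 hf h' (by tauto)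
    case G1 => exact gg_G1_corner h6 hf h' (by tauto)
    case RG1 => exact rg_all hn hf h' (by tauto)
    case G2 => exact gg_G2_G4 hn hf h' h
    case G3 => exact gg_G3_G4 hn hf h' h
    case G4 => exact hne rfl
    case G4s => exact gg_G4_G4s hn h h'
    case G4ss => exact gg_G4_G4ss hn h h'
    case G5s => exact gg_G4_G5s hn hf h h'
    all_goals exact hM'.elim
  case G4s =>
    cases M'
    case G0 => exact gg_G0_corner h6 hf h' (by tauto)
    case G1 => exact gg_G1_corner h6 hf h' (by tauto)
    case RG1 => exact rg_all hn hf h' (by tauto)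
    case G2 => exact gg_G2_G4s hn hf h' h
    case G3 => exact gg_G3_G4s hn hf h' h
    case G4 => exact gg_G4_G4s hn h' h
    case G4s => exact hne rfl
    case G4ss => exact gg_G4s_G4ss h6 h h'
    case G5s => exact gg_G4s_G5s hn hf h h'
    all_goals exact hM'.elim
  case G4ss =>
    cases M'
    case G0 => exact gg_G0_corner h6 hf h' (by tauto)
    case G1 => exact gg_G1_corner h6 hf h' (by tauto)
    case RG1 => exact rg_all hn hf h' (by tauto)
    case G2 => exact gg_G2_G4ss hn hf h' h
    case G3 => exact gg_G3_G4ss hn hf h' h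
    case G4 => exact gg_G4_G4ss hn h' h
    case G4s => exact gg_G4s_G4ss h6 h' h
    case G4ss => exact hne rfl
    case G5s => exact gg_G4ss_G5s hn hf h h'
    all_goals exact hM'.elim
  case G5s =>
    cases M'
    case G0 => exact gg_G0_corner h6 hf h' (by tauto)
    case G1 => exact gg_G1_corner h6 hf h' (by tauto)
    case RG1 => exact rg_all hn hf h' (by tauto)
    case G2 => exact gg_G2_G5s hn hf h' h
    case G3 => exact gg_G3_G5s h6 hf h' h
    case G4 => exact gg_G4_G5s hn hf h' h
    case G4s => exact gg_G4s_G5s hn hf h' h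
    case G4ss => exact gg_G4ss_G5s hn hf h' h
    case G5s => exact hne rfl
    all_goals exact hM'.elim
  all_goals exact hM.elim

theorem forward (hn : 5 < n) (hc : IsCostas n f) {M M' : Method} (hne : M ≠ M')
    (h : Produces M n f) (h' : Produces M' n f) :
    n = 7 ∧ ((M = .G2 ∧ M' = .RG1) ∨ (M = .RG1 ∧ M' = .G2)) ∧ vec 7 f ∈ four := by
  obtain ⟨f', hf⟩ := hc.exists_perm
  rcases Nat.lt_or_ge n 9 with h9 | h9
  · exact small_all (by omega) hf hne h h'
  · exfalso
    by_cases hM : IsG M <;> by_cases hM' : IsG M'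
    · exact gg h9 hf hM hM' hne h h'
    · exact wg h9 hf hM' hM h' h
    · exact wg h9 hf hM hM' h h'
    · exact ww hn hc hf hM hM' hne h h'

end Pool.Agent.Helper60.Costas
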