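import Pool.Agent.Helper60.Costas.Conv

/-!
Each Golomb-type method gives a Golomb structure.
-/

namespace Pool.Agent.Helper60.Costas

theorem GS_of {F : Type} [Field F] [Fintype F] {α β : F} {g : ℕ → ℕ} (h : IsG2 F α β g)
    {n : ℤ} {N a b : ℤ} (hN : N = (Fintype.card F : ℤ) - 1) {f : ℤ → ℤ} {E : ℤ → Prop}
    (hf : ∀ i, 1 ≤ i → i ≤ n → ¬ E i → 1 ≤ i + a ∧ i + a ≤ (Fintype.card F : ℤ) - 2 ∧
      f i = (g (i + a).toNat : ℤ) - b) : GS n f N a b α β E := by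
  refine ⟨hN ▸ h.1.hasOrd, hN ▸ h.2.1.hasOrd, ?_⟩
  intro i h1 h2 hE
  obtain ⟨h3, h4, h5⟩ := hf i h1 h2 hE
  obtain ⟨k, hk⟩ := Int.eq_ofNat_of_zero_le (by omega : 0 ≤ i + a)
  have h6 := (h.2.2 k (by omega) (by omega)).2.2
  rw [h5, hk]
  simp only [Int.toNat_natCast, sub_add_cancel, zpow_natCast]
  exact h6

theorem mem_Icc_of {n : ℕ} {i : ℤ} (h1 : 1 ≤ i) (h2 : i ≤ n) : i.toNat ∈ Set.Icc 1 n := by
  simp only [Set.mem_Icc]; omega

theorem prodG2 {n : ℕ} {f : ℕ → ℕ} (hn : 5 < n) (h : Produces .G2 n f) :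
    ∃ (F : Type) (_ : Field F) (_ : Fintype F) (α β : F), Fintype.card F = n + 2 ∧
      IsG2 F α β f ∧ GS (n : ℤ) (fz f) (n + 1) 0 0 α β (fun _ => False) := by
  obtain ⟨F, i1, i2, α, β, h1, h2⟩ := h
  have hc : Fintype.card F = n + 2 := by omega
  refine ⟨F, i1, i2, α, β, hc, h1, ?_⟩
  apply GS_of h1 (by rw [hc]; push_cast; ring)
  intro i h3 h4 _
  refine ⟨by omega, by rw [hc]; push_cast; omega, ?_⟩
  simp [fz]

theorem prodG3 {n : ℕ} {f : ℕ → ℕ} (hn : 5 < n) (h : Produces .G3 n f) :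
    ∃ (F : Type) (_ : Field F) (_ : Fintype F) (α β : F) (g : ℕ → ℕ), Fintype.card F = n + 3 ∧
      IsG2 F α β g ∧ α + β = 1 ∧ (∀ i ∈ Set.Icc 1 n, (f i : ℤ) = g (i + 1) - 1) ∧
      GS (n : ℤ) (fz f) (n + 2) 1 1 α β (fun _ => False) := by
  obtain ⟨F, i1, i2, α, β, g, h1, hab, h2, h5⟩ := h
  have hc : Fintype.card F = n + 3 := by omega
  refine ⟨F, i1, i2, α, β, g, hc, h1, hab, h5, ?_⟩
  apply GS_of h1 (by rw [hc]; push_cast; ring)
  intro i h3 h4 _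
  refine ⟨by omega, by rw [hc]; push_cast; omega, ?_⟩
  have := h5 i.toNat (mem_Icc_of h3 h4)
  rw [show (i + 1).toNat = i.toNat + 1 by omega]
  simpa [fz] using this

theorem prodG4 {n : ℕ} {f : ℕ → ℕ} (hn : 5 < n) (h : Produces .G4 n f) :
    ∃ (F : Type) (_ : Field F) (_ : Fintype F) (α β : F) (g : ℕ → ℕ), Fintype.card F = n + 4 ∧
      IsG2 F α β g ∧ (2 : F) = 0 ∧ α + β = 1 ∧
      (∀ i ∈ Set.Icc 1 n, (f i : ℤ) = g (i + 2) - 2) ∧
      GS (n : ℤ) (fz f) (n + 3) 2 2 α β (fun _ => False) := by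
  obtain ⟨F, i1, i2, α, β, g, h1, hch, hab, h2, h5⟩ := h
  have hc : Fintype.card F = n + 4 := by omega
  refine ⟨F, i1, i2, α, β, g, hc, h1, ?_, hab, h5, ?_⟩
  · exact_mod_cast CharP.cast_eq_zero F 2
  apply GS_of h1 (by rw [hc]; push_cast; ring)
  intro i h3 h4 _
  refine ⟨by omega, by rw [hc]; push_cast; omega, ?_⟩
  have := h5 i.toNat (mem_Icc_of h3 h4)
  rw [show (i + 2).toNat = i.toNat + 2 by omega]
  simpa [fz] using this

theorem two_ne_zero_of {F : Type} [Field F] (h : ¬ CharP F 2) : (2 : F) ≠ 0 := by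
  intro h2
  apply h
  obtain ⟨p, hp⟩ := CharP.exists F
  have hd : p ∣ 2 := (CharP.cast_eq_zero_iff F p 2).1 (by exact_mod_cast h2)
  have hp1 : p ≠ 1 := CharP.char_ne_one F p
  have : p = 2 := by
    rcases (Nat.dvd_prime Nat.prime_two).1 hd with h | h
    · exact absurd h hp1
    · exact h
  rw [← this]; exact hp

theorem mul_eq_neg_one {F : Type} [Field F] {α β : F} (hβ : β ≠ 0) (h1 : α + β = 1)
    (h2 : α ^ 2 + β⁻¹ = 1) (hα : α ≠ 0) : α * β = -1 := by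
  have h3 : α ^ 2 * β + 1 = β := by
    have := congrArg (· * β) h2
    simp only [add_mul, inv_mul_cancel₀ hβ, one_mul] at this
    exact this
  have h4 : α * (α * β + 1) = 0 := by linear_combination h3 + h1
  rcases mul_eq_zero.1 h4 with h | h
  · exact absurd h hα
  · linear_combination h

theorem prodG4s {n : ℕ} {f : ℕ → ℕ} (hn : 5 < n) (h : Produces .G4s n f) :
    ∃ (F : Type) (_ : Field F) (_ : Fintype F) (α β : F) (g : ℕ → ℕ), Fintype.card F = n + 4 ∧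
      IsG2 F α β g ∧ (2 : F) ≠ 0 ∧ α + β = 1 ∧ α * β = -1 ∧
      GS (n : ℤ) (fz f) (n + 3) 2 1 α β (fun _ => False) := by
  obtain ⟨F, i1, i2, α, β, g, h1, hch, hab, hab2, h2, h5⟩ := h
  have hc : Fintype.card F = n + 4 := by omega
  refine ⟨F, i1, i2, α, β, g, hc, h1, two_ne_zero_of hch, hab,
    mul_eq_neg_one h1.2.1.1 hab hab2 h1.1.1, ?_⟩
  apply GS_of h1 (by rw [hc]; push_cast; ring)
  intro i h3 h4 _
  refine ⟨by omega, by rw [hc]; push_cast; omega, ?_⟩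
  have := h5 i.toNat (mem_Icc_of h3 h4)
  rw [show (i + 2).toNat = i.toNat + 2 by omega]
  simpa [fz] using this

theorem prodG4ss {n : ℕ} {f : ℕ → ℕ} (hn : 5 < n) (h : Produces .G4ss n f) :
    ∃ (F : Type) (_ : Field F) (_ : Fintype F) (α : F) (g : ℕ → ℕ), Fintype.card F = n + 4 ∧
      IsG2 F α α g ∧ (2 : F) ≠ 0 ∧ α + α ^ 2 = 1 ∧
      (∀ i ∈ Set.Icc 1 n, (f i : ℤ) = g (i + 2) - 2) ∧
      GS (n : ℤ) (fz f) (n + 3) 2 2 α α (fun _ => False) := by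
  obtain ⟨F, i1, i2, α, β, g, h1, hch, rfl, hab2, h2, h5⟩ := h
  have hc : Fintype.card F = n + 4 := by omega
  refine ⟨F, i1, i2, β, g, hc, h1, two_ne_zero_of hch, hab2, h5, ?_⟩
  apply GS_of h1 (by rw [hc]; push_cast; ring)
  intro i h3 h4 _
  refine ⟨by omega, by rw [hc]; push_cast; omega, ?_⟩
  have := h5 i.toNat (mem_Icc_of h3 h4)
  rw [show (i + 2).toNat = i.toNat + 2 by omega]
  simpa [fz] using this

theorem prodG5s {n : ℕ} {f f' : ℕ → ℕ} (hn : 5 < n) (hf : IsPerm n (fz f) (fz f'))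
    (h : Produces .G5s n f) :
    ∃ (F : Type) (_ : Field F) (_ : Fintype F) (α β : F) (g : ℕ → ℕ), Fintype.card F = n + 5 ∧
      IsG2 F α β g ∧ α + β = 1 ∧ α * β = -1 ∧
      GS (n : ℤ) (fz f) (n + 4) 2 2 α β (fun _ => False) := by
  obtain ⟨F, i1, i2, α, β, g, h1, hab, hab2, h2, h5⟩ := h
  have hc : Fintype.card F = n + 5 := by omega
  refine ⟨F, i1, i2, α, β, g, hc, h1, hab,
    mul_eq_neg_one h1.2.1.1 hab hab2 h1.1.1, ?_⟩
  rcases h5 with h5 | h5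
  · apply GS_of h1 (by rw [hc]; push_cast; ring)
    intro i h3 h4 _
    refine ⟨by omega, by rw [hc]; push_cast; omega, ?_⟩
    have := h5 i.toNat (mem_Icc_of h3 h4)
    rw [show (i + 2).toNat = i.toNat + 2 by omega]
    simpa [fz] using this
  · exfalso
    have h6 := h5 n (by simp only [Set.mem_Icc]; omega)
    have h7 := h1.2.2 (n + 3) (by omega) (by omega)
    have h8 := hf.f1 n (by omega) (by omega)
    simp only [fz_natCast] at h8
    have oα := h1.1.hasOrd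
    have oβ := h1.2.1.hasOrd
    have e1 : β ^ (n + 3) = β⁻¹ := by
      rw [← zpow_natCast, ← zpow_neg_one, oβ.eq_iff, hc]
      exact ⟨1, by push_cast; ring⟩
    have e2 : α ^ ((g (n + 3) : ℕ) : ℤ) = α ^ (2 : ℤ) := by
      have h9 := h7.2.2
      rw [e1] at h9
      rw [zpow_natCast, show (2 : ℤ) = ((2 : ℕ) : ℤ) by norm_num, zpow_natCast]
      linear_combination h9 - hab2
    rw [oα.eq_iff] at e2
    have := eq_zero_of_dvd_of_lt e2 (by rw [hc]; push_cast; omega) (by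
      have := h7.2.1
      rw [hc] at *; push_cast; omega)
    omega

theorem prodG1 {n : ℕ} {f : ℕ → ℕ} (hn : 5 < n) (h : Produces .G1 n f) :
    ∃ (F : Type) (_ : Field F) (_ : Fintype F) (α β : F) (g : ℕ → ℕ), Fintype.card F = n + 1 ∧
      IsG2 F α β g ∧ f 1 = 1 ∧ (∀ i ∈ Set.Icc 2 n, f i = g (i - 1) + 1) ∧
      GS (n : ℤ) (fz f) n (-1) (-1) α β (fun i => i = 1) := by
  obtain ⟨F, i1, i2, α, β, g, h1, h2, h5, h6⟩ := h
  have hc : Fintype.card F = n + 1 := by omega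
  refine ⟨F, i1, i2, α, β, g, hc, h1, h5, h6, ?_⟩
  apply GS_of h1 (by rw [hc]; push_cast; ring)
  intro i h3 h4 hi
  refine ⟨by omega, by rw [hc]; push_cast; omega, ?_⟩
  have := h6 i.toNat (by simp only [Set.mem_Icc]; omega)
  rw [show (i + -1).toNat = i.toNat - 1 by omega]
  simp [fz, this]

theorem prodG0 {n : ℕ} {f : ℕ → ℕ} (hn : 5 < n) (h : Produces .G0 n f) :
    ∃ (F : Type) (_ : Field F) (_ : Fintype F) (α β : F) (g : ℕ → ℕ), Fintype.card F = n ∧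
      IsG2 F α β g ∧ f 1 = 1 ∧ f n = n ∧ (∀ i ∈ Set.Icc 2 (n - 1), f i = g (i - 1) + 1) ∧
      GS (n : ℤ) (fz f) (n - 1) (-1) (-1) α β (fun i => i = 1 ∨ i = n) := by
  obtain ⟨F, i1, i2, α, β, g, h1, h2, h5, h6, h7⟩ := h
  have hc : Fintype.card F = n := by omega
  refine ⟨F, i1, i2, α, β, g, hc, h1, h5, h7, h6, ?_⟩
  apply GS_of h1 (by rw [hc])
  intro i h3 h4 hi
  refine ⟨by omega, by rw [hc]; omega, ?_⟩
  have := h6 i.toNat (by simp only [Set.mem_Icc]; omega)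
  rw [show (i + -1).toNat = i.toNat - 1 by omega]
  simp [fz, this]

theorem prodRG1 {n : ℕ} {f : ℕ → ℕ} (hn : 5 < n) (h : Produces .RG1 n f) :
    ∃ (F : Type) (_ : Field F) (_ : Fintype F) (α β : F) (g : ℕ → ℕ) (t₁ t₂ : ℕ),
      Fintype.card F = n + 1 ∧ IsG2 F α β g ∧ 2 ≤ t₁ ∧ t₁ ≤ n - 1 ∧ 2 ≤ t₂ ∧ t₂ ≤ n - 1 ∧
      f t₁ = t₂ ∧
      (∀ i ∈ Set.Icc 1 n, i ≠ t₁ →
        (f i : ℤ) = ((g ((((i : ℤ) - t₁ - 1) % (n : ℤ)).toNat + 1) : ℤ)
          + t₂ - 1) % (n : ℤ) + 1) ∧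
      GS (n : ℤ) (fz f) n (-t₁) (-t₂) α β (fun i => i = t₁) := by
  obtain ⟨F, i1, i2, α, β, g, t₁, t₂, h1, a1, a2, a3, a4, h2, h5, h6⟩ := h
  have hc : Fintype.card F = n + 1 := by omega
  have hc' : (Fintype.card F : ℤ) - 1 = n := by rw [hc]; push_cast; ring
  rw [hc'] at h6
  refine ⟨F, i1, i2, α, β, g, t₁, t₂, hc, h1, a1, by omega, a3, by omega, h5, h6, ?_⟩
  have oα := h1.1.hasOrd
  have oβ := h1.2.1.hasOrd
  rw [hc'] at oα oβ
  refine ⟨oα, oβ, ?_⟩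
  intro i h3 h4 hi
  obtain ⟨k, rfl⟩ := Int.eq_ofNat_of_zero_le (by omega : 0 ≤ i)
  have h7 := h6 k (by simp only [Set.mem_Icc]; omega) (by intro h; exact hi (by exact_mod_cast h))
  have hnpos : (0 : ℤ) < n := by omega
  -- the residue
  have r1 := Int.emod_nonneg ((k : ℤ) - t₁ - 1) hnpos.ne'
  have r2 := Int.emod_lt_of_pos ((k : ℤ) - t₁ - 1) hnpos
  have r3 := Int.emod_add_mul_ediv ((k : ℤ) - t₁ - 1) n
  set r := ((k : ℤ) - t₁ - 1) % (n : ℤ) with hr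
  have hrn : r ≠ n - 1 := by
    intro h
    have h8 : (k : ℤ) - t₁ = n * (1 + ((k : ℤ) - t₁ - 1) / n) := by rw [h] at r3; linarith
    have h9 : (n : ℤ) ∣ (k : ℤ) - t₁ := ⟨_, h8⟩
    have := eq_zero_of_dvd_of_lt h9 (by omega) (by omega)
    exact hi (by omega)
  have h8 := h1.2.2 (r.toNat + 1) (by omega) (by omega)
  have h9 := h8.2.2
  rw [fz_natCast]
  have e1 : β ^ ((k : ℤ) + -t₁) = β ^ (r.toNat + 1) := by
    rw [← zpow_natCast, oβ.eq_iff]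
    refine ⟨((k : ℤ) - t₁ - 1) / n, ?_⟩
    push_cast
    rw [Int.toNat_of_nonneg r1]
    linarith
  have e2 : α ^ ((f k : ℤ) + -t₂) = α ^ (g (r.toNat + 1)) := by
    rw [← zpow_natCast, oα.eq_iff, h7]
    have := Int.emod_add_mul_ediv ((g (r.toNat + 1) : ℤ) + t₂ - 1) n
    refine ⟨-(((g (r.toNat + 1) : ℤ) + t₂ - 1) / n), ?_⟩
    linarith
  rw [e1, e2]; exact h9

end Pool.Agent.Helper60.Costas
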