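import Pool.Agent.Helper60.Costas.PairsW

/-!
Pairs of Golomb-type methods, general tools.
-/

namespace Pool.Agent.Helper60.Costas

/-! ### cardinalities of finite fields -/

theorem card_pp (F : Type) [Field F] [Fintype F] :
    ∃ p k : ℕ, p.Prime ∧ 0 < k ∧ Fintype.card F = p ^ k ∧ (p : F) = 0 := by
  obtain ⟨p, hp⟩ := CharP.exists F
  obtain ⟨k, hk1, hk2⟩ := FiniteField.card F p
  exact ⟨p, k, hk1, k.pos, hk2, CharP.cast_eq_zero F p⟩

theorem no_card {F : Type} [Field F] [Fintype F] {a b : ℕ} (ha : a.Prime) (hb : b.Prime)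
    (hab : a ≠ b) (h1 : a ∣ Fintype.card F) (h2 : b ∣ Fintype.card F) : False := by
  obtain ⟨p, k, hp, -, hk, -⟩ := card_pp F
  rw [hk] at h1 h2
  have e1 := (Nat.prime_dvd_prime_iff_eq ha hp).1 (ha.dvd_of_dvd_pow h1)
  have e2 := (Nat.prime_dvd_prime_iff_eq hb hp).1 (hb.dvd_of_dvd_pow h2)
  exact hab (e1.trans e2.symm)

theorem cast_zero_iff {F : Type} [Field F] [Fintype F] {a : ℕ} (ha : a.Prime) :
    (a : F) = 0 ↔ a ∣ Fintype.card F := by
  obtain ⟨p, k, hp, hk0, hk, hpF⟩ := card_pp F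
  obtain ⟨c, hc⟩ := CharP.exists F
  have hcp : c ∣ p := (CharP.cast_eq_zero_iff F c p).1 hpF
  have hc1 : c ≠ 1 := CharP.char_ne_one F c
  have hc2 : c = p := by
    rcases (Nat.dvd_prime hp).1 hcp with h | h
    · exact absurd h hc1
    · exact h
  subst hc2
  rw [CharP.cast_eq_zero_iff F c a, hk]
  constructor
  · intro h
    have := (Nat.prime_dvd_prime_iff_eq hp ha).1 h
    subst this
    exact dvd_pow_self _ hk0.ne'
  · intro h
    have := (Nat.prime_dvd_prime_iff_eq ha hp).1 (ha.dvd_of_dvd_pow h)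
    rw [this]

theorem card_pow_of {F : Type} [Field F] [Fintype F] {a : ℕ} (ha : a.Prime)
    (h : a ∣ Fintype.card F) : ∃ k, Fintype.card F = a ^ k := by
  obtain ⟨p, k, hp, hk0, hk, hpF⟩ := card_pp F
  rw [hk] at h
  have := (Nat.prime_dvd_prime_iff_eq ha hp).1 (ha.dvd_of_dvd_pow h)
  exact ⟨k, by rw [hk, this]⟩

theorem two_iff {F : Type} [Field F] [Fintype F] : (2 : F) = 0 ↔ 2 ∣ Fintype.card F := by
  have := cast_zero_iff (F := F) Nat.prime_two
  simpa using this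

theorem three_iff {F : Type} [Field F] [Fintype F] : (3 : F) = 0 ↔ 3 ∣ Fintype.card F := by
  have := cast_zero_iff (F := F) Nat.prime_three
  simpa using this

theorem four_dvd {F : Type} [Field F] [Fintype F] (h : 2 ∣ Fintype.card F)
    (h4 : 3 ≤ Fintype.card F) : 4 ∣ Fintype.card F := by
  obtain ⟨k, hk⟩ := card_pow_of Nat.prime_two h
  rw [hk] at h4 ⊢
  have : 2 ≤ k := by
    by_contra hlt
    have : k = 0 ∨ k = 1 := by omega
    rcases this with rfl | rfl <;> omega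
  exact pow_dvd_pow 2 this

/-! ### small algebraic consequences -/

section
variable {F : Type} [Field F] {α β : F} {N : ℤ}

theorem dvd6 (hα : HasOrd α N) (hβ : HasOrd β N) (h1 : α + β = 1) (h2 : α⁻¹ + β⁻¹ = 1) :
    N ∣ 6 := by
  have a0 := hα.1
  have b0 := hβ.1
  have h3 : α * β = 1 := by
    field_simp at h2
    linear_combination -h2 + h1
  have h4 : α ^ 2 = α - 1 := by linear_combination α * h1 - h3
  rw [← hα.2]
  have h5 : α ^ 3 = -1 := by linear_combination (α + 1) * h4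
  have : α ^ (6 : ℤ) = (α ^ 3) ^ 2 := by
    rw [← pow_mul]; exact_mod_cast rfl
  rw [this, h5]; ring

theorem dvd8 (hα : HasOrd α N) (h3 : (3 : F) = 0) (h1 : α ^ 2 = α + 1 ∨ α + α ^ 2 = 1) :
    N ∣ 8 := by
  rw [← hα.2]
  have h4 : α ^ 4 = -1 := by
    rcases h1 with h1 | h1
    · linear_combination (α ^ 2 + α + 2) * h1 + (α + 1) * h3
    · linear_combination (α ^ 2 - α + 2) * h1 + (1 - α) * h3
  have : α ^ (8 : ℤ) = (α ^ 4) ^ 2 := by
    rw [← pow_mul]; exact_mod_cast rfl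
  rw [this, h4]; ring

theorem sq_of (h1 : α + β = 1) (h2 : α * β = -1) : α ^ 2 = α + 1 := by
  linear_combination α * h1 - h2

theorem dvd4_G4s (hα : HasOrd α N) (h1 : α + β = 1) (h2 : α * β = -1)
    (h3 : α ^ 2 + β ^ 3 = 1) : N ∣ 4 := by
  have h4 := sq_of h1 h2
  have h5 : β = 1 - α := by linear_combination h1
  have h6 : α = 3 := by
    rw [h5] at h3
    linear_combination -h3 + (3 - α) * h4
  have h7 : (5 : F) = 0 := by
    rw [h6] at h4; linear_combination h4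
  rw [← hα.2, h6]
  have : ((3 : F) ^ (4 : ℤ)) = 3 ^ 4 := by exact_mod_cast rfl
  rw [this]
  linear_combination 16 * h7

theorem dvd4_G4ss (hα : HasOrd α N) (h1 : α + α ^ 2 = 1) (h3 : α ^ 3 + α ^ 3 = 1) : N ∣ 4 := by
  have h5 : 4 * α = 3 := by linear_combination h3 - (2 * α - 2) * h1
  have h7 : (5 : F) = 0 := by linear_combination (-4 * α - 7) * h5 + 16 * h1
  have h6 : α = 2 := by linear_combination 4 * h5 - (3 * α - 2) * h7
  rw [← hα.2, h6]
  have : ((2 : F) ^ (4 : ℤ)) = 2 ^ 4 := by exact_mod_cast rfl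
  rw [this]
  linear_combination 3 * h7

theorem three_G5s (h1 : α + β = 1) (h2 : α * β = -1) (h3 : α ^ 3 + β ^ 3 = 1) :
    (3 : F) = 0 := by
  have h5 : β = 1 - α := by linear_combination h1
  have h4 := sq_of h1 h2
  rw [h5] at h3
  linear_combination h3 - 3 * h4

theorem false_G4 (hα : α ≠ 0) (hβ : β ≠ 0) (h2 : (2 : F) = 0) (h1 : α + β = 1)
    (h3 : α ^ 3 + β ^ 3 = 1) : False := by
  have h5 : β = 1 - α := by linear_combination h1
  have h6 : α * β = 0 := by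
    rw [h5] at h3 ⊢
    linear_combination -h3 - (α - α ^ 2) * h2
  rcases mul_eq_zero.1 h6 with h | h
  · exact hα h
  · exact hβ h

end

/-! ### general position lemmas -/

section
variable {F F' : Type} [Field F] [Field F'] {n : ℤ} {f : ℤ → ℤ} {N a b N' a' b' : ℤ} {α β : F}
  {α' β' : F'} {E E' : ℤ → Prop}

theorem five_plain (X : GS n f N a b α β E) (G : GS n f N' a' b' α' β' E')
    (hf : ∀ i, 1 ≤ i → i ≤ n → 1 ≤ f i ∧ f i ≤ n) {s i₀ : ℤ}
    (hs : N' ∣ s + 2 * a') (hs' : ¬ N ∣ s + 2 * a) (hn : 9 ≤ n) (hN : n - 1 ≤ N)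
    (hN' : n - 1 ≤ N')
    (hS : ∀ i, i₀ ≤ i → i ≤ i₀ + 4 → Good n E s i ∧ Good n E' s i)
    (h0 : 1 ≤ i₀) (h1 : 2 * i₀ + 8 < s) (h2 : s ≤ n + 2) : False := by
  have := five X G hf hs hs' (by omega) hN' (by omega) (Finset.Icc i₀ (i₀ + 4))
    (fun i hi => by
      rw [Finset.mem_Icc] at hi
      exact hS i hi.1 hi.2)
    (fun i hi j hj hij => by
      rw [Finset.mem_Icc] at hi hj
      refine ⟨by omega, by omega, by omega, by omega⟩)
  rw [Int.card_Icc] at this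
  omega

theorem rg_general {t₁ t₂ : ℤ} (X : GS n f n (-t₁) (-t₂) α β (fun i => i = t₁))
    (G : GS n f N' a' b' α' β' E')
    (hf : ∀ i, 1 ≤ i → i ≤ n → 1 ≤ f i ∧ f i ≤ n) {s i₀ : ℤ} (hn : 9 ≤ n)
    (hN' : n - 1 ≤ N') (hE : ∀ i, i₀ ≤ i → i ≤ n + 1 - i₀ → ¬ E' i)
    (hs : N' ∣ s + 2 * a') (h0 : 1 ≤ i₀) (h1 : 2 * i₀ + 12 < s) (h2 : s ≤ n + 1) :
    n ∣ s - 2 * t₁ := by
  by_contra hcon
  have key := five X G hf hs (by rwa [show s + 2 * -t₁ = s - 2 * t₁ by ring])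
    (by omega) hN' (by omega)
    (Finset.Icc i₀ (i₀ + 6) \ {if t₁ ≤ s - t₁ then t₁ else s - t₁,
      (if t₁ ≤ s - t₁ then t₁ else s - t₁) - 1})
    (fun i hi => by
      rw [Finset.mem_sdiff, Finset.mem_Icc, Finset.mem_insert, Finset.mem_singleton] at hi
      obtain ⟨⟨g1, g2⟩, g3⟩ := hi
      push Not at g3
      have g4 : i ≠ t₁ ∧ i + 1 ≠ t₁ ∧ s - i ≠ t₁ ∧ s - i - 1 ≠ t₁ := by
        split_ifs at g3 <;> omega
      exact ⟨⟨⟨by omega, by omega, g4.1⟩, ⟨by omega, by omega, g4.2.1⟩,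
        ⟨by omega, by omega, g4.2.2.1⟩, ⟨by omega, by omega, g4.2.2.2⟩⟩,
        ⟨⟨by omega, by omega, hE _ (by omega) (by omega)⟩,
          ⟨by omega, by omega, hE _ (by omega) (by omega)⟩,
          ⟨by omega, by omega, hE _ (by omega) (by omega)⟩,
          ⟨by omega, by omega, hE _ (by omega) (by omega)⟩⟩⟩)
    (fun i hi j hj hij => by
      rw [Finset.mem_sdiff, Finset.mem_Icc] at hi hj
      refine ⟨by omega, by omega, by omega, by omega⟩)
  have h3 := Finset.le_card_sdiff ({if t₁ ≤ s - t₁ then t₁ else s - t₁,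
      (if t₁ ≤ s - t₁ then t₁ else s - t₁) - 1} : Finset ℤ) (Finset.Icc i₀ (i₀ + 6))
  have h4 := Finset.card_le_two (a := if t₁ ≤ s - t₁ then t₁ else s - t₁)
    (b := (if t₁ ≤ s - t₁ then t₁ else s - t₁) - 1)
  rw [Int.card_Icc] at h3
  omega

theorem neg_one_of_half {N x : ℤ} {γ : F} (hγ : HasOrd γ N) (h1 : N ∣ 2 * x) (h2 : ¬ N ∣ x) :
    γ ^ x = -1 := by
  have h3 : (γ ^ x - 1) * (γ ^ x + 1) = 0 := by
    have : γ ^ (2 * x) = 1 := (hγ.2 _).2 h1
    have h4 : γ ^ (2 * x) = γ ^ x * γ ^ x := by rw [two_mul, zpow_add₀ hγ.1]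
    linear_combination this - h4
  rcases mul_eq_zero.1 h3 with h | h
  · exact absurd ((hγ.2 _).1 (by linear_combination h)) h2
  · linear_combination h

/-- a dot at the centre of both reflections forces characteristic three -/
theorem centre {t₁ t₂ : ℤ} (G : GS n f N' a' b' α' β' E') (ht : Ok n E' t₁)
    (h1 : N' ∣ 2 * (t₁ + a')) (h1' : ¬ N' ∣ t₁ + a') (h2 : N' ∣ 2 * (t₂ + b'))
    (h2' : ¬ N' ∣ t₂ + b') (hft : f t₁ = t₂) : (3 : F') = 0 := by
  have e1 := G.eq' ht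
  rw [hft, neg_one_of_half G.oα h2 h2', neg_one_of_half G.oβ h1 h1'] at e1
  linear_combination -e1

end

end Pool.Agent.Helper60.Costas
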