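import Pool.Agent.Helper60.Costas.PairsG

/-!
Pairs of Golomb-type methods (without `RG_1`), orders `n ≥ 9`.
-/

namespace Pool.Agent.Helper60.Costas

theorem not_dvd_of {N x : ℤ} (h1 : 0 < x) (h2 : x < N) : ¬ N ∣ x := by
  intro h
  have := Int.le_of_dvd h1 h
  omega

theorem not_dvd_add {N x y : ℤ} (hy : y = N + x) (h1 : 0 < x) (h2 : x < N) : ¬ N ∣ y := by
  intro h
  have : N ∣ x := by
    have := Int.dvd_sub h (dvd_refl N)
    rwa [hy, add_sub_cancel_left] at this
  exact not_dvd_of h1 h2 this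

theorem no_card' {F : Type} [Field F] [Fintype F] (h : Fintype.card F = 10 ∨
    Fintype.card F = 12 ∨ Fintype.card F = 14 ∨ Fintype.card F = 15 ∨ Fintype.card F = 18 ∨
    Fintype.card F = 6) : False := by
  rcases h with h | h | h | h | h | h
  · exact no_card (F := F) Nat.prime_two Nat.prime_five (by norm_num) (by rw [h]; norm_num)
      (by rw [h]; norm_num)
  · exact no_card (F := F) Nat.prime_two Nat.prime_three (by norm_num) (by rw [h]; norm_num)
      (by rw [h]; norm_num)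
  · exact no_card (F := F) Nat.prime_two (b := 7) (by norm_num) (by norm_num)
      (by rw [h]; norm_num) (by rw [h]; norm_num)
  · exact no_card (F := F) Nat.prime_three Nat.prime_five (by norm_num) (by rw [h]; norm_num)
      (by rw [h]; norm_num)
  · exact no_card (F := F) Nat.prime_two Nat.prime_three (by norm_num) (by rw [h]; norm_num)
      (by rw [h]; norm_num)
  · exact no_card (F := F) Nat.prime_two Nat.prime_three (by norm_num) (by rw [h]; norm_num)
      (by rw [h]; norm_num)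

section
variable {n : ℕ} {f f' : ℕ → ℕ}

theorem gg_G0_G1 (hn : 9 ≤ n) (hf : IsPerm n (fz f) (fz f'))
    (h1 : Produces .G0 n f) (h2 : Produces .G1 n f) : False := by
  obtain ⟨F, i1, i2, α, β, g, c1, -, -, -, -, X⟩ := prodG0 (by omega) h1
  obtain ⟨F', j1, j2, α', β', g', c2, -, -, -, G⟩ := prodG1 (by omega) h2
  by_cases hb : n ≤ 12
  · interval_cases n
    · exact no_card' (F := F') (by omega)
    · exact no_card' (F := F) (by omega)
    · exact no_card' (F := F') (by omega)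
    · exact no_card' (F := F) (by omega)
  · apply five_plain X G (fun i a b => ⟨hf.f1 i a b, hf.f2 i a b⟩) (s := n + 2) (i₀ := 3)
      ⟨1, by ring⟩ (not_dvd_add (x := 1) (by ring) (by omega) (by omega)) (by omega) (by omega)
      (by omega) _ (by omega) (by omega) (by omega)
    intro i h3 h4
    refine ⟨⟨⟨?_, ?_, ?_⟩, ⟨?_, ?_, ?_⟩, ⟨?_, ?_, ?_⟩, ⟨?_, ?_, ?_⟩⟩,
      ⟨⟨?_, ?_, ?_⟩, ⟨?_, ?_, ?_⟩, ⟨?_, ?_, ?_⟩, ⟨?_, ?_, ?_⟩⟩⟩ <;> omega

theorem gg_G1_G2 (hn : 9 ≤ n) (hf : IsPerm n (fz f) (fz f'))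
    (h2 : Produces .G1 n f) (h1 : Produces .G2 n f) : False := by
  obtain ⟨F, i1, i2, α, β, c1, -, X⟩ := prodG2 (by omega) h1
  obtain ⟨F', j1, j2, α', β', g', c2, -, -, -, G⟩ := prodG1 (by omega) h2
  by_cases hb : n ≤ 10
  · interval_cases n
    · exact no_card' (F := F') (by omega)
    · exact no_card' (F := F) (by omega)
  · apply five_plain X G (fun i a b => ⟨hf.f1 i a b, hf.f2 i a b⟩) (s := n + 2) (i₀ := 2)
      ⟨1, by ring⟩ (not_dvd_add (x := 1) (by ring) (by omega) (by omega)) (by omega) (by omega)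
      (by omega) _ (by omega) (by omega) (by omega)
    intro i h3 h4
    refine ⟨⟨⟨?_, ?_, fun h => h⟩, ⟨?_, ?_, fun h => h⟩, ⟨?_, ?_, fun h => h⟩,
      ⟨?_, ?_, fun h => h⟩⟩,
      ⟨⟨?_, ?_, ?_⟩, ⟨?_, ?_, ?_⟩, ⟨?_, ?_, ?_⟩, ⟨?_, ?_, ?_⟩⟩⟩ <;> omega

/-- two exception-free structures, reflection `s` of the second -/
theorem five_noexc {F F' : Type} [Field F] [Field F'] {n : ℤ} {f : ℤ → ℤ} {N a b N' a' b' : ℤ}
    {α β : F} {α' β' : F'} (X : GS n f N a b α β (fun _ => False))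
    (G : GS n f N' a' b' α' β' (fun _ => False))
    (hf : ∀ i, 1 ≤ i → i ≤ n → 1 ≤ f i ∧ f i ≤ n) {s : ℤ}
    (hs : N' ∣ s + 2 * a') (hs' : ¬ N ∣ s + 2 * a) (hn : 9 ≤ n) (hN : n - 1 ≤ N)
    (hN' : n - 1 ≤ N') (h1 : 10 < s) (h2 : s ≤ n + 1) : False := by
  apply five_plain X G hf hs hs' hn hN hN' (i₀ := 1) _ (by omega) (by omega) (by omega)
  intro i h3 h4
  refine ⟨⟨⟨?_, ?_, fun h => h⟩, ⟨?_, ?_, fun h => h⟩, ⟨?_, ?_, fun h => h⟩,
      ⟨?_, ?_, fun h => h⟩⟩,
      ⟨⟨?_, ?_, fun h => h⟩, ⟨?_, ?_, fun h => h⟩, ⟨?_, ?_, fun h => h⟩,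
      ⟨?_, ?_, fun h => h⟩⟩⟩ <;> omega

theorem gg_G2_G3 (hn : 9 ≤ n) (hf : IsPerm n (fz f) (fz f'))
    (h1 : Produces .G2 n f) (h2 : Produces .G3 n f) : False := by
  obtain ⟨F, i1, i2, α, β, c1, -, G⟩ := prodG2 (by omega) h1
  obtain ⟨F', j1, j2, α', β', g', c2, -, -, -, X⟩ := prodG3 (by omega) h2
  by_cases hb : n ≤ 9
  · exact no_card' (F := F') (by omega)
  · exact five_noexc X G (fun i a b => ⟨hf.f1 i a b, hf.f2 i a b⟩) (s := n + 1)
      ⟨1, by ring⟩ (not_dvd_add (x := 1) (by ring) (by omega) (by omega)) (by omega) (by omega)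
      (by omega) (by omega) (by omega)

theorem gg_G2_G4 (hn : 9 ≤ n) (hf : IsPerm n (fz f) (fz f'))
    (h1 : Produces .G2 n f) (h2 : Produces .G4 n f) : False := by
  obtain ⟨F, i1, i2, α, β, c1, -, G⟩ := prodG2 (by omega) h1
  obtain ⟨F', j1, j2, α', β', g', c2, -, k2, -, -, X⟩ := prodG4 (by omega) h2
  by_cases hb : n ≤ 9
  · have := two_iff.1 k2
    omega
  · exact five_noexc X G (fun i a b => ⟨hf.f1 i a b, hf.f2 i a b⟩) (s := n + 1)
      ⟨1, by ring⟩ (not_dvd_add (x := 2) (by ring) (by omega) (by omega)) (by omega) (by omega)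
      (by omega) (by omega) (by omega)

theorem no_root13 {F : Type} [Field F] [Fintype F] (h : Fintype.card F = 13) (x : F) :
    x ^ 2 ≠ x + 1 ∧ x + x ^ 2 ≠ 1 := by
  have e := ZMod.ringEquivOfPrime F (p := 13) (by norm_num) h
  have key : ∀ y : ZMod 13, y ^ 2 ≠ y + 1 ∧ y + y ^ 2 ≠ 1 := by decide
  have := key (e.symm x)
  constructor
  · intro h1
    apply this.1
    have := congrArg e.symm h1
    simpa using this
  · intro h1
    apply this.2
    have := congrArg e.symm h1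
    simpa using this

theorem no_root17 {F : Type} [Field F] [Fintype F] (h : Fintype.card F = 17) (x : F) :
    x ^ 2 ≠ x + 1 ∧ x + x ^ 2 ≠ 1 := by
  have e := ZMod.ringEquivOfPrime F (p := 17) (by norm_num) h
  have key : ∀ y : ZMod 17, y ^ 2 ≠ y + 1 ∧ y + y ^ 2 ≠ 1 := by decide
  have := key (e.symm x)
  constructor
  · intro h1
    apply this.1
    have := congrArg e.symm h1
    simpa using this
  · intro h1
    apply this.2
    have := congrArg e.symm h1
    simpa using this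

theorem gg_G2_G4s (hn : 9 ≤ n) (hf : IsPerm n (fz f) (fz f'))
    (h1 : Produces .G2 n f) (h2 : Produces .G4s n f) : False := by
  obtain ⟨F, i1, i2, α, β, c1, -, G⟩ := prodG2 (by omega) h1
  obtain ⟨F', j1, j2, α', β', g', c2, -, k2, k3, k4, X⟩ := prodG4s (by omega) h2
  by_cases hb : n ≤ 9
  · exact (no_root13 (F := F') (by omega) α').1 (sq_of k3 k4)
  · exact five_noexc X G (fun i a b => ⟨hf.f1 i a b, hf.f2 i a b⟩) (s := n + 1)
      ⟨1, by ring⟩ (not_dvd_add (x := 2) (by ring) (by omega) (by omega)) (by omega) (by omega)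
      (by omega) (by omega) (by omega)

theorem gg_G2_G4ss (hn : 9 ≤ n) (hf : IsPerm n (fz f) (fz f'))
    (h1 : Produces .G2 n f) (h2 : Produces .G4ss n f) : False := by
  obtain ⟨F, i1, i2, α, β, c1, -, G⟩ := prodG2 (by omega) h1
  obtain ⟨F', j1, j2, α', g', c2, -, k2, k3, -, X⟩ := prodG4ss (by omega) h2
  by_cases hb : n ≤ 9
  · exact (no_root13 (F := F') (by omega) α').2 k3
  · exact five_noexc X G (fun i a b => ⟨hf.f1 i a b, hf.f2 i a b⟩) (s := n + 1)
      ⟨1, by ring⟩ (not_dvd_add (x := 2) (by ring) (by omega) (by omega)) (by omega) (by omega)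
      (by omega) (by omega) (by omega)

theorem gg_G2_G5s (hn : 9 ≤ n) (hf : IsPerm n (fz f) (fz f'))
    (h1 : Produces .G2 n f) (h2 : Produces .G5s n f) : False := by
  obtain ⟨F, i1, i2, α, β, c1, -, G⟩ := prodG2 (by omega) h1
  obtain ⟨F', j1, j2, α', β', g', c2, -, k3, k4, X⟩ := prodG5s (by omega) hf h2
  by_cases hb : n ≤ 9
  · exact no_card' (F := F') (by omega)
  · exact five_noexc X G (fun i a b => ⟨hf.f1 i a b, hf.f2 i a b⟩) (s := n + 1)
      ⟨1, by ring⟩ (not_dvd_add (x := 1) (by ring) (by omega) (by omega)) (by omega) (by omega)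
      (by omega) (by omega) (by omega)

theorem gg_G3_G4 (hn : 9 ≤ n) (hf : IsPerm n (fz f) (fz f'))
    (h1 : Produces .G3 n f) (h2 : Produces .G4 n f) : False := by
  obtain ⟨F, i1, i2, α, β, g, c1, -, -, -, G⟩ := prodG3 (by omega) h1
  obtain ⟨F', j1, j2, α', β', g', c2, -, k2, -, -, X⟩ := prodG4 (by omega) h2
  by_cases hb : n ≤ 10
  · interval_cases n
    · exact no_card' (F := F) (by omega)
    · exact no_card' (F := F') (by omega)
  · exact five_noexc X G (fun i a b => ⟨hf.f1 i a b, hf.f2 i a b⟩) (s := n)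
      ⟨1, by ring⟩ (not_dvd_add (x := 1) (by ring) (by omega) (by omega)) (by omega) (by omega)
      (by omega) (by omega) (by omega)

theorem gg_G3_G4s (hn : 9 ≤ n) (hf : IsPerm n (fz f) (fz f'))
    (h1 : Produces .G3 n f) (h2 : Produces .G4s n f) : False := by
  obtain ⟨F, i1, i2, α, β, g, c1, -, -, -, G⟩ := prodG3 (by omega) h1
  obtain ⟨F', j1, j2, α', β', g', c2, -, k2, k3, k4, X⟩ := prodG4s (by omega) h2
  by_cases hb : n ≤ 10
  · interval_cases n
    · exact no_card' (F := F) (by omega)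
    · exact no_card' (F := F') (by omega)
  · exact five_noexc X G (fun i a b => ⟨hf.f1 i a b, hf.f2 i a b⟩) (s := n)
      ⟨1, by ring⟩ (not_dvd_add (x := 1) (by ring) (by omega) (by omega)) (by omega) (by omega)
      (by omega) (by omega) (by omega)

theorem gg_G3_G4ss (hn : 9 ≤ n) (hf : IsPerm n (fz f) (fz f'))
    (h1 : Produces .G3 n f) (h2 : Produces .G4ss n f) : False := by
  obtain ⟨F, i1, i2, α, β, g, c1, -, -, -, G⟩ := prodG3 (by omega) h1
  obtain ⟨F', j1, j2, α', g', c2, -, k2, k3, -, X⟩ := prodG4ss (by omega) h2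
  by_cases hb : n ≤ 10
  · interval_cases n
    · exact no_card' (F := F) (by omega)
    · exact no_card' (F := F') (by omega)
  · exact five_noexc X G (fun i a b => ⟨hf.f1 i a b, hf.f2 i a b⟩) (s := n)
      ⟨1, by ring⟩ (not_dvd_add (x := 1) (by ring) (by omega) (by omega)) (by omega) (by omega)
      (by omega) (by omega) (by omega)

theorem gg_G4_G5s (hn : 9 ≤ n) (hf : IsPerm n (fz f) (fz f'))
    (h2 : Produces .G4 n f) (h1 : Produces .G5s n f) : False := by
  obtain ⟨F, i1, i2, α, β, g, c1, -, -, -, G⟩ := prodG5s (by omega) hf h1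
  obtain ⟨F', j1, j2, α', β', g', c2, -, k2, -, -, X⟩ := prodG4 (by omega) h2
  by_cases hb : n ≤ 10
  · interval_cases n
    · exact no_card' (F := F) (by omega)
    · exact no_card' (F := F') (by omega)
  · exact five_noexc X G (fun i a b => ⟨hf.f1 i a b, hf.f2 i a b⟩) (s := n)
      ⟨1, by ring⟩ (not_dvd_add (x := 1) (by ring) (by omega) (by omega)) (by omega) (by omega)
      (by omega) (by omega) (by omega)

theorem gg_G4_G4s (hn : 9 ≤ n) (h1 : Produces .G4 n f) (h2 : Produces .G4s n f) : False := by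
  obtain ⟨F, i1, i2, α, β, g, c1, -, k1, -⟩ := prodG4 (by omega) h1
  obtain ⟨F', j1, j2, α', β', g', c2, -, k2, -⟩ := prodG4s (by omega) h2
  rw [two_iff, c1] at k1
  rw [Ne, two_iff, c2] at k2
  exact k2 k1

theorem gg_G4_G4ss (hn : 9 ≤ n) (h1 : Produces .G4 n f) (h2 : Produces .G4ss n f) : False := by
  obtain ⟨F, i1, i2, α, β, g, c1, -, k1, -⟩ := prodG4 (by omega) h1
  obtain ⟨F', j1, j2, α', g', c2, -, k2, -⟩ := prodG4ss (by omega) h2
  rw [two_iff, c1] at k1
  rw [Ne, two_iff, c2] at k2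
  exact k2 k1

theorem G5s_two_ne {F : Type} [Field F] {α β : F} {N : ℤ} (hN : 4 ≤ N)
    (hα : HasOrd α N) (h1 : α + β = 1) (h2 : α * β = -1) : (2 : F) ≠ 0 := by
  intro h
  have h3 := sq_of h1 h2
  have h4 : α ^ (3 : ℤ) = 1 := by
    have : α ^ (3 : ℤ) = α ^ 3 := by exact_mod_cast rfl
    rw [this]
    linear_combination (α + 1) * h3 + α * h
  rw [hα.2] at h4
  have := Int.le_of_dvd (by norm_num) h4
  omega

theorem gg_G4s_G5s (hn : 9 ≤ n) (hf : IsPerm n (fz f) (fz f'))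
    (h2 : Produces .G4s n f) (h1 : Produces .G5s n f) : False := by
  obtain ⟨F, i1, i2, α, β, g, c1, -, k1, k2, G⟩ := prodG5s (by omega) hf h1
  obtain ⟨F', j1, j2, α', β', g', c2, -, k3, -⟩ := prodG4s (by omega) h2
  have k4 := G5s_two_ne (by omega) G.oα k1 k2
  rw [Ne, two_iff, c1] at k4
  rw [Ne, two_iff, c2] at k3
  omega

theorem gg_G4ss_G5s (hn : 9 ≤ n) (hf : IsPerm n (fz f) (fz f'))
    (h2 : Produces .G4ss n f) (h1 : Produces .G5s n f) : False := by
  obtain ⟨F, i1, i2, α, β, g, c1, -, k1, k2, G⟩ := prodG5s (by omega) hf h1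
  obtain ⟨F', j1, j2, α', g', c2, -, k3, -⟩ := prodG4ss (by omega) h2
  have k4 := G5s_two_ne (by omega) G.oα k1 k2
  rw [Ne, two_iff, c1] at k4
  rw [Ne, two_iff, c2] at k3
  omega

/-! ### corner pairs -/

theorem zpow_pred {F : Type} [Field F] {α : F} {N k : ℤ} (h : HasOrd α N) (hk : k = N - 1) :
    α ^ k = α⁻¹ := by
  rw [← zpow_neg_one, h.eq_iff]
  exact ⟨1, by rw [hk]; ring⟩

theorem fz_one (h : f 1 = 1) : fz f 1 = 1 := by
  have := fz_natCast f 1
  rw [h] at this; exact_mod_cast this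

theorem corner_G2 (hn : 6 ≤ n) (h1 : f 1 = 1) (h2 : f n = n) (h : Produces .G2 n f) :
    False := by
  obtain ⟨F, i1, i2, α, β, c1, -, G⟩ := prodG2 (by omega) h
  have e1 := G.eq 1 (by omega) (by omega) (fun h => h)
  have e2 := G.eq n (by omega) (by omega) (fun h => h)
  rw [fz_one h1] at e1
  rw [fz_natCast, h2] at e2
  simp only [add_zero, zpow_one] at e1 e2
  rw [zpow_pred G.oα (by ring), zpow_pred G.oβ (by ring)] at e2
  have := dvd6 G.oα G.oβ e1 e2
  have := Int.le_of_dvd (by norm_num) this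
  omega

theorem corner_G3 (hn : 6 ≤ n) (h2 : f n = n) (h : Produces .G3 n f) :
    False := by
  obtain ⟨F, i1, i2, α, β, g, c1, -, e1, -, G⟩ := prodG3 (by omega) h
  have e2 := G.eq n (by omega) (by omega) (fun h => h)
  rw [fz_natCast, h2] at e2
  rw [zpow_pred G.oα (by ring), zpow_pred G.oβ (by ring)] at e2
  have := dvd6 G.oα G.oβ e1 e2
  have := Int.le_of_dvd (by norm_num) this
  omega

theorem corner_G4 (hn : 6 ≤ n) (h1 : f 1 = 1) (h : Produces .G4 n f) : False := by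
  obtain ⟨F, i1, i2, α, β, g, c1, -, k2, e1, -, G⟩ := prodG4 (by omega) h
  have e2 := G.eq 1 (by omega) (by omega) (fun h => h)
  rw [fz_one h1] at e2
  have e3 : ∀ γ : F, γ ^ ((1 : ℤ) + 2) = γ ^ 3 := by intro γ; exact_mod_cast rfl
  rw [e3, e3] at e2
  exact false_G4 G.oα.1 G.oβ.1 k2 e1 e2

theorem corner_G4s (hn : 6 ≤ n) (h1 : f 1 = 1) (h : Produces .G4s n f) : False := by
  obtain ⟨F, i1, i2, α, β, g, c1, -, k2, e1, e1', G⟩ := prodG4s (by omega) h
  have e2 := G.eq 1 (by omega) (by omega) (fun h => h)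
  rw [fz_one h1] at e2
  have e3 : β ^ ((1 : ℤ) + 2) = β ^ 3 := by exact_mod_cast rfl
  have e4 : α ^ ((1 : ℤ) + 1) = α ^ 2 := by exact_mod_cast rfl
  rw [e3, e4] at e2
  have := dvd4_G4s G.oα e1 e1' e2
  have := Int.le_of_dvd (by norm_num) this
  omega

theorem corner_G4ss (hn : 6 ≤ n) (h1 : f 1 = 1) (h : Produces .G4ss n f) : False := by
  obtain ⟨F, i1, i2, α, g, c1, -, k2, e1, -, G⟩ := prodG4ss (by omega) h
  have e2 := G.eq 1 (by omega) (by omega) (fun h => h)
  rw [fz_one h1] at e2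
  have e3 : ∀ γ : F, γ ^ ((1 : ℤ) + 2) = γ ^ 3 := by intro γ; exact_mod_cast rfl
  rw [e3] at e2
  have := dvd4_G4ss G.oα e1 e2
  have := Int.le_of_dvd (by norm_num) this
  omega

theorem corner_G5s (hn : 6 ≤ n) (hf : IsPerm n (fz f) (fz f')) (h1 : f 1 = 1)
    (h : Produces .G5s n f) : False := by
  obtain ⟨F, i1, i2, α, β, g, c1, -, e1, e1', G⟩ := prodG5s (by omega) hf h
  have e2 := G.eq 1 (by omega) (by omega) (fun h => h)
  rw [fz_one h1] at e2
  have e3 : ∀ γ : F, γ ^ ((1 : ℤ) + 2) = γ ^ 3 := by intro γ; exact_mod_cast rfl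
  rw [e3, e3] at e2
  have := dvd8 G.oα (three_G5s e1 e1' e2) (Or.inl (sq_of e1 e1'))
  have := Int.le_of_dvd (by norm_num) this
  omega

theorem gg_G1_G3 (hn : 6 ≤ n) (h1 : Produces .G1 n f) (h2 : Produces .G3 n f) : False := by
  obtain ⟨F, i1, i2, α, β, g, c1, -, k1, -⟩ := prodG1 (by omega) h1
  obtain ⟨F', j1, j2, α', β', g', c2, -, k3, -, G⟩ := prodG3 (by omega) h2
  have e2 := G.eq 1 (by omega) (by omega) (fun h => h)
  rw [fz_one k1] at e2
  have e3 : ∀ γ : F', γ ^ ((1 : ℤ) + 1) = γ ^ 2 := by intro γ; exact_mod_cast rfl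
  rw [e3, e3] at e2
  have h2' : (2 : F') = 0 := by
    have : (2 * α') * β' = 0 := by linear_combination (α' + β' + 1) * k3 - e2
    rcases mul_eq_zero.1 this with h | h
    · rcases mul_eq_zero.1 h with h | h
      · exact h
      · exact absurd h G.oα.1
    · exact absurd h G.oβ.1
  rw [two_iff] at h2'
  have d1 := four_dvd h2' (by omega)
  have d2 : 2 ∣ Fintype.card F := by omega
  have d3 := four_dvd d2 (by omega)
  omega

theorem gg_G0_corner (hn : 6 ≤ n) (hf : IsPerm n (fz f) (fz f')) (h : Produces .G0 n f)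
    (h' : Produces .G2 n f ∨ Produces .G3 n f ∨ Produces .G4 n f ∨ Produces .G4s n f ∨
      Produces .G4ss n f ∨ Produces .G5s n f) : False := by
  obtain ⟨F, i1, i2, α, β, g, c1, -, k1, k2, -⟩ := prodG0 (by omega) h
  rcases h' with h | h | h | h | h | h
  · exact corner_G2 hn k1 k2 h
  · exact corner_G3 hn k2 h
  · exact corner_G4 hn k1 h
  · exact corner_G4s hn k1 h
  · exact corner_G4ss hn k1 h
  · exact corner_G5s hn hf k1 h

theorem gg_G1_corner (hn : 6 ≤ n) (hf : IsPerm n (fz f) (fz f')) (h : Produces .G1 n f)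
    (h' : Produces .G4 n f ∨ Produces .G4s n f ∨
      Produces .G4ss n f ∨ Produces .G5s n f) : False := by
  obtain ⟨F, i1, i2, α, β, g, c1, -, k1, -⟩ := prodG1 (by omega) h
  rcases h' with h | h | h | h
  · exact corner_G4 hn k1 h
  · exact corner_G4s hn k1 h
  · exact corner_G4ss hn k1 h
  · exact corner_G5s hn hf k1 h

end

end Pool.Agent.Helper60.Costas
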