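import Pool.Agent.Helper60.Costas.PairsI

/-!
Pairs with `RG_1`: generic orders.
-/

namespace Pool.Agent.Helper60.Costas

theorem pow3_mod8 (k : ℕ) : 3 ^ k % 8 = 1 ∨ 3 ^ k % 8 = 3 := by
  induction k with
  | zero => left; rfl
  | succ k ih => rw [pow_succ]; omega

theorem pow3_mod80 (k : ℕ) : 3 ^ k % 80 = 1 ∨ 3 ^ k % 80 = 3 ∨ 3 ^ k % 80 = 9 ∨
    3 ^ k % 80 = 27 := by
  induction k with
  | zero => left; rfl
  | succ k ih => rw [pow_succ]; omega

theorem pow2_large {k : ℕ} (h : 9 ≤ 2 ^ k) : 16 ∣ 2 ^ k := by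
  have : 4 ≤ k := by
    by_contra hlt
    have : k ≤ 3 := by omega
    have := Nat.pow_le_pow_right (n := 2) (by norm_num) this
    omega
  exact pow_dvd_pow 2 this

theorem pow2_five (k : ℕ) : ¬ 5 ∣ 2 ^ k := by
  intro h
  have := (by norm_num : Nat.Prime 5).dvd_of_dvd_pow h
  omega

/-- everything known about `f` and its inverse from `RG_1` -/
structure RGData {F : Type} [Field F] (n : ℤ) (f g : ℤ → ℤ) (t₁ t₂ : ℤ) (α β : F) : Prop where
  h1 : 2 ≤ t₁
  h1' : t₁ ≤ n - 1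
  h2 : 2 ≤ t₂
  h2' : t₂ ≤ n - 1
  ft : f t₁ = t₂
  X : GS n f n (-t₁) (-t₂) α β (fun i => i = t₁)
  Y : GS n g n (-t₂) (-t₁) β α (fun i => i = t₂)

theorem prodRG1' {n : ℕ} {f f' : ℕ → ℕ} (hn : 5 < n) (hf : IsPerm n (fz f) (fz f'))
    (h : Produces .RG1 n f) :
    ∃ (F : Type) (_ : Field F) (_ : Fintype F) (α β : F) (t₁ t₂ : ℤ),
      Fintype.card F = n + 1 ∧ RGData n (fz f) (fz f') t₁ t₂ α β := by
  obtain ⟨F, i1, i2, α, β, g, t₁, t₂, c1, -, a1, a2, a3, a4, a5, -, X⟩ := prodRG1 hn h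
  refine ⟨F, i1, i2, α, β, t₁, t₂, c1, by omega, by omega, by omega, by omega,
    by rw [fz_natCast, a5], X, (X.transpose hf).mono ?_⟩
  intro j h1 h2 h3
  have := hf.gf j h1 h2
  rw [h3, fz_natCast, a5] at this
  exact this.symm

section
variable {n : ℕ} {f f' : ℕ → ℕ}

theorem rg_G0 (hn : 16 ≤ n) (hf : IsPerm n (fz f) (fz f'))
    (h1 : Produces .RG1 n f) (h2 : Produces .G0 n f) : False := by
  obtain ⟨F, i1, i2, α, β, t₁, t₂, c1, R⟩ := prodRG1' (by omega) hf h1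
  obtain ⟨F', j1, j2, α', β', g', c2, -, k1, k2, -, G⟩ := prodG0 (by omega) h2
  have l1 := R.h1
  have l1' := R.h1'
  have l2 := R.h2
  have l2' := R.h2'
  have T : GS (n : ℤ) (fz f') (n - 1) (-1) (-1) β' α' (fun i => i = 1 ∨ i = n) := by
    refine (G.transpose hf).mono ?_
    intro j h5 h6 h7
    have := hf.gf j h5 h6
    rcases h7 with h7 | h7
    · left; rw [h7, fz_one k1] at this; exact this.symm
    · right; rw [h7, fz_natCast, k2] at this; exact this.symm
  have d1 := rg_general R.X G (fun i a b => ⟨hf.f1 i a b, hf.f2 i a b⟩) (s := n + 1) (i₀ := 2)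
    (by omega) (by omega) (by intro i a b; omega) ⟨1, by ring⟩ (by omega) (by omega) (by omega)
  have d2 := rg_general R.Y T (fun i a b => ⟨hf.g1 i a b, hf.g2 i a b⟩) (s := n + 1) (i₀ := 2)
    (by omega) (by omega) (by intro i a b; omega) ⟨1, by ring⟩ (by omega) (by omega) (by omega)
  have e1 := eq_zero_of_dvd_of_lt d1 (by omega) (by omega)
  have e2 := eq_zero_of_dvd_of_lt d2 (by omega) (by omega)
  have h3 := centre G (t₁ := t₁) (t₂ := t₂) ⟨by omega, by omega, by omega⟩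
    ⟨1, by linarith⟩ (not_dvd_of (by omega) (by omega)) ⟨1, by linarith⟩
    (not_dvd_of (by omega) (by omega)) R.ft
  rw [three_iff] at h3
  obtain ⟨k, hk⟩ := card_pow_of Nat.prime_three h3
  obtain ⟨j, hj⟩ := card_pow_of (F := F) Nat.prime_two (by omega)
  have p1 := pow3_mod8 k
  have p2 := pow2_large (k := j) (by omega)
  omega

theorem rg_G2 (hn : 14 ≤ n) (hf : IsPerm n (fz f) (fz f'))
    (h1 : Produces .RG1 n f) (h2 : Produces .G2 n f) : False := by
  obtain ⟨F, i1, i2, α, β, t₁, t₂, c1, R⟩ := prodRG1' (by omega) hf h1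
  obtain ⟨F', j1, j2, α', β', c2, -, G⟩ := prodG2 (by omega) h2
  have l1 := R.h1
  have l1' := R.h1'
  have l2 := R.h2
  have l2' := R.h2'
  have T := G.transpose hf
  have d1 := rg_general R.X G (fun i a b => ⟨hf.f1 i a b, hf.f2 i a b⟩) (s := n + 1) (i₀ := 1)
    (by omega) (by omega) (by intro i a b h; exact h) ⟨1, by ring⟩ (by omega) (by omega)
    (by omega)
  have d2 := rg_general R.Y T (fun i a b => ⟨hf.g1 i a b, hf.g2 i a b⟩) (s := n + 1) (i₀ := 1)
    (by omega) (by omega) (by intro i a b h; exact h) ⟨1, by ring⟩ (by omega) (by omega)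
    (by omega)
  have e1 := eq_zero_of_dvd_of_lt d1 (by omega) (by omega)
  have e2 := eq_zero_of_dvd_of_lt d2 (by omega) (by omega)
  have h3 := centre G (t₁ := t₁) (t₂ := t₂) ⟨by omega, by omega, fun h => h⟩
    ⟨1, by linarith⟩ (not_dvd_of (by omega) (by omega)) ⟨1, by linarith⟩
    (not_dvd_of (by omega) (by omega)) R.ft
  rw [three_iff] at h3
  obtain ⟨k, hk⟩ := card_pow_of Nat.prime_three h3
  obtain ⟨j, hj⟩ := card_pow_of (F := F) Nat.prime_two (by omega)
  have p1 := pow3_mod80 k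
  have p2 := pow2_large (k := j) (by omega)
  have p3 := pow2_five j
  omega

theorem rg_G4 (hn : 16 ≤ n) (hf : IsPerm n (fz f) (fz f'))
    (h1 : Produces .RG1 n f) (h2 : Produces .G4 n f) : False := by
  obtain ⟨F, i1, i2, α, β, t₁, t₂, c1, R⟩ := prodRG1' (by omega) hf h1
  obtain ⟨F', j1, j2, α', β', g', c2, -, k2, -, -, G⟩ := prodG4 (by omega) h2
  have l1 := R.h1
  have l1' := R.h1'
  have d1 := rg_general R.X G (fun i a b => ⟨hf.f1 i a b, hf.f2 i a b⟩) (s := n - 1) (i₀ := 1)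
    (by omega) (by omega) (by intro i a b h; exact h) ⟨1, by ring⟩ (by omega) (by omega)
    (by omega)
  have e1 := eq_zero_of_dvd_of_lt d1 (by omega) (by omega)
  rw [two_iff] at k2
  omega

theorem rg_G4s (hn : 16 ≤ n) (hf : IsPerm n (fz f) (fz f'))
    (h1 : Produces .RG1 n f) (h2 : Produces .G4s n f) : False := by
  obtain ⟨F, i1, i2, α, β, t₁, t₂, c1, R⟩ := prodRG1' (by omega) hf h1
  obtain ⟨F', j1, j2, α', β', g', c2, -, k2, k3, k4, G⟩ := prodG4s (by omega) h2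
  have l1 := R.h1
  have l1' := R.h1'
  have l2 := R.h2
  have l2' := R.h2'
  have T := G.transpose hf
  have d1 := rg_general R.X G (fun i a b => ⟨hf.f1 i a b, hf.f2 i a b⟩) (s := n - 1) (i₀ := 1)
    (by omega) (by omega) (by intro i a b h; exact h) ⟨1, by ring⟩ (by omega) (by omega)
    (by omega)
  have d2 := rg_general R.Y T (fun i a b => ⟨hf.g1 i a b, hf.g2 i a b⟩) (s := n + 1) (i₀ := 1)
    (by omega) (by omega) (by intro i a b h; exact h) ⟨1, by ring⟩ (by omega) (by omega)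
    (by omega)
  have e1 := eq_zero_of_dvd_of_lt d1 (by omega) (by omega)
  have e2 := eq_zero_of_dvd_of_lt d2 (by omega) (by omega)
  have h3 := centre G (t₁ := t₁) (t₂ := t₂) ⟨by omega, by omega, fun h => h⟩
    ⟨1, by linarith⟩ (not_dvd_of (by omega) (by omega)) ⟨1, by linarith⟩
    (not_dvd_of (by omega) (by omega)) R.ft
  have h4 := dvd8 G.oα h3 (Or.inl (sq_of k3 k4))
  have := Int.le_of_dvd (by norm_num) h4
  omega

theorem rg_G4ss (hn : 16 ≤ n) (hf : IsPerm n (fz f) (fz f'))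
    (h1 : Produces .RG1 n f) (h2 : Produces .G4ss n f) : False := by
  obtain ⟨F, i1, i2, α, β, t₁, t₂, c1, R⟩ := prodRG1' (by omega) hf h1
  obtain ⟨F', j1, j2, α', g', c2, -, k2, k3, -, G⟩ := prodG4ss (by omega) h2
  have l1 := R.h1
  have l1' := R.h1'
  have l2 := R.h2
  have l2' := R.h2'
  have T := G.transpose hf
  have d1 := rg_general R.X G (fun i a b => ⟨hf.f1 i a b, hf.f2 i a b⟩) (s := n - 1) (i₀ := 1)
    (by omega) (by omega) (by intro i a b h; exact h) ⟨1, by ring⟩ (by omega) (by omega)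
    (by omega)
  have d2 := rg_general R.Y T (fun i a b => ⟨hf.g1 i a b, hf.g2 i a b⟩) (s := n - 1) (i₀ := 1)
    (by omega) (by omega) (by intro i a b h; exact h) ⟨1, by ring⟩ (by omega) (by omega)
    (by omega)
  have e1 := eq_zero_of_dvd_of_lt d1 (by omega) (by omega)
  have e2 := eq_zero_of_dvd_of_lt d2 (by omega) (by omega)
  have h3 := centre G (t₁ := t₁) (t₂ := t₂) ⟨by omega, by omega, fun h => h⟩
    ⟨1, by linarith⟩ (not_dvd_of (by omega) (by omega)) ⟨1, by linarith⟩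
    (not_dvd_of (by omega) (by omega)) R.ft
  have h4 := dvd8 G.oα h3 (Or.inr k3)
  have := Int.le_of_dvd (by norm_num) h4
  omega

theorem rg_G5s (hn : 15 ≤ n) (hf : IsPerm n (fz f) (fz f'))
    (h1 : Produces .RG1 n f) (h2 : Produces .G5s n f) : False := by
  obtain ⟨F, i1, i2, α, β, t₁, t₂, c1, R⟩ := prodRG1' (by omega) hf h1
  obtain ⟨F', j1, j2, α', β', g', c2, -, k3, k4, G⟩ := prodG5s (by omega) hf h2
  have l1 := R.h1
  have l1' := R.h1'
  have l2 := R.h2
  have l2' := R.h2'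
  have T := G.transpose hf
  have d1 := rg_general R.X G (fun i a b => ⟨hf.f1 i a b, hf.f2 i a b⟩) (s := n) (i₀ := 1)
    (by omega) (by omega) (by intro i a b h; exact h) ⟨1, by ring⟩ (by omega) (by omega)
    (by omega)
  have d2 := rg_general R.Y T (fun i a b => ⟨hf.g1 i a b, hf.g2 i a b⟩) (s := n) (i₀ := 1)
    (by omega) (by omega) (by intro i a b h; exact h) ⟨1, by ring⟩ (by omega) (by omega)
    (by omega)
  have e1 := eq_zero_of_dvd_of_lt d1 (by omega) (by omega)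
  have e2 := eq_zero_of_dvd_of_lt d2 (by omega) (by omega)
  have h3 := centre G (t₁ := t₁) (t₂ := t₂) ⟨by omega, by omega, fun h => h⟩
    ⟨1, by linarith⟩ (not_dvd_of (by omega) (by omega)) ⟨1, by linarith⟩
    (not_dvd_of (by omega) (by omega)) R.ft
  have h4 := dvd8 G.oα h3 (Or.inl (sq_of k3 k4))
  have := Int.le_of_dvd (by norm_num) h4
  omega

theorem rg_G3 (hn : 15 ≤ n) (hf : IsPerm n (fz f) (fz f'))
    (h1 : Produces .RG1 n f) (h2 : Produces .G3 n f) : False := by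
  obtain ⟨F, i1, i2, α, β, t, t₂, c1, R⟩ := prodRG1' (by omega) hf h1
  obtain ⟨F', j1, j2, α', β', g', c2, -, -, -, G⟩ := prodG3 (by omega) h2
  have hf' : ∀ i, 1 ≤ i → i ≤ (n : ℤ) → 1 ≤ fz f i ∧ fz f i ≤ n :=
    fun i a b => ⟨hf.f1 i a b, hf.f2 i a b⟩
  have l1 := R.h1
  have l1' := R.h1'
  have d1 := rg_general R.X G hf' (s := n) (i₀ := 1)
    (by omega) (by omega) (by intro i a b h; exact h) ⟨1, by ring⟩ (by omega) (by omega)
    (by omega)
  have e1 := eq_zero_of_dvd_of_lt d1 (by omega) (by omega)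
  have hnt : (n : ℤ) = 2 * t := by omega
  have ht8 : 8 ≤ t := by omega
  have X := R.X
  have hsX : (n : ℤ) ∣ n + 2 * -t := ⟨0, by rw [hnt]; ring⟩
  have hsG : (n + 2 : ℤ) ∣ n + 2 * 1 := ⟨1, by ring⟩
  have good1 : ∀ i : ℤ, 1 ≤ i → i ≤ 6 → Good n (fun _ => False) n i := by
    intro i h3 h4
    refine ⟨⟨?_, ?_, fun h => h⟩, ⟨?_, ?_, fun h => h⟩, ⟨?_, ?_, fun h => h⟩,
      ⟨?_, ?_, fun h => h⟩⟩ <;> omega
  have good2 : ∀ i : ℤ, 1 ≤ i → i ≤ 6 → Good n (fun i => i = t) n i := by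
    intro i h3 h4
    refine ⟨⟨?_, ?_, ?_⟩, ⟨?_, ?_, ?_⟩, ⟨?_, ?_, ?_⟩, ⟨?_, ?_, ?_⟩⟩ <;> omega
  have heq : ∀ i : ℤ, 1 ≤ i → i ≤ 6 → Gam (fz f) n i = Gam (fz f) n 1 := by
    intro i h3 h4
    have d1 : 2 * t ∣ Gam (fz f) n i - Gam (fz f) n 1 := by
      have e1 := X.K2 (good2 i h3 h4) hsX
      have e2 := X.K2 (good2 1 (by omega) (by omega)) hsX
      have e3 : α ^ Gam (fz f) n i = α ^ Gam (fz f) n 1 :=
        mul_right_cancel₀ X.oβ.1 (e1.trans e2.symm)
      rw [X.oα.eq_iff] at e3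
      rw [← hnt]; exact e3
    have d2 : 2 * (t + 1) ∣ Gam (fz f) n i - Gam (fz f) n 1 := by
      have e1 := G.K2 (good1 i h3 h4) hsG
      have e2 := G.K2 (good1 1 (by omega) (by omega)) hsG
      have e3 : α' ^ Gam (fz f) n i = α' ^ Gam (fz f) n 1 :=
        mul_right_cancel₀ G.oβ.1 (e1.trans e2.symm)
      rw [G.oα.eq_iff] at e3
      convert e3 using 1
      rw [hnt]; ring
    have b1 := gam_bound hf' (good1 i h3 h4)
    have b2 := gam_bound hf' (good1 1 (by omega) (by omega))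
    have := zero_of_two_dvd (by omega) d1 d2 (by omega) (by omega)
    omega
  have q2 := heq 2 (by omega) (by omega)
  have q3 := heq 3 (by omega) (by omega)
  have q4 := heq 4 (by omega) (by omega)
  have q5 := heq 5 (by omega) (by omega)
  have q6 := heq 6 (by omega) (by omega)
  have hsum : Gam (fz f) n 1 + Gam (fz f) n 2 + Gam (fz f) n 3 + Gam (fz f) n 4 +
      Gam (fz f) n 5 + Gam (fz f) n 6 =
      fz f (n - 7) - fz f 7 - fz f (n - 1) + fz f 1 := by
    unfold Gam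
    rw [show (n : ℤ) - 1 - 1 = n - 2 by ring, show (n : ℤ) - 2 - 1 = n - 3 by ring,
      show (n : ℤ) - 3 - 1 = n - 4 by ring, show (n : ℤ) - 4 - 1 = n - 5 by ring,
      show (n : ℤ) - 5 - 1 = n - 6 by ring, show (n : ℤ) - 6 - 1 = n - 7 by ring,
      show (1 : ℤ) + 1 = 2 by norm_num, show (2 : ℤ) + 1 = 3 by norm_num,
      show (3 : ℤ) + 1 = 4 by norm_num, show (4 : ℤ) + 1 = 5 by norm_num,
      show (5 : ℤ) + 1 = 6 by norm_num, show (6 : ℤ) + 1 = 7 by norm_num]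
    ring
  have b1 := hf' (n - 7) (by omega) (by omega)
  have b2 := hf' 7 (by omega) (by omega)
  have b3 := hf' (n - 1) (by omega) (by omega)
  have b4 := hf' 1 (by omega) (by omega)
  have K3G := G.K3 (good1 1 (by omega) (by omega)).1 (good1 1 (by omega) (by omega)).2.2.1 hsG
  have K3X := X.K3 (good2 1 (by omega) (by omega)).1 (good2 1 (by omega) (by omega)).2.2.1 hsX
  have K2G := G.K2 (good1 1 (by omega) (by omega)) hsG
  have K2X := X.K2 (good2 1 (by omega) (by omega)) hsX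
  have m1 : α' ^ (t + 1) = -1 := neg_one_of_half G.oα ⟨1, by rw [hnt]; ring⟩
    (not_dvd_of (by omega) (by omega))
  have m2 : α ^ t = -1 := neg_one_of_half X.oα ⟨1, by rw [hnt]; ring⟩
    (not_dvd_of (by omega) (by omega))
  set γ := Gam (fz f) n 1 with hγ
  set δ := fz f (n - 1) - fz f 1 with hδ
  have c1 : β' = α' ^ (-γ) := by
    rw [zpow_neg]; exact eq_inv_of_mul_eq_one_right K2G
  have c2 : β = α ^ (-γ) := by
    rw [zpow_neg]; exact eq_inv_of_mul_eq_one_right K2X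
  have r1 : (n + 2 : ℤ) ∣ δ - 2 * γ - (t + 1) := by
    rw [← G.oα.eq_iff, m1, ← K3G, c1, ← zpow_mul, ← zpow_add₀ G.oα.1]
    congr 1; ring
  have r2 : (n : ℤ) ∣ δ - γ * (1 - t) - t := by
    rw [← X.oα.eq_iff, m2, ← K3X, c2, ← zpow_mul, ← zpow_add₀ X.oα.1]
    congr 1; ring
  -- γ is odd
  have hodd : ¬ 2 ∣ γ := by
    intro h
    obtain ⟨e, he⟩ := h
    have : β' ^ (t + 1) = 1 := by
      rw [c1, ← zpow_mul, G.oα.2]
      exact ⟨-e, by rw [he, hnt]; ring⟩
    rw [G.oβ.2] at this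
    exact not_dvd_of (by omega) (by omega) this
  obtain ⟨e, he⟩ : ∃ e, γ = 2 * e + 1 := ⟨γ / 2, by omega⟩
  have r3 : 2 * t ∣ δ - γ := by
    rw [hnt] at r2
    obtain ⟨z, hz⟩ := r2
    refine ⟨z - e, ?_⟩
    rw [he] at hz ⊢
    linear_combination hz
  obtain ⟨A, hA⟩ := r3
  obtain ⟨B, hB⟩ := r1
  rw [hnt] at hB
  -- bounds
  have hA1 : A ≤ 1 := by
    by_contra h
    have : 2 * t * 2 ≤ 2 * t * A := mul_le_mul_of_nonneg_left (by omega) (by omega)
    omega
  have hA2 : -1 ≤ A := by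
    by_contra h
    have : 2 * t * A ≤ 2 * t * (-2) := mul_le_mul_of_nonneg_left (by omega) (by omega)
    omega
  have hAB : 2 * t * A - γ = (t + 1) * (2 * B + 1) := by linear_combination hB - hA
  have hcases : A = 0 ∨ A = 1 ∨ A = -1 := by omega
  have tri : ∀ B : ℤ, B ≤ -2 ∨ B = -1 ∨ B = 0 ∨ 1 ≤ B := by intro B; omega
  rcases tri B with h | h | h | h
  · have : (t + 1) * (2 * B + 1) ≤ (t + 1) * (-3) :=
      mul_le_mul_of_nonneg_left (by omega) (by omega)
    rcases hcases with rfl | rfl | rfl <;> omega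
  · rw [h] at hAB
    rcases hcases with rfl | rfl | rfl <;> omega
  · rw [h] at hAB
    rcases hcases with rfl | rfl | rfl <;> omega
  · have : (t + 1) * 3 ≤ (t + 1) * (2 * B + 1) :=
      mul_le_mul_of_nonneg_left (by omega) (by omega)
    rcases hcases with rfl | rfl | rfl <;> omega

end

end Pool.Agent.Helper60.Costas
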