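import Pool.Agent.Helper60.Costas.Conv

/-!
The Welch-type methods: sums `f i + f (i + h)`.
-/

namespace Pool.Agent.Helper60.Costas

theorem IsPrimitive.zmod {p : ℕ} [Fact p.Prime] {α : ZMod p} (h : IsPrimitive α) :
    HasOrd α ((p : ℤ) - 1) := by
  have h' : HasOrd α ((Fintype.card (ZMod p) : ℤ) - 1) := IsPrimitive.hasOrd h
  rwa [ZMod.card] at h'

theorem w1_pos {p : ℕ} [Fact p.Prime] {α : ZMod p} (h : IsPrimitive α) (c i : ℕ) :
    1 ≤ w1exp p α c i := by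
  unfold w1exp
  have h1 : α ^ (i - 1 + c) ≠ 0 := pow_ne_zero _ h.1
  rw [Nat.one_le_iff_ne_zero]
  intro h2
  exact h1 ((ZMod.val_eq_zero _).1 h2)

theorem w1_lt {p : ℕ} [Fact p.Prime] {α : ZMod p} (c i : ℕ) :
    w1exp p α c i < p := ZMod.val_lt _

theorem w1_half {p : ℕ} [Fact p.Prime] {α : ZMod p} (h : IsPrimitive α) {m : ℕ}
    (hp : p = 2 * m + 1) (hm : 1 ≤ m) (c i : ℕ) (hi : 1 ≤ i) :
    w1exp p α c i + w1exp p α c (i + m) = p := by
  have hα := h.zmod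
  have e1 : α ^ m = -1 := by
    have h2 : (α ^ m - 1) * (α ^ m + 1) = 0 := by
      have h3 : α ^ (2 * m) = 1 := by
        have := (hα.2 ((2 * m : ℕ) : ℤ)).2 ⟨1, by rw [hp]; push_cast; ring⟩
        rwa [zpow_natCast] at this
      calc (α ^ m - 1) * (α ^ m + 1) = α ^ (2 * m) - 1 := by rw [two_mul, pow_add]; ring
        _ = 0 := by rw [h3]; ring
    rcases mul_eq_zero.1 h2 with h4 | h4
    · exfalso
      have h5 : α ^ ((m : ℕ) : ℤ) = 1 := by rw [zpow_natCast]; linear_combination h4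
      rw [hα.2] at h5
      have := Int.le_of_dvd (by omega) h5
      omega
    · linear_combination h4
  have e2 : α ^ (i + m - 1 + c) = - α ^ (i - 1 + c) := by
    rw [show i + m - 1 + c = m + (i - 1 + c) by omega, pow_add, e1]; ring
  unfold w1exp
  rw [e2, ZMod.neg_val]
  have h1 : α ^ (i - 1 + c) ≠ 0 := pow_ne_zero _ h.1
  rw [if_neg h1]
  have := ZMod.val_lt (α ^ (i - 1 + c))
  omega

theorem odd_of {p : ℕ} (hp : p.Prime) (hn : 3 ≤ p) : ∃ m, p = 2 * m + 1 := by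
  have := hp.eq_two_or_odd'
  rcases this with h | h
  · omega
  · exact h

theorem prodW2 {n : ℕ} {f : ℕ → ℕ} (hn : 5 < n) (h : Produces .W2 n f) :
    ∃ m : ℤ, (n : ℤ) = 2 * m - 1 ∧
      ∀ i, 1 ≤ i → i ≤ m - 1 → fz f i + fz f (i + m) = n := by
  obtain ⟨p, α, hp, hα, h1, h2⟩ := h
  have := Fact.mk hp
  obtain ⟨m, hm⟩ := odd_of hp (by omega)
  refine ⟨m, by omega, ?_⟩
  intro i h3 h4
  obtain ⟨k, rfl⟩ := Int.eq_ofNat_of_zero_le (by omega : 0 ≤ i)
  have e1 := h2 k (by simp only [Set.mem_Icc]; omega)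
  have e2 := h2 (k + m) (by simp only [Set.mem_Icc]; omega)
  have e3 := w1_half hα hm (by omega) 0 (k + 1) (by omega)
  rw [show ((k : ℤ) + m) = ((k + m : ℕ) : ℤ) by push_cast; ring, fz_natCast, fz_natCast, e1, e2]
  rw [show k + m + 1 = k + 1 + m by ring]
  omega

theorem prodW3 {n : ℕ} {f : ℕ → ℕ} (hn : 5 < n) (h : Produces .W3 n f) :
    ∃ m : ℤ, (n : ℤ) = 2 * m - 2 ∧ f 1 = 2 ∧ f 2 = 6 ∧ ((n : ℤ) + 3) ∣ fz f 4 - 30 ∧
      ∀ i, 1 ≤ i → i ≤ m - 2 → fz f i + fz f (i + m) = n - 1 := by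
  obtain ⟨p, hp, hα, h1, h2⟩ := h
  have := Fact.mk hp
  obtain ⟨m, hm⟩ := odd_of hp (by omega)
  have hval : ∀ k : ℕ, k < p → ((k : ℕ) : ZMod p).val = k := fun k hk => ZMod.val_cast_of_lt hk
  refine ⟨m, by omega, ?_, ?_, ?_, ?_⟩
  · have e1 := h2 1 (by simp only [Set.mem_Icc]; omega)
    have : w1exp p 2 0 (1 + 2) = 4 := by
      unfold w1exp
      rw [show (2 : ZMod p) ^ (1 + 2 - 1 + 0) = ((4 : ℕ) : ZMod p) by norm_num]
      exact hval 4 (by omega)
    rw [this] at e1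
    omega
  · have e1 := h2 2 (by simp only [Set.mem_Icc]; omega)
    have : w1exp p 2 0 (2 + 2) = 8 := by
      unfold w1exp
      rw [show (2 : ZMod p) ^ (2 + 2 - 1 + 0) = ((8 : ℕ) : ZMod p) by norm_num]
      exact hval 8 (by omega)
    rw [this] at e1
    omega
  · have e1 := h2 4 (by simp only [Set.mem_Icc]; omega)
    have e2 : ((w1exp p 2 0 (4 + 2) : ℕ) : ZMod p) = ((32 : ℕ) : ZMod p) := by
      unfold w1exp
      rw [show (2 : ZMod p) ^ (4 + 2 - 1 + 0) = ((32 : ℕ) : ZMod p) by norm_num]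
      rw [ZMod.natCast_val, ZMod.cast_id]
    have e3 : ((p : ℕ) : ℤ) ∣ ((32 : ℕ) : ℤ) - (w1exp p 2 0 (4 + 2) : ℕ) := by
      rw [← ZMod.intCast_eq_intCast_iff_dvd_sub]
      push_cast
      exact_mod_cast e2
    have e4 : fz f 4 = f 4 := by
      have := fz_natCast f 4
      exact_mod_cast this
    rw [e4, e1]
    have : (n : ℤ) + 3 = (p : ℤ) := by omega
    rw [this]
    obtain ⟨k, hk⟩ := e3
    exact ⟨-k, by push_cast at hk ⊢; linarith⟩
  · intro i h3 h4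
    obtain ⟨k, rfl⟩ := Int.eq_ofNat_of_zero_le (by omega : 0 ≤ i)
    have e1 := h2 k (by simp only [Set.mem_Icc]; omega)
    have e2 := h2 (k + m) (by simp only [Set.mem_Icc]; omega)
    have e3 := w1_half hα hm (by omega) 0 (k + 2) (by omega)
    rw [show ((k : ℤ) + m) = ((k + m : ℕ) : ℤ) by push_cast; ring, fz_natCast, fz_natCast,
      e1, e2]
    rw [show k + m + 2 = k + 2 + m by ring]
    omega

theorem prodW0 {n : ℕ} {f : ℕ → ℕ} (hn : 5 < n) (h : Produces .W0 n f) :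
    ∃ m : ℤ, (n : ℤ) = 2 * m + 1 ∧ f 1 = 1 ∧
      ∀ i, 2 ≤ i → i ≤ m + 1 → fz f i + fz f (i + m) = n + 2 := by
  obtain ⟨p, α, c, hp, hα, hc, h1, h2, h3⟩ := h
  have := Fact.mk hp
  obtain ⟨m, hm⟩ := odd_of hp (by omega)
  refine ⟨m, by omega, h2, ?_⟩
  intro i h4 h5
  obtain ⟨k, rfl⟩ := Int.eq_ofNat_of_zero_le (by omega : 0 ≤ i)
  have e1 := h3 k (by simp only [Set.mem_Icc]; omega)
  have e2 := h3 (k + m) (by simp only [Set.mem_Icc]; omega)
  have e3 := w1_half hα hm (by omega) c (k - 1) (by omega)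
  rw [show ((k : ℤ) + m) = ((k + m : ℕ) : ℤ) by push_cast; ring, fz_natCast, fz_natCast, e1, e2]
  rw [show k + m - 1 = k - 1 + m by omega]
  omega

theorem prodRW0 {n : ℕ} {f : ℕ → ℕ} (hn : 5 < n) (h : Produces .RW0 n f) :
    ∃ m t : ℤ, n.Prime ∧ (n : ℤ) = 2 * m + 1 ∧ 2 ≤ t ∧ t ≤ n - 1 ∧ fz f n = t ∧
      ((∀ i, 1 ≤ i → i ≤ m → fz f i + fz f (i + m) = 2 * t ∨
        fz f i + fz f (i + m) = 2 * t + n) ∨
      (∀ i, 1 ≤ i → i ≤ m → fz f i + fz f (i + m) = 2 * t ∨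
        fz f i + fz f (i + m) = 2 * t - n)) := by
  obtain ⟨p, α, c, t, hp, hα, hc, ht1, ht2, h1, h2, h3⟩ := h
  have := Fact.mk hp
  obtain ⟨m, hm⟩ := odd_of hp (by omega)
  subst h1
  refine ⟨m, t, hp, by omega, by omega, by omega, by rw [fz_natCast, h3], ?_⟩
  -- explicit residues
  have hmod : ∀ x : ℤ, 0 ≤ x → x < 2 * n →
      (x < n ∧ x % (n : ℤ) = x) ∨ (n ≤ x ∧ x % (n : ℤ) = x - n) := by
    intro x hx1 hx2
    by_cases hx : x < n
    · left; exact ⟨hx, Int.emod_eq_of_lt hx1 hx⟩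
    · right
      refine ⟨by omega, ?_⟩
      rw [Int.emod_eq_sub_self_emod]
      exact Int.emod_eq_of_lt (by omega) (by omega)
  have key : ∀ k : ℕ, 1 ≤ k → k ≤ m → ∃ r : ℤ, 1 ≤ r ∧ r ≤ n - 1 ∧
      fz f k = (r + t - 1) % (n : ℤ) + 1 ∧ fz f (k + m) = (n - r + t - 1) % (n : ℤ) + 1 := by
    intro k hk1 hk2
    have e1 := h2 k (by simp only [Set.mem_Icc]; omega)
    have e2 := h2 (k + m) (by simp only [Set.mem_Icc]; omega)
    have e3 := w1_half hα hm (by omega) c k (by omega)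
    have e4 := w1_pos hα c k
    have e5 := w1_pos hα c (k + m)
    refine ⟨w1exp n α c k, by omega, by omega, ?_, ?_⟩
    · rw [fz_natCast, e1]
    · rw [show ((k : ℤ) + m) = ((k + m : ℕ) : ℤ) by push_cast; ring, fz_natCast, e2]
      congr 3
      omega
  by_cases ht : 2 * t < n
  · left
    intro i h4 h5
    obtain ⟨k, rfl⟩ := Int.eq_ofNat_of_zero_le (by omega : 0 ≤ i)
    obtain ⟨r, hr1, hr2, e1, e2⟩ := key k (by omega) (by omega)
    rw [e1, e2]
    rcases hmod (r + t - 1) (by omega) (by omega) with ⟨a1, a2⟩ | ⟨a1, a2⟩ <;>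
    rcases hmod (n - r + t - 1) (by omega) (by omega) with ⟨b1, b2⟩ | ⟨b1, b2⟩ <;>
    rw [a2, b2] <;> omega
  · right
    intro i h4 h5
    obtain ⟨k, rfl⟩ := Int.eq_ofNat_of_zero_le (by omega : 0 ≤ i)
    obtain ⟨r, hr1, hr2, e1, e2⟩ := key k (by omega) (by omega)
    rw [e1, e2]
    rcases hmod (r + t - 1) (by omega) (by omega) with ⟨a1, a2⟩ | ⟨a1, a2⟩ <;>
    rcases hmod (n - r + t - 1) (by omega) (by omega) with ⟨b1, b2⟩ | ⟨b1, b2⟩ <;>
    rw [a2, b2] <;> omega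

theorem prodW1 {n : ℕ} {f f' : ℕ → ℕ} (hn : 5 < n) (hf : IsPerm n (fz f) (fz f'))
    (h : Produces .W1 n f) :
    ∃ m : ℤ, (n : ℤ) = 2 * m ∧
      ((∀ i, 1 ≤ i → i ≤ m → fz f i + fz f (i + m) = n + 1) ∨
       ((∀ i, 1 ≤ i → i ≤ m → fz f' i + fz f' (i + m) = n + 1) ∧
         (n : ℤ) ∣ fz f 1 + fz f 4 - 2 * fz f 2)) := by
  obtain ⟨p, α, c, hp, hα, hc, h1, h2⟩ := h
  have := Fact.mk hp
  obtain ⟨m, hm⟩ := odd_of hp (by omega)
  refine ⟨m, by omega, ?_⟩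
  rcases h2 with h2 | h2
  · left
    intro i h4 h5
    obtain ⟨k, rfl⟩ := Int.eq_ofNat_of_zero_le (by omega : 0 ≤ i)
    have e1 := h2 k (by simp only [Set.mem_Icc]; omega)
    have e2 := h2 (k + m) (by simp only [Set.mem_Icc]; omega)
    have e3 := w1_half hα hm (by omega) c k (by omega)
    rw [show ((k : ℤ) + m) = ((k + m : ℕ) : ℤ) by push_cast; ring, fz_natCast, fz_natCast,
      e1, e2]
    omega
  · right
    have hw : ∀ k : ℕ, 1 ≤ k → k ≤ n → fz f' k = w1exp p α c k := by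
      intro k hk1 hk2
      have e1 := h2 k (by simp only [Set.mem_Icc]; omega)
      have e4 := w1_pos hα c k
      have e5 := w1_lt (α := α) c k
      have e2 := hf.fg (w1exp p α c k) (by omega) (by omega)
      rw [fz_natCast, e1] at e2
      exact e2
    refine ⟨?_, ?_⟩
    · intro i h4 h5
      obtain ⟨k, rfl⟩ := Int.eq_ofNat_of_zero_le (by omega : 0 ≤ i)
      have e3 := w1_half hα hm (by omega) c k (by omega)
      rw [show ((k : ℤ) + m) = ((k + m : ℕ) : ℤ) by push_cast; ring, hw _ (by omega) (by omega),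
        hw _ (by omega) (by omega)]
      omega
    · -- exponents of 1, 2, 4
      have hx : ∀ k : ℕ, 1 ≤ k → k ≤ n → α ^ (fz f k + ((c : ℤ) - 1)) = ((k : ℕ) : ZMod p) := by
        intro k hk1 hk2
        have a1 := hf.f1 k (by omega) (by omega)
        have a2 := hf.f2 k (by omega) (by omega)
        have a3 := hf.fg k (by omega) (by omega)
        obtain ⟨j, hj⟩ := Int.eq_ofNat_of_zero_le (by omega : 0 ≤ fz f k)
        rw [hj] at a1 a2 a3 ⊢
        rw [hw j (by omega) (by omega)] at a3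
        have a4 : w1exp p α c j = k := by exact_mod_cast a3
        have a5 : ((w1exp p α c j : ℕ) : ZMod p) = ((k : ℕ) : ZMod p) := by rw [a4]
        unfold w1exp at a5
        rw [ZMod.natCast_val, ZMod.cast_id] at a5
        rw [← a5, ← zpow_natCast]
        congr 1
        omega
      have x1 := hx 1 (by omega) (by omega)
      have x2 := hx 2 (by omega) (by omega)
      have x4 := hx 4 (by omega) (by omega)
      have hα' := hα.zmod
      have : α ^ (fz f (1 : ℕ) + ((c : ℤ) - 1) + (fz f (4 : ℕ) + ((c : ℤ) - 1))) =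
          α ^ (fz f (2 : ℕ) + ((c : ℤ) - 1) + (fz f (2 : ℕ) + ((c : ℤ) - 1))) := by
        rw [zpow_add₀ hα'.1 (fz f (1 : ℕ) + ((c : ℤ) - 1)) (fz f (4 : ℕ) + ((c : ℤ) - 1)),
          zpow_add₀ hα'.1 (fz f (2 : ℕ) + ((c : ℤ) - 1)) (fz f (2 : ℕ) + ((c : ℤ) - 1)),
          x1, x2, x4]
        push_cast; norm_num
      rw [hα'.eq_iff] at this
      have hn' : (n : ℤ) = (p : ℤ) - 1 := by omega
      rw [hn']
      convert this using 1
      push_cast; ring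

end Pool.Agent.Helper60.Costas
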