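import Pool.Agent.Helper60.Costas.Meth
import Pool.Agent.Helper60.Costas.Welch

/-!
Pairs of methods at least one of which is of Welch type.
-/

namespace Pool.Agent.Helper60.Costas

section WW
variable {n : ℕ} {f f' : ℕ → ℕ}

theorem ww_W0_RW0 (hn : 5 < n) (h1 : Produces .W0 n f) (h2 : Produces .RW0 n f) : False := by
  obtain ⟨m, e1, -, e2⟩ := prodW0 hn h1
  obtain ⟨m', t, -, e3, e4, e5, -, e6⟩ := prodRW0 hn h2
  have hm : m' = m := by omega
  subst hm
  have a := e2 2 (by omega) (by omega)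
  rcases e6 with e6 | e6
  · rcases e6 2 (by omega) (by omega) with b | b <;> omega
  · rcases e6 2 (by omega) (by omega) with b | b <;> omega

theorem ww_W0_W2 (hn : 5 < n) (hc : IsCostas n f) (h1 : Produces .W0 n f)
    (h2 : Produces .W2 n f) : False := by
  obtain ⟨m, e1, -, e2⟩ := prodW0 hn h1
  obtain ⟨m', e3, e4⟩ := prodW2 hn h2
  have hm : m' = m + 1 := by omega
  subst hm
  have a2 := e2 2 (by omega) (by omega)
  have a3 := e2 3 (by omega) (by omega)
  have b2 := e4 2 (by omega) (by omega)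
  have b3 := e4 3 (by omega) (by omega)
  have := hc.diff (i := 2 + m) (k := 3 + m) (d := 1) (by omega) (by omega) (by omega) (by omega)
    (by omega) (by
      rw [show 2 + m + 1 = 2 + (m + 1) by ring, show 3 + m + 1 = 3 + (m + 1) by ring]
      linarith)
  omega

theorem ww_RW0_W2 (hn : 5 < n) (hc : IsCostas n f) (h1 : Produces .RW0 n f)
    (h2 : Produces .W2 n f) : False := by
  obtain ⟨m, t, -, e1, -, -, -, e2⟩ := prodRW0 hn h1
  obtain ⟨m', e3, e4⟩ := prodW2 hn h2
  have hm : m' = m + 1 := by omega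
  subst hm
  have b1 := e4 1 (by omega) (by omega)
  have b2 := e4 2 (by omega) (by omega)
  have b3 := e4 3 (by omega) (by omega)
  have key : ∀ i k : ℤ, 1 ≤ i → 1 ≤ k → i ≤ m → k ≤ m → i ≠ k →
      fz f i + fz f (i + m) = fz f k + fz f (k + m) → False := by
    intro i k hi hk hi' hk' hne h
    have c1 := e4 i (by omega) (by omega)
    have c2 := e4 k (by omega) (by omega)
    have := hc.diff (i := i + m) (k := k + m) (d := 1) (by omega) (by omega) (by omega)
      (by omega) (by omega) (by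
        rw [show i + m + 1 = i + (m + 1) by ring, show k + m + 1 = k + (m + 1) by ring]
        linarith)
    omega
  have k12 := key 1 2 (by omega) (by omega) (by omega) (by omega) (by omega)
  have k13 := key 1 3 (by omega) (by omega) (by omega) (by omega) (by omega)
  have k23 := key 2 3 (by omega) (by omega) (by omega) (by omega) (by omega)
  rcases e2 with e2 | e2
  · have c1 := e2 1 (by omega) (by omega)
    have c2 := e2 2 (by omega) (by omega)
    have c3 := e2 3 (by omega) (by omega)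
    rcases c1 with c1 | c1 <;> rcases c2 with c2 | c2 <;> rcases c3 with c3 | c3 <;>
    first
      | exact k12 (c1.trans c2.symm)
      | exact k13 (c1.trans c3.symm)
      | exact k23 (c2.trans c3.symm)
  · have c1 := e2 1 (by omega) (by omega)
    have c2 := e2 2 (by omega) (by omega)
    have c3 := e2 3 (by omega) (by omega)
    rcases c1 with c1 | c1 <;> rcases c2 with c2 | c2 <;> rcases c3 with c3 | c3 <;>
    first
      | exact k12 (c1.trans c2.symm)
      | exact k13 (c1.trans c3.symm)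
      | exact k23 (c2.trans c3.symm)

theorem ww_W1_W3 (hn : 5 < n) (hc : IsCostas n f) (hf : IsPerm n (fz f) (fz f'))
    (h1 : Produces .W1 n f) (h2 : Produces .W3 n f) : False := by
  obtain ⟨m, e1, e2⟩ := prodW1 hn hf h1
  obtain ⟨m', e3, f1, f2, f4, e4⟩ := prodW3 hn h2
  have hm : m' = m + 1 := by omega
  subst hm
  rcases e2 with e2 | ⟨-, e2⟩
  · have a1 := e2 1 (by omega) (by omega)
    have a2 := e2 2 (by omega) (by omega)
    have b1 := e4 1 (by omega) (by omega)
    have b2 := e4 2 (by omega) (by omega)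
    have := hc.diff (i := 1 + m) (k := 2 + m) (d := 1) (by omega) (by omega) (by omega)
      (by omega) (by omega) (by
        rw [show 1 + m + 1 = 1 + (m + 1) by ring, show 2 + m + 1 = 2 + (m + 1) by ring]
        linarith)
    omega
  · have c1 : fz f 1 = 2 := by
      have := fz_natCast f 1
      rw [f1] at this; exact_mod_cast this
    have c2 : fz f 2 = 6 := by
      have := fz_natCast f 2
      rw [f2] at this; exact_mod_cast this
    have c3 := hf.f1 4 (by omega) (by omega)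
    have c4 := hf.f2 4 (by omega) (by omega)
    rw [c1, c2] at e2
    obtain ⟨u, hu⟩ := e2
    obtain ⟨v, hv⟩ := f4
    -- f 4 = 10 + n * u with 1 ≤ f 4 ≤ n
    have hu1 : u ≤ 0 := by
      by_contra h
      have : (n : ℤ) * 1 ≤ n * u := by
        apply mul_le_mul_of_nonneg_left _ (by omega); omega
      linarith
    have hu2 : -2 < u := by
      by_contra h
      have : (n : ℤ) * u ≤ n * (-2) := by
        apply mul_le_mul_of_nonneg_left _ (by omega); omega
      linarith
    have hcases : u = 0 ∨ u = -1 := by omega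
    rcases hcases with rfl | rfl
    · -- f 4 = 10
      have h10 : fz f 4 = 10 := by linarith
      rw [h10] at hv
      have hd : ((n : ℤ) + 3) ∣ 20 := ⟨-v, by linarith⟩
      have hle := Int.le_of_dvd (by norm_num) hd
      have : n ≤ 17 := by omega
      have hn10 : 10 ≤ n := by omega
      interval_cases n <;> omega
    · have h10 : fz f 4 = 10 - n := by linarith
      have : n ≤ 9 := by omega
      interval_cases n <;> omega

end WW

section WG
variable {F : Type} [Field F] {n : ℤ} {f : ℤ → ℤ} {N a b : ℤ} {α β : F} {E : ℤ → Prop}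

theorem wg3 (G : GS n f N a b α β E) (hn : 6 ≤ n) (hN : n - 1 ≤ N) {m σ lo : ℤ}
    (hS : ∀ i, lo ≤ i → i ≤ lo + 2 → Ok n E i ∧ Ok n E (i + m) ∧ N ∣ f i + f (i + m) - σ) :
    False := by
  have := sum_card G (h := m) (σ := σ) (Finset.Icc lo (lo + 2))
    (fun i hi => by
      rw [Finset.mem_Icc] at hi
      exact hS i hi.1 hi.2)
    (fun i hi j hj => by
      rw [Finset.mem_Icc] at hi hj
      omega)
  rw [Int.card_Icc] at this
  omega

theorem wg4 (G : GS n f N a b α β E) (hn : 6 ≤ n) (hN : n - 1 ≤ N) {m σ lo u : ℤ}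
    (hS : ∀ i, lo ≤ i → i ≤ lo + 3 → i ≠ u →
      Ok n E i ∧ Ok n E (i + m) ∧ N ∣ f i + f (i + m) - σ) :
    False := by
  have := sum_card G (h := m) (σ := σ) (Finset.Icc lo (lo + 3) \ {u})
    (fun i hi => by
      rw [Finset.mem_sdiff, Finset.mem_Icc, Finset.mem_singleton] at hi
      exact hS i hi.1.1 hi.1.2 hi.2)
    (fun i hi j hj => by
      rw [Finset.mem_sdiff, Finset.mem_Icc] at hi hj
      omega)
  have h2 := Finset.le_card_sdiff ({u} : Finset ℤ) (Finset.Icc lo (lo + 3))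
  rw [Int.card_Icc, Finset.card_singleton] at h2
  omega

theorem wg5 (G : GS n f N a b α β E) (hn : 6 ≤ n) (hN : n - 1 ≤ N) {m σ τ lo : ℤ}
    (hS : ∀ i, lo ≤ i → i ≤ lo + 4 → Ok n E i ∧ Ok n E (i + m) ∧
      (f i + f (i + m) = σ ∨ f i + f (i + m) = τ)) :
    False := by
  classical
  set S := Finset.Icc lo (lo + 4) with hSdef
  have hd : ∀ i ∈ S, ∀ j ∈ S, i - j < N := by
    intro i hi j hj
    rw [hSdef, Finset.mem_Icc] at hi hj
    omega
  have h1 := sum_card G (h := m) (σ := σ) (S.filter (fun i => f i + f (i + m) = σ))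
    (fun i hi => by
      rw [Finset.mem_filter, hSdef, Finset.mem_Icc] at hi
      have := hS i hi.1.1 hi.1.2
      exact ⟨this.1, this.2.1, by rw [hi.2]; simp⟩)
    (fun i hi j hj => hd i (Finset.mem_filter.1 hi).1 j (Finset.mem_filter.1 hj).1)
  have h2 := sum_card G (h := m) (σ := τ) (S.filter (fun i => f i + f (i + m) = τ))
    (fun i hi => by
      rw [Finset.mem_filter, hSdef, Finset.mem_Icc] at hi
      have := hS i hi.1.1 hi.1.2
      exact ⟨this.1, this.2.1, by rw [hi.2]; simp⟩)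
    (fun i hi j hj => hd i (Finset.mem_filter.1 hi).1 j (Finset.mem_filter.1 hj).1)
  have h3 : S ⊆ (S.filter (fun i => f i + f (i + m) = σ)) ∪
      (S.filter (fun i => f i + f (i + m) = τ)) := by
    intro i hi
    rw [Finset.mem_union, Finset.mem_filter, Finset.mem_filter]
    have hi' := hi
    rw [hSdef, Finset.mem_Icc] at hi'
    rcases (hS i hi'.1 hi'.2).2.2 with h | h
    · left; exact ⟨hi, h⟩
    · right; exact ⟨hi, h⟩
  have h4 := Finset.card_le_card h3
  have h5 := Finset.card_union_le (S.filter (fun i => f i + f (i + m) = σ))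
    (S.filter (fun i => f i + f (i + m) = τ))
  have h6 : S.card = 5 := by
    rw [hSdef, Int.card_Icc]; omega
  omega

end WG

/-- Golomb structure without exceptional positions. -/
def HasA (n : ℤ) (f : ℤ → ℤ) : Prop :=
  ∃ (F : Type) (_ : Field F) (α β : F) (N a b : ℤ), n + 1 ≤ N ∧
    GS n f N a b α β (fun _ => False)

/-- Golomb structure of type `G_1`. -/
def HasB (n : ℤ) (f : ℤ → ℤ) : Prop :=
  ∃ (F : Type) (_ : Field F) (α β : F), GS n f n (-1) (-1) α β (fun i => i = 1) ∧ f 1 = 1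

/-- Golomb structure of type `G_0`. -/
def HasC (n : ℤ) (f : ℤ → ℤ) : Prop :=
  ∃ (F : Type) (_ : Field F) (α β : F),
    GS n f (n - 1) (-1) (-1) α β (fun i => i = 1 ∨ i = n) ∧ f 1 = 1 ∧ f n = n

/-- Golomb structure of type `RG_1`. -/
def HasD (n : ℤ) (f : ℤ → ℤ) : Prop :=
  ∃ (F : Type) (_ : Field F) (α β : F) (t₁ t₂ : ℤ), 2 ≤ t₁ ∧ t₁ ≤ n - 1 ∧ 2 ≤ t₂ ∧
    t₂ ≤ n - 1 ∧ f t₁ = t₂ ∧ GS n f n (-t₁) (-t₂) α β (fun i => i = t₁)

section
variable {n : ℤ} {f g : ℤ → ℤ}

theorem HasA.transpose (h : HasA n f) (hp : IsPerm n f g) : HasA n g := by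
  obtain ⟨F, i, α, β, N, a, b, h1, h2⟩ := h
  exact ⟨F, i, β, α, N, b, a, h1, h2.transpose hp⟩

theorem HasB.transpose (hn : 1 ≤ n) (h : HasB n f) (hp : IsPerm n f g) : HasB n g := by
  obtain ⟨F, i, α, β, h2, h3⟩ := h
  have h4 : g 1 = 1 := by
    have := hp.fg 1 (by omega) hn
    rwa [h3] at this
  refine ⟨F, i, β, α, (h2.transpose hp).mono ?_, h4⟩
  intro j h5 h6 h7
  have := hp.gf j h5 h6
  rw [h7, h3] at this
  exact this.symm

theorem HasC.transpose (hn : 1 ≤ n) (h : HasC n f) (hp : IsPerm n f g) : HasC n g := by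
  obtain ⟨F, i, α, β, h2, h3, h3'⟩ := h
  have h4 : g 1 = 1 := by
    have := hp.fg 1 (by omega) hn
    rwa [h3] at this
  have h4' : g n = n := by
    have := hp.fg n (by omega) le_rfl
    rwa [h3'] at this
  refine ⟨F, i, β, α, (h2.transpose hp).mono ?_, h4, h4'⟩
  intro j h5 h6 h7
  have := hp.gf j h5 h6
  rcases h7 with h7 | h7
  · left; rw [h7, h3] at this; exact this.symm
  · right; rw [h7, h3'] at this; exact this.symm

theorem HasD.transpose (h : HasD n f) (hp : IsPerm n f g) : HasD n g := by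
  obtain ⟨F, i, α, β, t₁, t₂, a1, a2, a3, a4, h2, h3⟩ := h
  have h4 : g t₂ = t₁ := by
    have := hp.fg t₁ (by omega) (by omega)
    rwa [h2] at this
  refine ⟨F, i, β, α, t₂, t₁, a3, a4, a1, a2, h4, (h3.transpose hp).mono ?_⟩
  intro j h5 h6 h7
  have := hp.gf j h5 h6
  rw [h7, h2] at this; exact this.symm

end

section
variable {n : ℤ} {f : ℤ → ℤ} {m : ℤ}

/-- Welch sums `W_1` against all Golomb types -/
theorem w1_ABCD (hn : 9 ≤ n) (hm : n = 2 * m)
    (hs : ∀ i, 1 ≤ i → i ≤ m → f i + f (i + m) = n + 1)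
    (h : HasA n f ∨ HasB n f ∨ HasC n f ∨ HasD n f) : False := by
  rcases h with h | h | h | h
  · obtain ⟨F, i, α, β, N, a, b, h1, h2⟩ := h
    apply wg3 h2 (by omega) (by omega) (m := m) (σ := n + 1) (lo := 1)
    intro i h3 h4
    exact ⟨⟨by omega, by omega, by simp⟩, ⟨by omega, by omega, by simp⟩,
      by rw [hs i (by omega) (by omega)]; simp⟩
  · obtain ⟨F, i, α, β, h2, h3⟩ := h
    apply wg3 h2 (by omega) (by omega) (m := m) (σ := n + 1) (lo := 2)
    intro i h3 h4
    exact ⟨⟨by omega, by omega, by omega⟩, ⟨by omega, by omega, by omega⟩,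
      by rw [hs i (by omega) (by omega)]; simp⟩
  · obtain ⟨F, i, α, β, h2, h3⟩ := h
    apply wg3 h2 (by omega) (by omega) (m := m) (σ := n + 1) (lo := 2)
    intro i h3 h4
    exact ⟨⟨by omega, by omega, by omega⟩, ⟨by omega, by omega, by omega⟩,
      by rw [hs i (by omega) (by omega)]; simp⟩
  · obtain ⟨F, i, α, β, t₁, t₂, a1, a2, a3, a4, h2, h3⟩ := h
    apply wg4 h3 (by omega) (by omega) (m := m) (σ := n + 1) (lo := 1)
      (u := if t₁ ≤ m then t₁ else t₁ - m)
    intro i h3 h4 h5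
    have h6 : i ≠ t₁ ∧ i + m ≠ t₁ := by
      split_ifs at h5 <;> omega
    exact ⟨⟨by omega, by omega, h6.1⟩, ⟨by omega, by omega, h6.2⟩,
      by rw [hs i (by omega) (by omega)]; simp⟩

theorem w2_ABCD (hn : 9 ≤ n) (hm : n = 2 * m - 1) (hpos : ∀ i, 1 ≤ i → i ≤ n → 1 ≤ f i)
    (hs : ∀ i, 1 ≤ i → i ≤ m - 1 → f i + f (i + m) = n)
    (h : HasA n f ∨ HasB n f ∨ HasC n f ∨ HasD n f) : False := by
  rcases h with h | h | h | h
  · obtain ⟨F, i, α, β, N, a, b, h1, h2⟩ := h
    apply wg3 h2 (by omega) (by omega) (m := m) (σ := n) (lo := 1)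
    intro i h3 h4
    exact ⟨⟨by omega, by omega, by simp⟩, ⟨by omega, by omega, by simp⟩,
      by rw [hs i (by omega) (by omega)]; simp⟩
  · obtain ⟨F, i, α, β, h2, h3⟩ := h
    apply wg3 h2 (by omega) (by omega) (m := m) (σ := n) (lo := 2)
    intro i h3 h4
    exact ⟨⟨by omega, by omega, by omega⟩, ⟨by omega, by omega, by omega⟩,
      by rw [hs i (by omega) (by omega)]; simp⟩
  · obtain ⟨F, i, α, β, h2, h3, h4⟩ := h
    have h5 := hs (m - 1) (by omega) (by omega)
    have h6 := hpos (m - 1) (by omega) (by omega)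
    rw [show m - 1 + m = n by omega, h4] at h5
    omega
  · obtain ⟨F, i, α, β, t₁, t₂, a1, a2, a3, a4, h2, h3⟩ := h
    apply wg4 h3 (by omega) (by omega) (m := m) (σ := n) (lo := 1)
      (u := if t₁ ≤ m then t₁ else t₁ - m)
    intro i h3 h4 h5
    have h6 : i ≠ t₁ ∧ i + m ≠ t₁ := by
      split_ifs at h5 <;> omega
    exact ⟨⟨by omega, by omega, h6.1⟩, ⟨by omega, by omega, h6.2⟩,
      by rw [hs i (by omega) (by omega)]; simp⟩

theorem w3_ABCD (hn : 9 ≤ n) (hm : n = 2 * m - 2) (hf1 : f 1 = 2)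
    (hs : ∀ i, 1 ≤ i → i ≤ m - 2 → f i + f (i + m) = n - 1)
    (h : HasA n f ∨ HasB n f ∨ HasC n f ∨ HasD n f) : False := by
  rcases h with h | h | h | h
  · obtain ⟨F, i, α, β, N, a, b, h1, h2⟩ := h
    apply wg3 h2 (by omega) (by omega) (m := m) (σ := n - 1) (lo := 1)
    intro i h3 h4
    exact ⟨⟨by omega, by omega, by simp⟩, ⟨by omega, by omega, by simp⟩,
      by rw [hs i (by omega) (by omega)]; simp⟩
  · obtain ⟨F, i, α, β, h2, h3⟩ := h
    omega
  · obtain ⟨F, i, α, β, h2, h3, h4⟩ := h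
    omega
  · obtain ⟨F, i, α, β, t₁, t₂, a1, a2, a3, a4, h2, h3⟩ := h
    apply wg4 h3 (by omega) (by omega) (m := m) (σ := n - 1) (lo := 1)
      (u := if t₁ ≤ m then t₁ else t₁ - m)
    intro i h3 h4 h5
    have h6 : i ≠ t₁ ∧ i + m ≠ t₁ := by
      split_ifs at h5 <;> omega
    exact ⟨⟨by omega, by omega, h6.1⟩, ⟨by omega, by omega, h6.2⟩,
      by rw [hs i (by omega) (by omega)]; simp⟩

theorem w0_ABCD (hn : 9 ≤ n) (hm : n = 2 * m + 1)
    (hs : ∀ i, 2 ≤ i → i ≤ m + 1 → f i + f (i + m) = n + 2)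
    (h : HasA n f ∨ HasB n f ∨ HasC n f ∨ HasD n f) : False := by
  rcases h with h | h | h | h
  · obtain ⟨F, i, α, β, N, a, b, h1, h2⟩ := h
    apply wg3 h2 (by omega) (by omega) (m := m) (σ := n + 2) (lo := 2)
    intro i h3 h4
    exact ⟨⟨by omega, by omega, by simp⟩, ⟨by omega, by omega, by simp⟩,
      by rw [hs i (by omega) (by omega)]; simp⟩
  · obtain ⟨F, i, α, β, h2, h3⟩ := h
    apply wg3 h2 (by omega) (by omega) (m := m) (σ := n + 2) (lo := 2)
    intro i h3 h4
    exact ⟨⟨by omega, by omega, by omega⟩, ⟨by omega, by omega, by omega⟩,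
      by rw [hs i (by omega) (by omega)]; simp⟩
  · obtain ⟨F, i, α, β, h2, h3, h4⟩ := h
    apply wg3 h2 (by omega) (by omega) (m := m) (σ := n + 2) (lo := 2)
    intro i h3 h4
    exact ⟨⟨by omega, by omega, by omega⟩, ⟨by omega, by omega, by omega⟩,
      by rw [hs i (by omega) (by omega)]; simp⟩
  · obtain ⟨F, i, α, β, t₁, t₂, a1, a2, a3, a4, h2, h3⟩ := h
    apply wg4 h3 (by omega) (by omega) (m := m) (σ := n + 2) (lo := 2)
      (u := if t₁ ≤ m + 1 then t₁ else t₁ - m)
    intro i h3 h4 h5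
    have h6 : i ≠ t₁ ∧ i + m ≠ t₁ := by
      split_ifs at h5 <;> omega
    exact ⟨⟨by omega, by omega, h6.1⟩, ⟨by omega, by omega, h6.2⟩,
      by rw [hs i (by omega) (by omega)]; simp⟩

theorem rw0_ABCD (hn : 10 ≤ n) (hm : n = 2 * m + 1) {t : ℤ} (ht : t ≤ n - 1) (hft : f n = t)
    (hs : (∀ i, 1 ≤ i → i ≤ m → f i + f (i + m) = 2 * t ∨
        f i + f (i + m) = 2 * t + n) ∨
      (∀ i, 1 ≤ i → i ≤ m → f i + f (i + m) = 2 * t ∨
        f i + f (i + m) = 2 * t - n))
    (h : HasA n f ∨ HasB n f ∨ HasC n f ∨ HasD n f) : False := by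
  have hdvd : ∀ i, 1 ≤ i → i ≤ m → n ∣ f i + f (i + m) - 2 * t := by
    intro i h1 h2
    rcases hs with hs | hs
    · rcases hs i h1 h2 with h | h
      · rw [h]; simp
      · rw [h]; exact ⟨1, by ring⟩
    · rcases hs i h1 h2 with h | h
      · rw [h]; simp
      · rw [h]; exact ⟨-1, by ring⟩
  rcases h with h | h | h | h
  · obtain ⟨F, i, α, β, N, a, b, h1, h2⟩ := h
    rcases hs with hs | hs
    · apply wg5 h2 (by omega) (by omega) (m := m) (σ := 2 * t) (τ := 2 * t + n) (lo := 1)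
      intro i h3 h4
      exact ⟨⟨by omega, by omega, by simp⟩, ⟨by omega, by omega, by simp⟩,
        hs i (by omega) (by omega)⟩
    · apply wg5 h2 (by omega) (by omega) (m := m) (σ := 2 * t) (τ := 2 * t - n) (lo := 1)
      intro i h3 h4
      exact ⟨⟨by omega, by omega, by simp⟩, ⟨by omega, by omega, by simp⟩,
        hs i (by omega) (by omega)⟩
  · obtain ⟨F, i, α, β, h2, h3⟩ := h
    apply wg3 h2 (by omega) (by omega) (m := m) (σ := 2 * t) (lo := 2)
    intro i h3 h4
    exact ⟨⟨by omega, by omega, by omega⟩, ⟨by omega, by omega, by omega⟩,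
      hdvd i (by omega) (by omega)⟩
  · obtain ⟨F, i, α, β, h2, h3, h4⟩ := h
    omega
  · obtain ⟨F, i, α, β, t₁, t₂, a1, a2, a3, a4, h2, h3⟩ := h
    apply wg4 h3 (by omega) (by omega) (m := m) (σ := 2 * t) (lo := 1)
      (u := if t₁ ≤ m then t₁ else t₁ - m)
    intro i h3 h4 h5
    have h6 : i ≠ t₁ ∧ i + m ≠ t₁ := by
      split_ifs at h5 <;> omega
    exact ⟨⟨by omega, by omega, h6.1⟩, ⟨by omega, by omega, h6.2⟩,
      hdvd i (by omega) (by omega)⟩

end

end Pool.Agent.Helper60.Costas
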