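import Pool.Agent.Helper60.Costas.PairsK

/-!
Orders 6, 7, 8: complete lists.
-/

namespace Pool.Agent.Helper60.Costas

/-- values of `RG_1` from the list of values of `g` -/
def rgArr (n : ℕ) (L : List ℕ) (t₁ t₂ : ℕ) : List ℕ :=
  (List.range n).map (fun i =>
    if i + 1 = t₁ then t₂ else
      (L.getD ((i + 1 + n - t₁ - 1) % n) 0 + t₂ - 1) % n + 1)

def rgAll (n : ℕ) (T : List (List ℕ)) : List (List ℕ) :=
  T.flatMap (fun L => (List.range (n - 2)).flatMap (fun a => (List.range (n - 2)).map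
    (fun b => rgArr n L (a + 2) (b + 2))))

def g1All (T : List (List ℕ)) : List (List ℕ) := T.map (fun L => 1 :: L.map (· + 1))

def g0All (n : ℕ) (T : List (List ℕ)) : List (List ℕ) :=
  T.map (fun L => 1 :: (L.map (· + 1) ++ [n]))

/-- exponential Welch permutations for `p = 7` -/
def W7 : List (List ℕ) :=
  [[1, 3, 2, 6, 4, 5], [3, 2, 6, 4, 5, 1], [2, 6, 4, 5, 1, 3], [6, 4, 5, 1, 3, 2],
   [4, 5, 1, 3, 2, 6], [5, 1, 3, 2, 6, 4],
   [1, 5, 4, 6, 2, 3], [5, 4, 6, 2, 3, 1], [4, 6, 2, 3, 1, 5], [6, 2, 3, 1, 5, 4],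
   [2, 3, 1, 5, 4, 6], [3, 1, 5, 4, 6, 2]]

def invList (L : List ℕ) : List ℕ :=
  (List.range L.length).map (fun j => L.findIdx (fun x => x == j + 1) + 1)

def rw0All : List (List ℕ) :=
  W7.flatMap (fun L => (List.range 5).map (fun t =>
    L.map (fun x => (x + (t + 2) - 1) % 7 + 1) ++ [t + 2]))

/-- lists for the orders 6, 7, 8 -/
def cand : ℕ → Method → List (List ℕ)
  | 6, .G1 => g1All T7
  | 6, .RG1 => rgAll 6 T7
  | 6, .W1 => W7 ++ W7.map invList
  | 6, .G2 => T8
  | 6, .G3 => [[6, 2, 3, 5, 4, 1]]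
  | 7, .G0 => g0All 7 T7
  | 7, .W0 => W7.map (fun L => 1 :: L.map (· + 1))
  | 7, .RW0 => rw0All
  | 7, .G1 => g1All T8
  | 7, .RG1 => rgAll 7 T8
  | 7, .G2 => T9
  | 7, .G4ss => [[3, 6, 1, 7, 5, 2, 4]]
  | 8, .G0 => g0All 8 T8
  | 8, .G1 => g1All T9
  | 8, .RG1 => rgAll 8 T9
  | 8, .G3 => [[3, 5, 1, 8, 2, 7, 6, 4]]
  | 8, .W3 => [[2, 6, 3, 8, 7, 5, 1, 4]]
  | _, _ => []

def allMethods : List Method :=
  [.W0, .W1, .W2, .W3, .RW0, .G0, .G1, .G2, .G3, .G4, .G4s, .G4ss, .G5s, .RG1]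

theorem mem_allMethods (M : Method) : M ∈ allMethods := by cases M <;> decide

def four : List (List ℕ) :=
  [[2, 1, 6, 4, 7, 3, 5], [3, 5, 1, 4, 2, 7, 6], [5, 3, 7, 4, 6, 1, 2], [6, 7, 2, 4, 1, 5, 3]]

def checkPair (n : ℕ) (M M' : Method) : Bool :=
  (cand n M).all (fun L => (cand n M').all (fun L' =>
    decide (L ≠ L') || (decide (n = 7) &&
      ((decide (M = .G2) && decide (M' = .RG1)) || (decide (M = .RG1) && decide (M' = .G2))) &&
        four.contains L)))

set_option maxRecDepth 100000 in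
theorem check6 : (allMethods.all (fun M => allMethods.all (fun M' =>
    decide (M = M') || checkPair 6 M M'))) = true := by decide +kernel

set_option maxRecDepth 100000 in
theorem check7 : (allMethods.all (fun M => allMethods.all (fun M' =>
    decide (M = M') || checkPair 7 M M'))) = true := by decide +kernel

set_option maxRecDepth 100000 in
theorem check8 : (allMethods.all (fun M => allMethods.all (fun M' =>
    decide (M = M') || checkPair 8 M M'))) = true := by decide +kernel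

end Pool.Agent.Helper60.Costas
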