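import Pool.Agent.Helper60.Costas.PairsJ
import Pool.Agent.Helper60.Costas.Fields

/-!
Tables of the permutations `G_2(q, α, β)` for small `q`.
-/

namespace Pool.Agent.Helper60.Costas

/-- the list of the values on `[m]` -/
def vec (m : ℕ) (g : ℕ → ℕ) : List ℕ := (List.range m).map (fun i => g (i + 1))

def T7 : List (List ℕ) :=
  [[1, 3, 4, 2, 5],
   [1, 4, 2, 3, 5],
   [5, 2, 4, 3, 1],
   [5, 3, 2, 4, 1]]

def T8 : List (List ℕ) :=
  [[1, 2, 5, 4, 6, 3],
   [1, 2, 6, 4, 3, 5],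
   [2, 4, 3, 1, 5, 6],
   [2, 4, 5, 1, 6, 3],
   [3, 6, 1, 5, 4, 2],
   [3, 6, 4, 5, 2, 1],
   [4, 1, 3, 2, 5, 6],
   [4, 1, 6, 2, 3, 5],
   [5, 3, 2, 6, 1, 4],
   [5, 3, 4, 6, 2, 1],
   [6, 5, 1, 3, 4, 2],
   [6, 5, 2, 3, 1, 4]]

def T9 : List (List ℕ) :=
  [[1, 7, 3, 4, 6, 5, 2],
   [2, 1, 6, 4, 7, 3, 5],
   [2, 5, 6, 4, 3, 7, 1],
   [3, 5, 1, 4, 2, 7, 6],
   [5, 3, 7, 4, 6, 1, 2],
   [6, 3, 2, 4, 5, 1, 7],
   [6, 7, 2, 4, 1, 5, 3],
   [7, 1, 5, 4, 2, 3, 6]]

def T11p : List (List ℕ) :=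
  [[1, 4, 6, 2, 9, 3, 8, 7, 5]]

def T11s : List (List ℕ) :=
  [[2, 1, 5, 8, 3, 9, 7, 4, 6]]

def T13p : List (List ℕ) :=
  [[1, 10, 4, 3, 8, 11, 9, 5, 7, 2, 6]]

def T16p : List (List ℕ) :=
  [[1, 2, 11, 4, 10, 7, 6, 8, 13, 5, 3, 14, 9, 12]]

def T19s : List (List ℕ) :=
  [[2, 1, 15, 7, 5, 11, 4, 16, 13, 17, 6, 14, 9, 12, 3, 8, 10]]


theorem IsG2.map {F K : Type} [Field F] [Fintype F] [Field K] [Fintype K] (e : F ≃+* K)
    {α β : F} {g : ℕ → ℕ} (h : IsG2 F α β g) : IsG2 K (e α) (e β) g := by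
  have hp : ∀ γ : F, IsPrimitive γ → IsPrimitive (e γ) := by
    intro γ hγ
    refine ⟨by simpa using hγ.1, ?_⟩
    intro x hx
    obtain ⟨k, hk⟩ := hγ.2 (e.symm x) (by simpa using hx)
    exact ⟨k, by rw [← map_pow, hk]; simp⟩
  refine ⟨hp _ h.1, hp _ h.2.1, ?_⟩
  intro i h1 h2
  rw [← Fintype.card_congr e.toEquiv] at h2 ⊢
  obtain ⟨h3, h4, h5⟩ := h.2.2 i h1 h2
  refine ⟨h3, h4, ?_⟩
  have := congrArg e h5
  simpa using this

/-- `a` is nonzero and `a, a^2, …, a^m ≠ 1` -/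
def okb {K : Type} [Field K] [DecidableEq K] (a : K) (m : ℕ) : Bool :=
  decide (a ≠ 0) && (List.range m).all (fun k => decide (a ^ (k + 1) ≠ 1))

/-- candidate list of values -/
def arr {K : Type} [Field K] [DecidableEq K] (a b : K) (m : ℕ) : List ℕ :=
  (List.range m).map (fun i =>
    ((List.range m).findIdx (fun j => decide (a ^ (j + 1) + b ^ (i + 1) = 1))) + 1)

theorem okb_of {K : Type} [Field K] [Fintype K] [DecidableEq K] {a : K} {m : ℕ}
    (hc : Fintype.card K = m + 2) (h : IsPrimitive a) : okb a m = true := by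
  unfold okb
  rw [Bool.and_eq_true, decide_eq_true_eq, List.all_eq_true]
  refine ⟨h.1, ?_⟩
  intro k hk
  rw [List.mem_range] at hk
  rw [decide_eq_true_eq]
  intro h1
  have h2 := h.hasOrd.2 ((k + 1 : ℕ) : ℤ)
  rw [zpow_natCast, hc] at h2
  have h3 := Int.le_of_dvd (by omega) (h2.1 h1)
  push_cast at h3
  omega

/-- correctness of a table `T` under a side condition `P` -/
def TabOK (K : Type) [Field K] [DecidableEq K] (P : K → K → Bool) (m : ℕ)
    (T : List (List ℕ)) : Prop :=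
  ∀ a b : K, okb a m = true → okb b m = true → P a b = true →
    (∀ i < m, ∀ j < m, a ^ (j + 1) + b ^ (i + 1) = 1 → (arr a b m).getD i 0 = j + 1) ∧
      arr a b m ∈ T

theorem vec_mem {K : Type} [Field K] [Fintype K] [DecidableEq K] {P : K → K → Bool} {m : ℕ}
    {T : List (List ℕ)} (hT : TabOK K P m T) (hc : Fintype.card K = m + 2) {F : Type} [Field F]
    [Fintype F] (e : F ≃+* K) {α β : F} {g : ℕ → ℕ} (h : IsG2 F α β g)
    (hP : P (e α) (e β) = true) : vec m g ∈ T := by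
  have h' := h.map e
  obtain ⟨h1, h2⟩ := hT (e α) (e β) (okb_of hc h'.1) (okb_of hc h'.2.1) hP
  have : vec m g = arr (e α) (e β) m := by
    apply List.ext_getElem
    · simp [vec, arr]
    · intro i hi1 hi2
      have him : i < m := by simpa [vec] using hi1
      obtain ⟨a1, a2, a3⟩ := h'.2.2 (i + 1) (by omega) (by omega)
      have h3 := h1 i him (g (i + 1) - 1) (by omega)
        (by rw [show g (i + 1) - 1 + 1 = g (i + 1) by omega]; exact a3)
      rw [List.getD_eq_getElem _ _ hi2] at h3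
      rw [h3]
      simp only [vec, List.getElem_map, List.getElem_range]
      omega
  rw [this]; exact h2

set_option maxRecDepth 100000

instance fact7 : Fact (Nat.Prime 7) := ⟨by norm_num⟩
instance fact11 : Fact (Nat.Prime 11) := ⟨by norm_num⟩
instance fact13 : Fact (Nat.Prime 13) := ⟨by norm_num⟩
instance fact19 : Fact (Nat.Prime 19) := ⟨by norm_num⟩

theorem tab7 : TabOK (ZMod 7) (fun _ _ => true) 5 T7 := by
  unfold TabOK; decide +kernel

theorem tab8 : TabOK K8 (fun _ _ => true) 6 T8 := by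
  unfold TabOK; decide +kernel

theorem tab9 : TabOK K9 (fun _ _ => true) 7 T9 := by
  unfold TabOK; decide +kernel

theorem tab11p : TabOK (ZMod 11) (fun a b => decide (a + b = 1)) 9 T11p := by
  unfold TabOK; decide +kernel

theorem tab11s : TabOK (ZMod 11) (fun a b => decide (b = a ∧ a + a ^ 2 = 1)) 9 T11s := by
  unfold TabOK; decide +kernel

theorem tab13p : TabOK (ZMod 13) (fun a b => decide (a + b = 1)) 11 T13p := by
  unfold TabOK; decide +kernel

theorem tab16p : TabOK K16 (fun a b => decide (a + b = 1)) 14 T16p := by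
  unfold TabOK; decide +kernel

theorem tab19s : TabOK (ZMod 19) (fun a b => decide (b = a ∧ a + a ^ 2 = 1)) 17 T19s := by
  unfold TabOK; decide +kernel

end Pool.Agent.Helper60.Costas
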